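import Pool.Agent.H47R2.EA.St

/-!
# Lattice points in an `ℓ¹`-ball (St_BALL)
-/

namespace Pool.H47EA

theorem BALL_one (a : ℤ) (q : ℝ) (m : ℕ) :
    (1 - q) * ∑ z ∈ Finset.Icc (a - (m : ℤ)) (a + (m : ℤ)), q ^ (a - z).natAbs
      = 1 + q - 2 * q ^ (m + 1) := by
  induction m with
  | zero => simp; ring
  | succ m ih =>
    have h1 : Finset.Icc (a - ((m + 1 : ℕ) : ℤ)) (a + ((m + 1 : ℕ) : ℤ)) =
        insert (a - ((m + 1 : ℕ) : ℤ)) (insert (a + ((m + 1 : ℕ) : ℤ))
          (Finset.Icc (a - (m : ℤ)) (a + (m : ℤ)))) := by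
      ext z
      simp only [Finset.mem_Icc, Finset.mem_insert]
      push_cast
      omega
    rw [h1, Finset.sum_insert, Finset.sum_insert, mul_add, mul_add, ih]
    · have e1 : (a - (a - ((m + 1 : ℕ) : ℤ))).natAbs = m + 1 := by omega
      have e2 : (a - (a + ((m + 1 : ℕ) : ℤ))).natAbs = m + 1 := by omega
      rw [e1, e2]
      ring
    · simp only [Finset.mem_Icc]; push_cast; omega
    · simp only [Finset.mem_Icc, Finset.mem_insert]; push_cast; omega

theorem BALL_one_le (a : ℤ) (q : ℝ) (h0 : 0 < q) (h1 : q < 1) (m : ℕ) :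
    ∑ z ∈ Finset.Icc (a - (m : ℤ)) (a + (m : ℤ)), q ^ (a - z).natAbs ≤ (1 + q) / (1 - q) := by
  rw [le_div_iff₀ (by linarith), mul_comm, BALL_one]
  have := pow_pos h0 (m + 1)
  linarith

theorem t_BALL : St_BALL := by
  intro d m x q h0 h1
  have e1 : ((ball x m).card : ℝ) * q ^ m ≤ ∑ y ∈ ball x m, q ^ dist1 x y := by
    rw [← nsmul_eq_mul, ← Finset.sum_const]
    apply Finset.sum_le_sum
    intro y hy
    have hy2 : dist1 x y ≤ m := (Finset.mem_filter.1 hy).2
    exact pow_le_pow_of_le_one h0.le h1.le hy2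
  have e2 : ∑ y ∈ ball x m, q ^ dist1 x y ≤
      ∑ y ∈ Finset.Icc (fun i => x i - (m : ℤ)) (fun i => x i + (m : ℤ)), q ^ dist1 x y := by
    apply Finset.sum_le_sum_of_subset_of_nonneg
    · exact Finset.filter_subset _ _
    · intro y _ _
      positivity
  have e3 : ∑ y ∈ Finset.Icc (fun i => x i - (m : ℤ)) (fun i => x i + (m : ℤ)), q ^ dist1 x y
      = ∏ i, ∑ z ∈ Finset.Icc (x i - (m : ℤ)) (x i + (m : ℤ)), q ^ (x i - z).natAbs := by
    rw [Finset.prod_univ_sum]
    apply Finset.sum_congr rfl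
    intro y _
    rw [dist1, Finset.prod_pow_eq_pow_sum]
  have e4 : ∏ i, ∑ z ∈ Finset.Icc (x i - (m : ℤ)) (x i + (m : ℤ)), q ^ (x i - z).natAbs
      ≤ ∏ _i : Fin d, ((1 + q) / (1 - q)) := by
    apply Finset.prod_le_prod
    · intro i _
      exact Finset.sum_nonneg fun z _ => by positivity
    · intro i _
      exact BALL_one_le (x i) q h0 h1 m
  rw [Finset.prod_const, Finset.card_univ, Fintype.card_fin] at e4
  exact e1.trans (e2.trans (e3.le.trans e4))

end Pool.H47EA
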