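import Pool.Agent.H47R2.EA.St

/-!
# Even closed walks: comparison with the complete graph
-/

set_option autoImplicit false

namespace Pool.H47EA

namespace COMB

open Finset

variable {V : Type} [DecidableEq V]

/-- vertices visited before time `m` versus edges used before time `m` -/
theorem card_visited_le (q : ℕ → V) (m : ℕ) :
    ((range (m + 1)).image q).card ≤ ((range m).image fun i => s(q i, q (i + 1))).card + 1 := by
  induction m with
  | zero => simp
  | succ m ih =>
    have e1 : (range (m + 1 + 1)).image q = insert (q (m + 1)) ((range (m + 1)).image q) := by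
      rw [range_add_one (n := m + 1), image_insert]
    have e2 : ((range (m + 1)).image fun i => s(q i, q (i + 1))) =
        insert s(q m, q (m + 1)) ((range m).image fun i => s(q i, q (i + 1))) := by
      rw [range_add_one (n := m), image_insert]
    rw [e1, e2]
    by_cases h : q (m + 1) ∈ (range (m + 1)).image q
    · rw [insert_eq_of_mem h]
      refine ih.trans ?_
      gcongr
      exact subset_insert _ _
    · have h2 : s(q m, q (m + 1)) ∉ (range m).image fun i => s(q i, q (i + 1)) := by
        intro h3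
        rw [mem_image] at h3
        obtain ⟨i, hi, h4⟩ := h3
        rw [mem_range] at hi
        apply h
        rw [mem_image]
        rw [Sym2.eq_iff] at h4
        rcases h4 with h4 | h4
        · exact ⟨i + 1, mem_range.2 (by omega), h4.2⟩
        · exact ⟨i, mem_range.2 (by omega), h4.1⟩
      rw [card_insert_of_notMem h2]
      have h1 := card_insert_le (q (m + 1)) ((range (m + 1)).image q)
      omega

/-- an even closed walk of length `2 k` visits at most `k + 1` vertices -/
theorem card_image_le' {G : SimpleGraph V} {x : V} {k : ℕ} {p : Fin (2 * k + 1) → V}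
    (hp : p ∈ evenWalks G x (2 * k)) : (univ.image p).card ≤ k + 1 := by
  obtain ⟨_, _, _, hev⟩ := hp
  set q : ℕ → V := fun i => p ⟨min i (2 * k), by omega⟩ with hq
  have h1 := card_visited_le q (2 * k)
  have hq1 : ∀ i : Fin (2 * k + 1), q i = p i := by
    intro i
    rw [hq]
    simp only
    congr 1
    ext
    simp only
    omega
  have h2 : (range (2 * k + 1)).image q = univ.image p := by
    ext v
    simp only [mem_image, mem_range, mem_univ, true_and]
    constructor
    · rintro ⟨i, hi, rfl⟩
      exact ⟨⟨i, hi⟩, (hq1 ⟨i, hi⟩).symm⟩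
    · rintro ⟨i, rfl⟩
      exact ⟨i, i.2, hq1 i⟩
  rw [h2] at h1
  set ed : Fin (2 * k) → Sym2 V := fun i => s(p i.castSucc, p i.succ) with hed
  have h3 : (range (2 * k)).image (fun i => s(q i, q (i + 1))) = univ.image ed := by
    ext e
    simp only [mem_image, mem_range, mem_univ, true_and]
    constructor
    · rintro ⟨i, hi, rfl⟩
      refine ⟨⟨i, hi⟩, ?_⟩
      simp only [hed]
      rw [← hq1, ← hq1]
      rfl
    · rintro ⟨i, rfl⟩
      refine ⟨i, i.2, ?_⟩
      simp only [hed]
      rw [← hq1, ← hq1]
      rfl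
  rw [h3] at h1
  have h4 : 2 * (univ.image ed).card ≤ 2 * k := by
    have h5 : (univ : Finset (Fin (2 * k))).card =
        ∑ e ∈ univ.image ed, (univ.filter fun i => ed i = e).card :=
      card_eq_sum_card_fiberwise (fun i _ => mem_image_of_mem _ (mem_univ i))
    rw [card_univ, Fintype.card_fin] at h5
    calc 2 * (univ.image ed).card = ∑ _e ∈ univ.image ed, 2 := by
          rw [sum_const, smul_eq_mul, mul_comm]
      _ ≤ ∑ e ∈ univ.image ed, (univ.filter fun i => ed i = e).card := by
          refine sum_le_sum fun e he => ?_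
          rw [mem_image] at he
          obtain ⟨i, _, hi⟩ := he
          have h6 : 0 < (univ.filter fun i => ed i = e).card :=
            card_pos.2 ⟨i, mem_filter.2 ⟨mem_univ _, hi⟩⟩
          obtain ⟨c, hc⟩ := hev e
          have h7 : (univ.filter fun i => ed i = e).card = c + c := hc
          omega
      _ = 2 * k := h5.symm
  omega

/-- walks with a prescribed beginning -/
def SW (G : SimpleGraph V) (x : V) (n m : ℕ) (H : Fin (n + 1) → V) : Set (Fin (n + 1) → V) :=
  {p | p ∈ evenWalks G x n ∧ ∀ a : Fin (n + 1), (a : ℕ) ≤ m → p a = H a}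

/-- same equality pattern up to time `m` -/
def Pat {W : Type} {n : ℕ} (m : ℕ) (H : Fin (n + 1) → V) (H' : Fin (n + 1) → W) : Prop :=
  ∀ a b : Fin (n + 1), (a : ℕ) ≤ m → (b : ℕ) ≤ m → (H a = H b ↔ H' a = H' b)

theorem mem_SW_succ {G : SimpleGraph V} {x : V} {n m : ℕ} (hm : m + 1 < n + 1)
    {H p : Fin (n + 1) → V} {y : V} :
    p ∈ SW G x n (m + 1) (Function.update H ⟨m + 1, hm⟩ y) ↔
      p ∈ SW G x n m H ∧ p ⟨m + 1, hm⟩ = y := by
  constructor
  · rintro ⟨h1, h2⟩
    refine ⟨⟨h1, fun a ha => ?_⟩, ?_⟩
    · rw [h2 a (by omega), Function.update_of_ne]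
      intro h
      rw [h] at ha
      simp only at ha
      omega
    · rw [h2 _ (le_refl _), Function.update_self]
  · rintro ⟨⟨h1, h2⟩, h3⟩
    refine ⟨h1, fun a ha => ?_⟩
    by_cases h : a = ⟨m + 1, hm⟩
    · rw [h, Function.update_self, h3]
    · rw [Function.update_of_ne h]
      apply h2
      have : (a : ℕ) ≠ m + 1 := fun h' => h (Fin.ext h')
      omega

omit [DecidableEq V] in
theorem Pat.update {W : Type} {n m : ℕ} (hm : m + 1 < n + 1) {H : Fin (n + 1) → V}
    {H' : Fin (n + 1) → W} (hP : Pat m H H') {y : V} {z : W}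
    (hyz : ∀ b : Fin (n + 1), (b : ℕ) ≤ m → (H b = y ↔ H' b = z)) :
    Pat (m + 1) (Function.update H ⟨m + 1, hm⟩ y) (Function.update H' ⟨m + 1, hm⟩ z) := by
  intro a b ha hb
  by_cases h1 : a = ⟨m + 1, hm⟩
  · by_cases h2 : b = ⟨m + 1, hm⟩
    · rw [h1, h2]; simp
    · have hb' : (b : ℕ) ≤ m := by
        have : (b : ℕ) ≠ m + 1 := fun h' => h2 (Fin.ext h')
        omega
      rw [h1, Function.update_self, Function.update_self, Function.update_of_ne h2,
        Function.update_of_ne h2]
      rw [eq_comm, hyz b hb', eq_comm]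
  · have ha' : (a : ℕ) ≤ m := by
      have : (a : ℕ) ≠ m + 1 := fun h' => h1 (Fin.ext h')
      omega
    by_cases h2 : b = ⟨m + 1, hm⟩
    · rw [h2, Function.update_self, Function.update_self, Function.update_of_ne h1,
        Function.update_of_ne h1]
      exact hyz a ha'
    · have hb' : (b : ℕ) ≤ m := by
        have : (b : ℕ) ≠ m + 1 := fun h' => h2 (Fin.ext h')
        omega
      rw [Function.update_of_ne h1, Function.update_of_ne h2, Function.update_of_ne h1,
        Function.update_of_ne h2]
      exact hP a b ha' hb'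

theorem base {G : SimpleGraph V} {x : V} {n r : ℕ} {o : Fin r} {H : Fin (n + 1) → V}
    {H' : Fin (n + 1) → Fin r} (h0 : H' 0 = o) (hP : Pat n H H')
    (hH : H ∈ evenWalks G x n) : H' ∈ evenWalks (⊤ : SimpleGraph (Fin r)) o n := by
  obtain ⟨h1, h2, h3, h4⟩ := hH
  have hP' : ∀ a b : Fin (n + 1), (H a = H b ↔ H' a = H' b) := fun a b =>
    hP a b (by omega) (by omega)
  have hs : ∀ a b c d : Fin (n + 1), (s(H a, H b) = s(H c, H d) ↔ s(H' a, H' b) = s(H' c, H' d)) := by
    intro a b c d
    rw [Sym2.eq_iff, Sym2.eq_iff, hP', hP', hP', hP']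
  refine ⟨h0, ?_, ?_, ?_⟩
  · rw [← h0, ← hP', h1, h2]
  · intro i
    rw [SimpleGraph.top_adj]
    intro h
    exact (h3 i).ne ((hP' _ _).2 h)
  · intro e
    by_cases hex : ∃ i0 : Fin n, s(H' i0.castSucc, H' i0.succ) = e
    · obtain ⟨i0, rfl⟩ := hex
      have h5 := h4 s(H i0.castSucc, H i0.succ)
      have h6 : (univ.filter fun i : Fin n => s(H' i.castSucc, H' i.succ) =
          s(H' i0.castSucc, H' i0.succ)) = univ.filter fun i : Fin n => s(H i.castSucc, H i.succ) =
          s(H i0.castSucc, H i0.succ) := by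
        refine filter_congr fun i _ => ?_
        rw [hs]
      rw [h6]
      exact h5
    · have h6 : (univ.filter fun i : Fin n => s(H' i.castSucc, H' i.succ) = e) = ∅ := by
        rw [filter_eq_empty_iff]
        intro i _ h
        exact hex ⟨i, h⟩
      rw [h6]
      simp

theorem claim {G : SimpleGraph V} {Δ k r : ℕ}
    (hG : ∀ x, (G.neighborSet x).Finite ∧ (G.neighborSet x).ncard ≤ Δ) (hr : Δ + k + 1 ≤ r)
    (x : V) (o : Fin r) (j m : ℕ) (hjm : m + j = 2 * k) (H : Fin (2 * k + 1) → V)
    (H' : Fin (2 * k + 1) → Fin r) (h0 : H' 0 = o) (hP : Pat m H H') :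
    (SW G x (2 * k) m H).Finite ∧ (SW G x (2 * k) m H).ncard ≤
      (SW (⊤ : SimpleGraph (Fin r)) o (2 * k) m H').ncard := by
  classical
  induction j generalizing m H H' with
  | zero =>
    obtain rfl : m = 2 * k := by omega
    have h1 : SW G x (2 * k) (2 * k) H ⊆ {H} := by
      rintro p ⟨_, h2⟩
      rw [Set.mem_singleton_iff]
      funext a
      exact h2 a (by omega)
    refine ⟨(Set.finite_singleton H).subset h1, ?_⟩
    rcases (SW G x (2 * k) (2 * k) H).eq_empty_or_nonempty with h2 | ⟨p, hp⟩
    · rw [h2, Set.ncard_empty]; omega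
    · have h3 : p = H := h1 hp
      subst h3
      have h4 : H' ∈ SW (⊤ : SimpleGraph (Fin r)) o (2 * k) (2 * k) H' :=
        ⟨base h0 hP hp.1, fun _ _ => rfl⟩
      have h5 : (SW G x (2 * k) (2 * k) p).ncard ≤ 1 := by
        have := Set.ncard_le_ncard h1 (Set.finite_singleton p)
        rwa [Set.ncard_singleton] at this
      have h6 : 0 < (SW (⊤ : SimpleGraph (Fin r)) o (2 * k) (2 * k) H').ncard :=
        (Set.ncard_pos (Set.toFinite _)).2 ⟨H', h4⟩
      omega
  | succ j ih =>
    have hm : m + 1 < 2 * k + 1 := by omega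
    set i1 : Fin (2 * k + 1) := ⟨m + 1, hm⟩ with hi1
    set i0 : Fin (2 * k) := ⟨m, by omega⟩ with hi0
    set N : Finset V := (hG (H i0.castSucc)).1.toFinset with hN
    have hNc : N.card ≤ Δ := by
      have := (hG (H i0.castSucc)).2
      rwa [Set.ncard_eq_toFinset_card _ (hG (H i0.castSucc)).1] at this
    set g : V → ℕ := fun y => (SW G x (2 * k) (m + 1) (Function.update H i1 y)).ncard with hg
    set f : Fin r → ℕ := fun z =>
      (SW (⊤ : SimpleGraph (Fin r)) o (2 * k) (m + 1) (Function.update H' i1 z)).ncard with hf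
    have h0' : ∀ z, Function.update H' i1 z 0 = o := by
      intro z
      rw [Function.update_of_ne, h0]
      intro h
      have := congrArg Fin.val h
      simp [hi1] at this
    -- the inductive comparison
    have hcmp : ∀ y z, (∀ b : Fin (2 * k + 1), (b : ℕ) ≤ m → (H b = y ↔ H' b = z)) →
        (SW G x (2 * k) (m + 1) (Function.update H i1 y)).Finite ∧ g y ≤ f z := by
      intro y z hyz
      exact ih (m + 1) (by omega) _ _ (h0' z) (hP.update hm hyz)
    -- old vertices
    set O : Finset V := (univ.filter fun a : Fin (2 * k + 1) => (a : ℕ) ≤ m).image H with hO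
    set O' : Finset (Fin r) := (univ.filter fun a : Fin (2 * k + 1) => (a : ℕ) ≤ m).image H' with hO'
    set ψ : V → Fin r := fun y =>
      if h : ∃ a : Fin (2 * k + 1), (a : ℕ) ≤ m ∧ H a = y then H' h.choose else o with hψ
    have hψ1 : ∀ a : Fin (2 * k + 1), (a : ℕ) ≤ m → ψ (H a) = H' a := by
      intro a ha
      have hex : ∃ b : Fin (2 * k + 1), (b : ℕ) ≤ m ∧ H b = H a := ⟨a, ha, rfl⟩
      simp only [hψ]
      rw [dif_pos hex]
      exact (hP _ _ hex.choose_spec.1 ha).1 hex.choose_spec.2
    have hold : ∀ y ∈ O, (∀ b : Fin (2 * k + 1), (b : ℕ) ≤ m → (H b = y ↔ H' b = ψ y)) := by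
      intro y hy b hb
      rw [hO, mem_image] at hy
      obtain ⟨a, ha, rfl⟩ := hy
      rw [mem_filter] at ha
      rw [hψ1 a ha.2]
      exact hP b a hb ha.2
    have hnew : ∀ y, y ∉ O → ∀ z, z ∉ O' →
        (∀ b : Fin (2 * k + 1), (b : ℕ) ≤ m → (H b = y ↔ H' b = z)) := by
      intro y hy z hz b hb
      constructor
      · intro h
        exfalso
        apply hy
        rw [hO, mem_image]
        exact ⟨b, mem_filter.2 ⟨mem_univ _, hb⟩, h⟩
      · intro h
        exfalso
        apply hz
        rw [hO', mem_image]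
        exact ⟨b, mem_filter.2 ⟨mem_univ _, hb⟩, h⟩
    have hO'c : O'.card ≤ O.card := by
      have : O' ⊆ O.image ψ := by
        intro z hz
        rw [hO', mem_image] at hz
        obtain ⟨a, ha, rfl⟩ := hz
        rw [mem_filter] at ha
        rw [mem_image]
        exact ⟨H a, mem_image.2 ⟨a, mem_filter.2 ha, rfl⟩, hψ1 a ha.2⟩
      exact (card_le_card this).trans card_image_le
    -- bound on the number of old vertices
    have hcard : ∀ y, y ∉ O →
        (SW G x (2 * k) (m + 1) (Function.update H i1 y)).Nonempty → O.card ≤ k := by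
      rintro y hy ⟨p, hp⟩
      have h2 := card_image_le' hp.1
      rw [mem_SW_succ hm] at hp
      have h3 : insert y O ⊆ univ.image p := by
        intro v hv
        rw [mem_insert] at hv
        rcases hv with rfl | hv
        · exact mem_image.2 ⟨i1, mem_univ _, hp.2⟩
        · rw [hO, mem_image] at hv
          obtain ⟨a, ha, rfl⟩ := hv
          exact mem_image.2 ⟨a, mem_univ _, hp.1.2 a (mem_filter.1 ha).2⟩
      have h4 := card_le_card h3
      rw [card_insert_of_notMem hy] at h4
      omega
    have hcompl : O.card ≤ k → Δ + 1 ≤ (O'ᶜ).card := by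
      intro h
      have := card_add_card_compl O'
      rw [Fintype.card_fin] at this
      omega
    -- finiteness of the pieces
    have hfin : ∀ y, (SW G x (2 * k) (m + 1) (Function.update H i1 y)).Finite := by
      intro y
      by_cases hy : y ∈ O
      · exact (hcmp y (ψ y) (hold y hy)).1
      · rcases (SW G x (2 * k) (m + 1) (Function.update H i1 y)).eq_empty_or_nonempty with h | h
        · rw [h]; exact Set.finite_empty
        · have h1 := hcompl (hcard y hy h)
          obtain ⟨z, hz⟩ := card_pos.1 (show 0 < (O'ᶜ).card by omega)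
          rw [mem_compl] at hz
          exact (hcmp y z (hnew y hy z hz)).1
    have hcov : SW G x (2 * k) m H ⊆
        ⋃ y ∈ N, SW G x (2 * k) (m + 1) (Function.update H i1 y) := by
      intro p hp
      rw [Set.mem_iUnion₂]
      refine ⟨p i1, ?_, (mem_SW_succ hm).2 ⟨hp, rfl⟩⟩
      rw [hN, Set.Finite.mem_toFinset, SimpleGraph.mem_neighborSet]
      have h1 := hp.1.2.2.1 i0
      have h2 : p i0.castSucc = H i0.castSucc := hp.2 _ (le_refl _)
      rw [h2] at h1
      exact h1
    have hfinU := Set.Finite.biUnion N.finite_toSet fun y _ => hfin y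
    refine ⟨hfinU.subset hcov, ?_⟩
    refine (Set.ncard_le_ncard hcov hfinU).trans ?_
    refine (Finset.set_ncard_biUnion_le _ _).trans ?_
    have hK : ∑ z, f z = (SW (⊤ : SimpleGraph (Fin r)) o (2 * k) m H').ncard := by
      rw [Set.ncard_eq_toFinset_card _ (Set.toFinite _),
        card_eq_sum_card_fiberwise (f := fun p : Fin (2 * k + 1) → Fin r => p i1)
          (t := (univ : Finset (Fin r))) (fun _ _ => mem_univ _)]
      refine sum_congr rfl fun z _ => ?_
      simp only [hf]
      rw [Set.ncard_eq_toFinset_card _ (Set.toFinite _)]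
      congr 1
      ext p
      rw [Set.Finite.mem_toFinset, mem_filter, Set.Finite.mem_toFinset, mem_SW_succ hm]
    rw [← hK, ← sum_add_sum_compl O' f, ← sum_filter_add_sum_filter_not N (fun y => y ∈ O)]
    refine add_le_add ?_ ?_
    · -- old vertices
      have hinj : Set.InjOn ψ (N.filter fun y => y ∈ O) := by
        intro y hy y' hy' hyy
        rw [mem_coe, mem_filter] at hy hy'
        have h1 := hy.2
        have h2 := hy'.2
        rw [hO, mem_image] at h1 h2
        obtain ⟨a, ha, rfl⟩ := h1
        obtain ⟨b, hb, rfl⟩ := h2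
        rw [mem_filter] at ha hb
        rw [hψ1 a ha.2, hψ1 b hb.2] at hyy
        exact (hP a b ha.2 hb.2).2 hyy
      calc ∑ y ∈ N.filter (fun y => y ∈ O), g y
          ≤ ∑ y ∈ N.filter (fun y => y ∈ O), f (ψ y) :=
            sum_le_sum fun y hy => (hcmp y (ψ y) (hold y (mem_filter.1 hy).2)).2
        _ = ∑ z ∈ (N.filter fun y => y ∈ O).image ψ, f z := (sum_image hinj).symm
        _ ≤ ∑ z ∈ O', f z := by
            refine sum_le_sum_of_subset ?_
            intro z hz
            rw [mem_image] at hz
            obtain ⟨y, hy, rfl⟩ := hz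
            have h1 := (mem_filter.1 hy).2
            rw [hO, mem_image] at h1
            obtain ⟨a, ha, rfl⟩ := h1
            rw [hψ1 a (mem_filter.1 ha).2, hO', mem_image]
            exact ⟨a, ha, rfl⟩
    · -- new vertices
      by_cases hz : ∀ y ∈ N.filter (fun y => ¬ y ∈ O), g y = 0
      · rw [sum_eq_zero hz]; exact Nat.zero_le _
      · push Not at hz
        obtain ⟨y0, hy0, hg0⟩ := hz
        obtain ⟨y1, hy1, hmax⟩ := exists_max_image (N.filter (fun y => ¬ y ∈ O)) g ⟨y0, hy0⟩
        have hy1O := (mem_filter.1 hy1).2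
        have hy0O := (mem_filter.1 hy0).2
        have hne : (SW G x (2 * k) (m + 1) (Function.update H i1 y0)).Nonempty := by
          rw [Set.nonempty_iff_ne_empty]
          intro h
          apply hg0
          simp only [hg]
          rw [h, Set.ncard_empty]
        have h1 := hcompl (hcard y0 hy0O hne)
        calc ∑ y ∈ N.filter (fun y => ¬ y ∈ O), g y
            ≤ ∑ _y ∈ N.filter (fun y => ¬ y ∈ O), g y1 := sum_le_sum fun y hy => hmax y hy
          _ = (N.filter (fun y => ¬ y ∈ O)).card * g y1 := by rw [sum_const, smul_eq_mul]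
          _ ≤ (O'ᶜ).card * g y1 := by
              refine Nat.mul_le_mul_right _ ?_
              have := card_filter_le N (fun y => ¬ y ∈ O)
              omega
          _ = ∑ _z ∈ O'ᶜ, g y1 := by rw [sum_const, smul_eq_mul]
          _ ≤ ∑ z ∈ O'ᶜ, f z :=
              sum_le_sum fun z hz => (hcmp y1 z (hnew y1 hy1O z (mem_compl.1 hz))).2

end COMB

theorem t_COMB : St_COMB := by
  intro V _ G Δ k r hG hr x o
  have h1 := COMB.claim hG hr x o (2 * k) 0 (by omega) (fun _ => x) (fun _ => o) rfl
    (fun a b _ _ => by simp)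
  have h2 : ∀ {W : Type} [DecidableEq W] (G' : SimpleGraph W) (w : W),
      COMB.SW G' w (2 * k) 0 (fun _ => w) = evenWalks G' w (2 * k) := by
    intro W _ G' w
    ext p
    constructor
    · rintro ⟨h, _⟩; exact h
    · intro h
      refine ⟨h, fun a ha => ?_⟩
      have : a = 0 := Fin.ext (by simpa using ha)
      rw [this]
      exact h.1
  rw [h2, h2] at h1
  exact h1

end Pool.H47EA
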