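import Pool.Agent.H47R2.EA.St

/-!
# COV1: one small step of the discrete Riccati inequality
-/

set_option autoImplicit false
set_option linter.unusedSectionVars false
set_option linter.unusedVariables false

namespace Pool.H47EA

section cov1

variable {U : Type} [Fintype U] [DecidableEq U]

/-! ### averages -/

theorem c1_Wt_pos {g : (U → Bool) → ℝ} (hg : ∀ σ, 0 < g σ) (h : U → ℝ) (σ : U → Bool) :
    0 < Wt g h σ := mul_pos (hg σ) (Real.exp_pos _)

theorem c1_Zf_pos {g : (U → Bool) → ℝ} (hg : ∀ σ, 0 < g σ) (h : U → ℝ) : 0 < Zf g h :=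
  Finset.sum_pos (fun σ _ => c1_Wt_pos hg h σ) ⟨fun _ => true, Finset.mem_univ _⟩

theorem c1_av_add (g : (U → Bool) → ℝ) (h : U → ℝ) (f f' : (U → Bool) → ℝ) :
    av g h (fun σ => f σ + f' σ) = av g h f + av g h f' := by
  unfold av
  rw [← add_div, ← Finset.sum_add_distrib]
  simp only [mul_add]

theorem c1_av_sub (g : (U → Bool) → ℝ) (h : U → ℝ) (f f' : (U → Bool) → ℝ) :
    av g h (fun σ => f σ - f' σ) = av g h f - av g h f' := by
  unfold av
  rw [← sub_div, ← Finset.sum_sub_distrib]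
  simp only [mul_sub]

theorem c1_av_smul (g : (U → Bool) → ℝ) (h : U → ℝ) (c : ℝ) (f : (U → Bool) → ℝ) :
    av g h (fun σ => c * f σ) = c * av g h f := by
  unfold av
  rw [mul_div_assoc', Finset.mul_sum]
  congr 1
  exact Finset.sum_congr rfl (fun σ _ => by ring)

theorem c1_av_sum {κ : Type} (s : Finset κ) (g : (U → Bool) → ℝ) (h : U → ℝ)
    (F : κ → (U → Bool) → ℝ) :
    av g h (fun σ => ∑ j ∈ s, F j σ) = ∑ j ∈ s, av g h (F j) := by
  unfold av
  rw [← Finset.sum_div]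
  congr 1
  rw [Finset.sum_comm]
  exact Finset.sum_congr rfl (fun σ _ => by rw [Finset.mul_sum])

theorem c1_av_const {g : (U → Bool) → ℝ} (hg : ∀ σ, 0 < g σ) (h : U → ℝ) (c : ℝ) :
    av g h (fun _ => c) = c := by
  unfold av
  rw [← Finset.sum_mul]
  change Zf g h * c / Zf g h = c
  rw [mul_div_cancel_left₀ _ (c1_Zf_pos hg h).ne']

theorem c1_av_mono {g : (U → Bool) → ℝ} (hg : ∀ σ, 0 < g σ) (h : U → ℝ)
    (f f' : (U → Bool) → ℝ) (hf : ∀ σ, f σ ≤ f' σ) : av g h f ≤ av g h f' := by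
  unfold av
  apply div_le_div_of_nonneg_right _ (c1_Zf_pos hg h).le
  exact Finset.sum_le_sum (fun σ _ => mul_le_mul_of_nonneg_left (hf σ) (c1_Wt_pos hg h σ).le)

theorem c1_av_abs {g : (U → Bool) → ℝ} (hg : ∀ σ, 0 < g σ) (h : U → ℝ)
    (f : (U → Bool) → ℝ) (M : ℝ) (hf : ∀ σ, |f σ| ≤ M) : |av g h f| ≤ M := by
  rw [abs_le]
  constructor
  · have h1 := c1_av_mono hg h (fun _ => -M) f (fun σ => (abs_le.1 (hf σ)).1)
    rwa [c1_av_const hg] at h1
  · have h1 := c1_av_mono hg h f (fun _ => M) (fun σ => (abs_le.1 (hf σ)).2)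
    rwa [c1_av_const hg] at h1

/-! ### exponentials -/

theorem c1_exp1 (x c : ℝ) (hx : |x| ≤ c) : |Real.exp x - 1| ≤ |x| * Real.exp c := by
  have h := Complex.norm_exp_sub_sum_le_norm_mul_exp (x : ℂ) 1
  simp only [Finset.range_one, Finset.sum_singleton, pow_zero, Nat.factorial_zero, Nat.cast_one,
    div_one, pow_one, Complex.norm_real, Real.norm_eq_abs] at h
  rw [← Complex.ofReal_exp, ← Complex.ofReal_one, ← Complex.ofReal_sub, Complex.norm_real,
    Real.norm_eq_abs] at h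
  exact h.trans (mul_le_mul_of_nonneg_left (Real.exp_le_exp.2 hx) (abs_nonneg x))

theorem c1_exp2 (x c : ℝ) (hx : |x| ≤ c) : |Real.exp x - 1 - x| ≤ x ^ 2 * Real.exp c := by
  have h := Complex.norm_exp_sub_sum_le_norm_mul_exp (x : ℂ) 2
  have h1 : ∑ m ∈ Finset.range 2, (x : ℂ) ^ m / (m.factorial : ℂ) = ((1 + x : ℝ) : ℂ) := by
    simp [Finset.sum_range_succ]
  rw [h1, ← Complex.ofReal_exp, ← Complex.ofReal_sub, Complex.norm_real, Complex.norm_real,
    Real.norm_eq_abs, Real.norm_eq_abs, sq_abs] at h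
  have h2 : Real.exp x - 1 - x = Real.exp x - (1 + x) := by ring
  rw [h2]
  exact h.trans (mul_le_mul_of_nonneg_left (Real.exp_le_exp.2 hx) (sq_nonneg x))

/-- the constant of the Taylor estimate -/
noncomputable def c1_K (c : ℝ) : ℝ :=
  Real.exp c * (c ^ 2 * Real.exp c + 2 * c ^ 2 + c ^ 2 * Real.exp c * (1 + 2 * c))

theorem c1_K_nonneg (c : ℝ) (hc : 0 ≤ c) : 0 ≤ c1_K c := by
  unfold c1_K
  positivity

theorem c1_cov_abs {g : (U → Bool) → ℝ} (hg : ∀ σ, 0 < g σ) (h : U → ℝ)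
    (x y : (U → Bool) → ℝ) (c A : ℝ) (hc : 0 ≤ c) (hA : 0 ≤ A) (hx : ∀ σ, |x σ| ≤ c)
    (hy : ∀ σ, |y σ| ≤ A) :
    |av g h (fun σ => x σ * y σ) - av g h x * av g h y| ≤ 2 * c * A := by
  have h1 := c1_av_abs hg h (fun σ => x σ * y σ) (c * A) (fun σ => by
    rw [abs_mul]
    exact mul_le_mul (hx σ) (hy σ) (abs_nonneg _) hc)
  have h2 := c1_av_abs hg h x c hx
  have h3 := c1_av_abs hg h y A hy
  have h4 : |av g h x * av g h y| ≤ c * A := by
    rw [abs_mul]
    exact mul_le_mul h2 h3 (abs_nonneg _) hc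
  calc |av g h (fun σ => x σ * y σ) - av g h x * av g h y|
      ≤ |av g h (fun σ => x σ * y σ)| + |av g h x * av g h y| := abs_sub _ _
    _ ≤ 2 * c * A := by linarith

theorem c1_D {g : (U → Bool) → ℝ} (hg : ∀ σ, 0 < g σ) (h : U → ℝ)
    (x : (U → Bool) → ℝ) (c s : ℝ) (hc : 0 ≤ c) (hx : ∀ σ, |x σ| ≤ c)
    (hs0 : 0 ≤ s) (hs1 : s ≤ 1) :
    Real.exp (-c) ≤ av g h (fun σ => Real.exp (s * x σ)) ∧
    |av g h (fun σ => Real.exp (s * x σ)) - 1| ≤ s * (c * Real.exp c) := by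
  have hsx : ∀ σ, |s * x σ| ≤ c := by
    intro σ
    rw [abs_mul, abs_of_nonneg hs0]
    calc s * |x σ| ≤ 1 * c := mul_le_mul hs1 (hx σ) (abs_nonneg _) (by norm_num)
      _ = c := one_mul c
  constructor
  · have h1 := c1_av_mono hg h (fun _ => Real.exp (-c)) (fun σ => Real.exp (s * x σ))
      (fun σ => Real.exp_le_exp.2 (abs_le.1 (hsx σ)).1)
    rwa [c1_av_const hg] at h1
  · have h1 : av g h (fun σ => Real.exp (s * x σ)) - 1 =
        av g h (fun σ => Real.exp (s * x σ) - 1) := by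
      rw [c1_av_sub, c1_av_const hg]
    rw [h1]
    apply c1_av_abs hg
    intro σ
    refine (c1_exp1 _ c (hsx σ)).trans ?_
    rw [abs_mul, abs_of_nonneg hs0, mul_assoc]
    exact mul_le_mul_of_nonneg_left (mul_le_mul_of_nonneg_right (hx σ) (Real.exp_pos c).le) hs0

theorem c1_taylor {g : (U → Bool) → ℝ} (hg : ∀ σ, 0 < g σ) (h : U → ℝ)
    (x y : (U → Bool) → ℝ) (c A s : ℝ) (hc : 0 ≤ c) (hA : 0 ≤ A) (hx : ∀ σ, |x σ| ≤ c)
    (hy : ∀ σ, |y σ| ≤ A) (hs0 : 0 ≤ s) (hs1 : s ≤ 1) :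
    |av g h (fun σ => Real.exp (s * x σ) * y σ) / av g h (fun σ => Real.exp (s * x σ))
      - av g h y - s * (av g h (fun σ => x σ * y σ) - av g h x * av g h y)|
      ≤ s ^ 2 * A * c1_K c := by
  set D := av g h (fun σ => Real.exp (s * x σ)) with hD
  obtain ⟨hD1, -⟩ := c1_D hg h x c s hc hx hs0 hs1
  rw [← hD] at hD1
  have hD0 : 0 < D := lt_of_lt_of_le (Real.exp_pos _) hD1
  set r : (U → Bool) → ℝ := fun σ => Real.exp (s * x σ) - 1 - s * x σ with hr
  set Cv := av g h (fun σ => x σ * y σ) - av g h x * av g h y with hCv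
  have hsx : ∀ σ, |s * x σ| ≤ c := by
    intro σ
    rw [abs_mul, abs_of_nonneg hs0]
    calc s * |x σ| ≤ 1 * c := mul_le_mul hs1 (hx σ) (abs_nonneg _) (by norm_num)
      _ = c := one_mul c
  set K := c ^ 2 * Real.exp c with hK
  have hK0 : 0 ≤ K := by positivity
  have hrb : ∀ σ, |r σ| ≤ s ^ 2 * K := by
    intro σ
    refine (c1_exp2 _ c (hsx σ)).trans ?_
    rw [mul_pow, mul_assoc, hK]
    have : x σ ^ 2 ≤ c ^ 2 := by
      rw [← sq_abs]
      exact pow_le_pow_left₀ (abs_nonneg _) (hx σ) 2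
    exact mul_le_mul_of_nonneg_left (mul_le_mul_of_nonneg_right this (Real.exp_pos c).le)
      (sq_nonneg s)
  have hDe : D = 1 + s * av g h x + av g h r := by
    have h1 : (fun σ => Real.exp (s * x σ)) = fun σ => (1 + s * x σ) + r σ := by
      funext σ
      rw [hr]
      ring
    rw [hD, h1, c1_av_add, c1_av_add, c1_av_const hg, c1_av_smul]
  have hNe : av g h (fun σ => Real.exp (s * x σ) * y σ) =
      av g h y + s * av g h (fun σ => x σ * y σ) + av g h (fun σ => r σ * y σ) := by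
    have h1 : (fun σ => Real.exp (s * x σ) * y σ) =
        fun σ => (y σ + s * (x σ * y σ)) + r σ * y σ := by
      funext σ
      rw [hr]
      ring
    rw [h1, c1_av_add, c1_av_add, c1_av_smul]
  have hEx := c1_av_abs hg h x c hx
  have hEy := c1_av_abs hg h y A hy
  have hEr := c1_av_abs hg h r _ hrb
  have hEry := c1_av_abs hg h (fun σ => r σ * y σ) (s ^ 2 * K * A) (fun σ => by
    rw [abs_mul]
    exact mul_le_mul (hrb σ) (hy σ) (abs_nonneg _) (by positivity))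
  have hCb : |Cv| ≤ 2 * c * A := c1_cov_abs hg h x y c A hc hA hx hy
  have hmain : av g h (fun σ => Real.exp (s * x σ) * y σ) / D - av g h y - s * Cv =
      (av g h (fun σ => r σ * y σ) - s ^ 2 * (av g h x * Cv) - av g h r * (av g h y + s * Cv)) / D
      := by
    have h1 : av g h (fun σ => x σ * y σ) = Cv + av g h x * av g h y := by
      rw [hCv]; ring
    rw [hNe, h1]
    field_simp
    rw [hDe]
    ring
  rw [hmain, abs_div, abs_of_pos hD0, div_le_iff₀ hD0]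
  have hb1 : |av g h x * Cv| ≤ c * (2 * c * A) := by
    rw [abs_mul]
    exact mul_le_mul hEx hCb (abs_nonneg _) hc
  have hb2 : |av g h r * (av g h y + s * Cv)| ≤ s ^ 2 * K * (A + 2 * c * A) := by
    rw [abs_mul]
    apply mul_le_mul hEr _ (abs_nonneg _) (by positivity)
    refine (abs_add_le _ _).trans (add_le_add hEy ?_)
    rw [abs_mul, abs_of_nonneg hs0]
    calc s * |Cv| ≤ 1 * (2 * c * A) := mul_le_mul hs1 hCb (abs_nonneg _) (by norm_num)
      _ = 2 * c * A := one_mul _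
  have hb3 : |av g h (fun σ => r σ * y σ) - s ^ 2 * (av g h x * Cv) -
      av g h r * (av g h y + s * Cv)| ≤
      s ^ 2 * K * A + s ^ 2 * (c * (2 * c * A)) + s ^ 2 * K * (A + 2 * c * A) := by
    refine (abs_sub _ _).trans (add_le_add ((abs_sub _ _).trans (add_le_add hEry ?_)) hb2)
    rw [abs_mul, abs_of_nonneg (sq_nonneg s)]
    exact mul_le_mul_of_nonneg_left hb1 (sq_nonneg s)
  refine hb3.trans ?_
  have hKc : c1_K c = Real.exp c * (K + 2 * c ^ 2 + K * (1 + 2 * c)) := rfl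
  have he : 1 ≤ Real.exp c * D := by
    calc (1 : ℝ) = Real.exp c * Real.exp (-c) := by rw [← Real.exp_add]; simp
      _ ≤ Real.exp c * D := mul_le_mul_of_nonneg_left hD1 (Real.exp_pos c).le
  have h5 : 0 ≤ s ^ 2 * A * (K + 2 * c ^ 2 + K * (1 + 2 * c)) := by positivity
  calc s ^ 2 * K * A + s ^ 2 * (c * (2 * c * A)) + s ^ 2 * K * (A + 2 * c * A)
      = s ^ 2 * A * (K + 2 * c ^ 2 + K * (1 + 2 * c)) * 1 := by ring
    _ ≤ s ^ 2 * A * (K + 2 * c ^ 2 + K * (1 + 2 * c)) * (Real.exp c * D) :=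
        mul_le_mul_of_nonneg_left he h5
    _ = s ^ 2 * A * c1_K c * D := by rw [hKc]; ring

/-! ### linear functions and covariances -/

theorem c1_lin_abs (a : U → ℝ) (σ : U → Bool) : |lin a σ| ≤ ∑ y, |a y| := by
  unfold lin
  refine (Finset.abs_sum_le_sum_abs _ _).trans (Finset.sum_le_sum (fun y _ => ?_))
  rw [abs_mul]
  have : |sg (σ y)| = 1 := by cases σ y <;> simp [sg]
  rw [this, mul_one]

theorem c1_lin_sum {κ : Type} (s : Finset κ) (c : κ → ℝ) (b : κ → U → ℝ) (σ : U → Bool) :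
    lin (fun y => ∑ j ∈ s, c j * b j y) σ = ∑ j ∈ s, c j * lin (b j) σ := by
  unfold lin
  simp only [Finset.sum_mul, Finset.mul_sum]
  rw [Finset.sum_comm]
  exact Finset.sum_congr rfl (fun j _ => Finset.sum_congr rfl (fun y _ => by ring))

theorem c1_cv_sum {κ : Type} (s : Finset κ) (g : (U → Bool) → ℝ) (h a : U → ℝ) (c : κ → ℝ)
    (b : κ → U → ℝ) :
    cv g h a (fun y => ∑ j ∈ s, c j * b j y) = ∑ j ∈ s, c j * cv g h a (b j) := by
  unfold cv
  have h1 : (fun σ => lin a σ * lin (fun y => ∑ j ∈ s, c j * b j y) σ) =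
      fun σ => ∑ j ∈ s, c j * (lin a σ * lin (b j) σ) := by
    funext σ
    rw [c1_lin_sum, Finset.mul_sum]
    exact Finset.sum_congr rfl (fun j _ => by ring)
  have h2 : lin (fun y => ∑ j ∈ s, c j * b j y) = fun σ => ∑ j ∈ s, c j * lin (b j) σ := by
    funext σ
    exact c1_lin_sum s c b σ
  rw [h1, h2, c1_av_sum, c1_av_sum]
  simp only [c1_av_smul]
  rw [Finset.mul_sum, ← Finset.sum_sub_distrib]
  exact Finset.sum_congr rfl (fun j _ => by ring)

theorem c1_cv_comm (g : (U → Bool) → ℝ) (h a b : U → ℝ) : cv g h a b = cv g h b a := by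
  unfold cv
  rw [mul_comm (av g h (lin a))]
  simp only [mul_comm]

/-- the linear form `cv g h a` in coordinates -/
theorem c1_cv_coord (g : (U → Bool) → ℝ) (h a b : U → ℝ) :
    cv g h a b = ∑ y, b y * cv g h a (Pi.single y 1) := by
  rw [← c1_cv_sum]
  congr 1
  funext z
  rw [Finset.sum_eq_single z]
  · simp
  · intro y _ hy
    rw [Pi.single_eq_of_ne (Ne.symm hy), mul_zero]
  · intro h; exact absurd (Finset.mem_univ _) h

theorem c1_nrmI_nonneg (w a : U → ℝ) : 0 ≤ nrmI w a := Real.sqrt_nonneg _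

theorem c1_nrmW_nonneg (w a : U → ℝ) : 0 ≤ nrmW w a := Real.sqrt_nonneg _

theorem c1_dualI {g : (U → Bool) → ℝ} (w : U → ℝ) (hw : ∀ y, 0 < w y) (q : ℝ) (hq : 1 ≤ q)
    (hc : CovLe g w q) (h a : U → ℝ) :
    nrmI w (fun y => cv g h a (Pi.single y 1)) ≤ q * nrmI w a := by
  set α : U → ℝ := fun y => cv g h a (Pi.single y 1) with hα
  have h1 : cv g h a (fun y => α y / w y ^ 2) = nrmI w α ^ 2 := by
    rw [c1_cv_coord, nrmI, Real.sq_sqrt (Finset.sum_nonneg (fun y _ => sq_nonneg _))]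
    apply Finset.sum_congr rfl
    intro y _
    have := (hw y).ne'
    rw [div_pow, sq (α y), mul_div_assoc, mul_comm]
  have h2 : nrmW w (fun y => α y / w y ^ 2) = nrmI w α := by
    unfold nrmW nrmI
    congr 1
    apply Finset.sum_congr rfl
    intro y _
    have := (hw y).ne'
    field_simp
  have h3 := hc h a (fun y => α y / w y ^ 2)
  rw [h1, h2, abs_of_nonneg (sq_nonneg _), sq] at h3
  have h4 := c1_nrmI_nonneg w α
  rcases h4.eq_or_lt with h5 | h5
  · rw [← h5]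
    have := c1_nrmI_nonneg w a
    positivity
  · exact le_of_mul_le_mul_right h3 h5

theorem c1_dualW {g : (U → Bool) → ℝ} (w : U → ℝ) (hw : ∀ y, 0 < w y) (q : ℝ) (hq : 1 ≤ q)
    (hc : CovLe g w q) (h b : U → ℝ) :
    nrmW w (fun y => cv g h b (Pi.single y 1)) ≤ q * nrmW w b := by
  set γ : U → ℝ := fun y => cv g h b (Pi.single y 1) with hγ
  have h1 : cv g h (fun y => γ y * w y ^ 2) b = nrmW w γ ^ 2 := by
    rw [c1_cv_comm, c1_cv_coord, nrmW, Real.sq_sqrt (Finset.sum_nonneg (fun y _ => sq_nonneg _))]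
    apply Finset.sum_congr rfl
    intro y _
    change γ y * w y ^ 2 * γ y = _
    ring
  have h2 : nrmI w (fun y => γ y * w y ^ 2) = nrmW w γ := by
    unfold nrmW nrmI
    congr 1
    apply Finset.sum_congr rfl
    intro y _
    have := (hw y).ne'
    field_simp
  have h3 := hc h (fun y => γ y * w y ^ 2) b
  rw [h1, h2, abs_of_nonneg (sq_nonneg _), sq] at h3
  have h4 := c1_nrmW_nonneg w γ
  rcases h4.eq_or_lt with h5 | h5
  · rw [← h5]
    have := c1_nrmW_nonneg w b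
    positivity
  · have h6 : nrmW w γ * nrmW w γ ≤ (q * nrmW w b) * nrmW w γ := by linarith
    exact le_of_mul_le_mul_right h6 h5

theorem c1_A_le (w : U → ℝ) (hw : ∀ y, 0 < w y) (a : U → ℝ) :
    ∑ y, |a y| ≤ (∑ y, w y) * nrmI w a := by
  rw [Finset.sum_mul]
  apply Finset.sum_le_sum
  intro y _
  have h1 : |a y| / w y ≤ nrmI w a := by
    unfold nrmI
    apply Real.le_sqrt_of_sq_le
    rw [div_pow, sq_abs, ← div_pow]
    exact Finset.single_le_sum (f := fun y => (a y / w y) ^ 2) (fun y _ => sq_nonneg _)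
      (Finset.mem_univ y)
  rw [div_le_iff₀ (hw y)] at h1
  linarith

theorem c1_B_le (w : U → ℝ) (hw : ∀ y, 0 < w y) (b : U → ℝ) :
    ∑ y, |b y| ≤ (∑ y, (w y)⁻¹) * nrmW w b := by
  rw [Finset.sum_mul]
  apply Finset.sum_le_sum
  intro y _
  have h1 : |b y| * w y ≤ nrmW w b := by
    unfold nrmW
    apply Real.le_sqrt_of_sq_le
    rw [mul_pow, sq_abs, ← mul_pow]
    exact Finset.single_le_sum (f := fun y => (b y * w y) ^ 2) (fun y _ => sq_nonneg _)
      (Finset.mem_univ y)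
  have h2 : |b y| ≤ nrmW w b / w y := (le_div_iff₀ (hw y)).2 h1
  rw [div_eq_inv_mul] at h2
  exact h2

/-! ### signs -/

section signs
variable {ι : Type} [Fintype ι] [DecidableEq ι]

/-- flip one sign -/
def c1_flip (i : ι) : Equiv.Perm (ι → Bool) :=
  Function.Involutive.toPerm (fun ε => Function.update ε i (!ε i)) (by
    intro ε
    funext j
    by_cases h : j = i
    · subst h; simp
    · simp [Function.update_of_ne h])

theorem c1_sum_flip (i : ι) (f : (ι → Bool) → ℝ) (hf : ∀ ε, f (c1_flip i ε) = - f ε) :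
    ∑ ε, f ε = 0 := by
  have h1 := Equiv.sum_comp (c1_flip i) f
  simp only [hf, Finset.sum_neg_distrib] at h1
  linarith

theorem c1_sg_flip (i : ι) (ε : ι → Bool) : sg (c1_flip i ε i) = - sg (ε i) := by
  change sg (Function.update ε i (!ε i) i) = _
  rw [Function.update_self]
  cases ε i <;> simp [sg]

theorem c1_sg_flip_ne (i j : ι) (hj : j ≠ i) (ε : ι → Bool) : sg (c1_flip i ε j) = sg (ε j) := by
  change sg (Function.update ε i (!ε i) j) = _
  rw [Function.update_of_ne hj]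

theorem c1_sum_sg (i : ι) : ∑ ε : ι → Bool, sg (ε i) = 0 :=
  c1_sum_flip i _ (fun ε => c1_sg_flip i ε)

theorem c1_sum_lin (x : ι → ℝ) : ∑ ε : ι → Bool, ∑ j, sg (ε j) * x j = 0 := by
  rw [Finset.sum_comm]
  apply Finset.sum_eq_zero
  intro j _
  rw [← Finset.sum_mul, c1_sum_sg, zero_mul]

theorem c1_sum_sg_sg (i j : ι) :
    ∑ ε : ι → Bool, sg (ε i) * sg (ε j) = if i = j then (Fintype.card (ι → Bool) : ℝ) else 0 := by
  split_ifs with h
  · subst h
    have : ∀ ε : ι → Bool, sg (ε i) * sg (ε i) = 1 := by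
      intro ε
      cases ε i <;> simp [sg]
    simp only [this, Finset.sum_const, nsmul_eq_mul, mul_one]
    rfl
  · apply c1_sum_flip i
    intro ε
    rw [c1_sg_flip, c1_sg_flip_ne i j (fun h' => h h'.symm)]
    ring

theorem c1_sum_quad (x y : ι → ℝ) :
    ∑ ε : ι → Bool, (∑ i, sg (ε i) * x i) * (∑ j, sg (ε j) * y j) =
      Fintype.card (ι → Bool) * ∑ i, x i * y i := by
  have h1 : ∀ ε : ι → Bool, (∑ i, sg (ε i) * x i) * (∑ j, sg (ε j) * y j) =
      ∑ i, ∑ j, (x i * y j) * (sg (ε i) * sg (ε j)) := by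
    intro ε
    rw [Finset.sum_mul_sum]
    exact Finset.sum_congr rfl (fun i _ => Finset.sum_congr rfl (fun j _ => by ring))
  simp only [h1]
  rw [Finset.sum_comm, Finset.mul_sum]
  apply Finset.sum_congr rfl
  intro i _
  rw [Finset.sum_comm]
  simp only [← Finset.mul_sum, c1_sum_sg_sg]
  rw [Finset.sum_eq_single i]
  · rw [if_pos rfl]; ring
  · intro j _ hj
    rw [if_neg (fun h => hj h.symm), mul_zero]
  · intro h; exact absurd (Finset.mem_univ _) h

theorem c1_exp_prod (s : ℝ) (L : ι → ℝ) :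
    ∑ ε : ι → Bool, Real.exp (s * ∑ j, sg (ε j) * L j) =
      2 ^ (Fintype.card ι) * ∏ j, Real.cosh (s * L j) := by
  have h1 : ∀ j, Real.cosh (s * L j) * 2 = ∑ b : Bool, Real.exp (s * (sg b * L j)) := by
    intro j
    rw [Fintype.sum_bool, Real.cosh_eq]
    simp only [sg]
    simp
  have h2 : (2 : ℝ) ^ (Fintype.card ι) * ∏ j, Real.cosh (s * L j) =
      ∏ j, ∑ b : Bool, Real.exp (s * (sg b * L j)) := by
    simp only [← h1]
    rw [Finset.prod_mul_distrib, Finset.prod_const, Finset.card_univ, mul_comm]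
  rw [h2, Finset.prod_univ_sum, Fintype.piFinset_univ]
  apply Finset.sum_congr rfl
  intro ε _
  rw [Finset.mul_sum, Real.exp_sum]

/-! ### mixtures -/

/-- the field of a sign vector -/
noncomputable def c1_xi (v : ι → U → ℝ) (ε : ι → Bool) : U → ℝ := fun y => ∑ j, sg (ε j) * v j y

theorem c1_lin_xi (v : ι → U → ℝ) (ε : ι → Bool) (σ : U → Bool) :
    lin (c1_xi v ε) σ = ∑ j, sg (ε j) * lin (v j) σ := c1_lin_sum _ _ _ _

theorem c1_Wt_tilt (g : (U → Bool) → ℝ) (h ξ : U → ℝ) (s : ℝ) (σ : U → Bool) :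
    Wt g (fun y => h y + s * ξ y) σ = Wt g h σ * Real.exp (s * lin ξ σ) := by
  unfold Wt lin
  rw [mul_assoc, ← Real.exp_add, Finset.mul_sum, ← Finset.sum_add_distrib]
  congr 2
  exact Finset.sum_congr rfl (fun y _ => by ring)

theorem c1_tilt {g : (U → Bool) → ℝ} (hg : ∀ σ, 0 < g σ) (h ξ : U → ℝ) (s : ℝ)
    (f : (U → Bool) → ℝ) :
    av g (fun y => h y + s * ξ y) f =
      av g h (fun σ => Real.exp (s * lin ξ σ) * f σ) /
        av g h (fun σ => Real.exp (s * lin ξ σ)) := by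
  unfold av
  rw [div_div_div_cancel_right₀ (c1_Zf_pos hg h).ne']
  unfold Zf
  simp only [c1_Wt_tilt, mul_assoc]

/-- the weights of the mixture -/
noncomputable def c1_Dw (g : (U → Bool) → ℝ) (h : U → ℝ) (v : ι → U → ℝ) (s : ℝ)
    (ε : ι → Bool) : ℝ := av g h (fun σ => Real.exp (s * lin (c1_xi v ε) σ))

theorem c1_Dw_pos {g : (U → Bool) → ℝ} (hg : ∀ σ, 0 < g σ) (h : U → ℝ) (v : ι → U → ℝ) (s : ℝ)
    (ε : ι → Bool) : 0 < c1_Dw g h v s ε := by
  unfold c1_Dw av
  apply div_pos _ (c1_Zf_pos hg h)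
  exact Finset.sum_pos (fun σ _ => mul_pos (c1_Wt_pos hg h σ) (Real.exp_pos _))
    ⟨fun _ => true, Finset.mem_univ _⟩

theorem c1_mix {g : (U → Bool) → ℝ} (hg : ∀ σ, 0 < g σ) (h : U → ℝ) (v : ι → U → ℝ) (s : ℝ)
    (f : (U → Bool) → ℝ) :
    av (fun σ => g σ * ∏ j, Real.cosh (s * lin (v j) σ)) h f =
      ∑ ε, (c1_Dw g h v s ε / ∑ ε', c1_Dw g h v s ε') *
        av g (fun y => h y + s * c1_xi v ε y) f := by
  have hZ := c1_Zf_pos hg h
  have hn : (0 : ℝ) < 2 ^ (Fintype.card ι) := by positivity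
  have key : ∀ f : (U → Bool) → ℝ,
      2 ^ (Fintype.card ι) * ∑ σ, Wt (fun σ => g σ * ∏ j, Real.cosh (s * lin (v j) σ)) h σ * f σ =
      Zf g h * ∑ ε, av g h (fun σ => Real.exp (s * lin (c1_xi v ε) σ) * f σ) := by
    intro f
    have h1 : ∀ σ, 2 ^ (Fintype.card ι) *
        (Wt (fun σ => g σ * ∏ j, Real.cosh (s * lin (v j) σ)) h σ * f σ) =
        ∑ ε, Wt g h σ * (Real.exp (s * lin (c1_xi v ε) σ) * f σ) := by
      intro σ
      have h2 := c1_exp_prod s (fun j => lin (v j) σ)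
      simp only [c1_lin_xi]
      rw [← Finset.mul_sum, ← Finset.sum_mul, h2]
      unfold Wt
      ring
    rw [Finset.mul_sum]
    simp only [h1]
    rw [Finset.sum_comm, Finset.mul_sum]
    apply Finset.sum_congr rfl
    intro ε _
    unfold av
    rw [mul_div_cancel₀ _ hZ.ne']
  have hden : 2 ^ (Fintype.card ι) * Zf (fun σ => g σ * ∏ j, Real.cosh (s * lin (v j) σ)) h =
      Zf g h * ∑ ε, c1_Dw g h v s ε := by
    have h1 := key (fun _ => 1)
    simp only [mul_one] at h1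
    exact h1
  have hnum := key f
  have h3 : av (fun σ => g σ * ∏ j, Real.cosh (s * lin (v j) σ)) h f =
      (∑ ε, av g h (fun σ => Real.exp (s * lin (c1_xi v ε) σ) * f σ)) /
        ∑ ε, c1_Dw g h v s ε := by
    have h4 : av (fun σ => g σ * ∏ j, Real.cosh (s * lin (v j) σ)) h f =
        (2 ^ (Fintype.card ι) *
          ∑ σ, Wt (fun σ => g σ * ∏ j, Real.cosh (s * lin (v j) σ)) h σ * f σ) /
        (2 ^ (Fintype.card ι) *
          Zf (fun σ => g σ * ∏ j, Real.cosh (s * lin (v j) σ)) h) := by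
      rw [mul_div_mul_left _ _ hn.ne']
      rfl
    rw [h4, hnum, hden, mul_div_mul_left _ _ hZ.ne']
  rw [h3, Finset.sum_div]
  apply Finset.sum_congr rfl
  intro ε _
  rw [c1_tilt hg]
  change _ = (c1_Dw g h v s ε / ∑ ε', c1_Dw g h v s ε') * (_ / c1_Dw g h v s ε)
  have := (c1_Dw_pos hg h v s ε).ne'
  field_simp

end signs

/-! ### an abstract covariance estimate -/

theorem c1_wsum {T : Type} [Fintype T] (p f : T → ℝ) (hp : ∀ t, 0 ≤ p t) (hp1 : ∑ t, p t = 1)
    (M : ℝ) (hf : ∀ t, |f t| ≤ M) : |∑ t, p t * f t| ≤ M := by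
  calc |∑ t, p t * f t| ≤ ∑ t, |p t * f t| := Finset.abs_sum_le_sum_abs _ _
    _ ≤ ∑ t, p t * M := Finset.sum_le_sum (fun t _ => by
        rw [abs_mul, abs_of_nonneg (hp t)]
        exact mul_le_mul_of_nonneg_left (hf t) (hp t))
    _ = M := by rw [← Finset.sum_mul, hp1, one_mul]

theorem c1_wdiff {T : Type} [Fintype T] (p f : T → ℝ) (u δ M : ℝ) (hM : 0 ≤ M)
    (hu : ∑ t, |p t - u| ≤ δ) (hf : ∀ t, |f t| ≤ M) : |∑ t, (p t - u) * f t| ≤ δ * M := by
  calc |∑ t, (p t - u) * f t| ≤ ∑ t, |(p t - u) * f t| := Finset.abs_sum_le_sum_abs _ _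
    _ ≤ ∑ t, |p t - u| * M := Finset.sum_le_sum (fun t _ => by
        rw [abs_mul]
        exact mul_le_mul_of_nonneg_left (hf t) (abs_nonneg _))
    _ = (∑ t, |p t - u|) * M := by rw [← Finset.sum_mul]
    _ ≤ δ * M := mul_le_mul_of_nonneg_right hu hM

theorem c1_covT {T : Type} [Fintype T] (p : T → ℝ) (hp : ∀ t, 0 ≤ p t) (hp1 : ∑ t, p t = 1)
    (u K A B s M M' : ℝ) (hu : ∑ t, |p t - u| ≤ K * s) (hK : 0 ≤ K) (hA : 0 ≤ A) (hB : 0 ≤ B)
    (hs0 : 0 ≤ s) (hs1 : s ≤ 1) (X Y α β : T → ℝ) (hα : ∀ t, |α t| ≤ K * A)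
    (hβ : ∀ t, |β t| ≤ K * B) (hX : ∀ t, |X t - M - s * α t| ≤ K * s ^ 2 * A)
    (hY : ∀ t, |Y t - M' - s * β t| ≤ K * s ^ 2 * B)
    (hα0 : ∑ t, α t = 0) (hβ0 : ∑ t, β t = 0) :
    |(∑ t, p t * (X t * Y t)) - (∑ t, p t * X t) * (∑ t, p t * Y t)
      - s ^ 2 * (u * ∑ t, α t * β t)| ≤
      (K ^ 3 + 3 * K ^ 2 + (K ^ 2 + K) ^ 2) * s ^ 3 * (A * B) := by
  set R : T → ℝ := fun t => X t - M - s * α t with hR
  set R' : T → ℝ := fun t => Y t - M' - s * β t with hR'
  have hXe : ∀ t, X t = M + s * α t + R t := fun t => by rw [hR]; ring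
  have hYe : ∀ t, Y t = M' + s * β t + R' t := fun t => by rw [hR']; ring
  set e1 := ∑ t, (p t - u) * (α t * β t) with he1
  set e2 := ∑ t, p t * (α t * R' t) with he2
  set e3 := ∑ t, p t * (R t * β t) with he3
  set e4 := ∑ t, p t * (R t * R' t) with he4
  set e5 := ∑ t, p t * α t with he5
  set e6 := ∑ t, p t * β t with he6
  set e7 := ∑ t, p t * R t with he7
  set e8 := ∑ t, p t * R' t with he8
  have hs2 : 0 ≤ s ^ 2 := sq_nonneg s
  have hKs : 0 ≤ K * s := mul_nonneg hK hs0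
  have b1 : |e1| ≤ K * s * (K * A * (K * B)) := c1_wdiff p _ u _ _ (by positivity) hu
    (fun t => by
      rw [abs_mul]
      exact mul_le_mul (hα t) (hβ t) (abs_nonneg _) (by positivity))
  have b2 : |e2| ≤ K * A * (K * s ^ 2 * B) := c1_wsum p _ hp hp1 _ (fun t => by
      rw [abs_mul]
      exact mul_le_mul (hα t) (hY t) (abs_nonneg _) (by positivity))
  have b3 : |e3| ≤ K * s ^ 2 * A * (K * B) := c1_wsum p _ hp hp1 _ (fun t => by
      rw [abs_mul]
      exact mul_le_mul (hX t) (hβ t) (abs_nonneg _) (by positivity))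
  have b4 : |e4| ≤ K * s ^ 2 * A * (K * s ^ 2 * B) := c1_wsum p _ hp hp1 _ (fun t => by
      rw [abs_mul]
      exact mul_le_mul (hX t) (hY t) (abs_nonneg _) (by positivity))
  have b5 : |e5| ≤ K * s * (K * A) := by
    have h1 : e5 = ∑ t, (p t - u) * α t := by
      simp only [sub_mul]
      rw [Finset.sum_sub_distrib, ← Finset.mul_sum, hα0, mul_zero, sub_zero]
    rw [h1]
    exact c1_wdiff p _ u _ _ (by positivity) hu hα
  have b6 : |e6| ≤ K * s * (K * B) := by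
    have h1 : e6 = ∑ t, (p t - u) * β t := by
      simp only [sub_mul]
      rw [Finset.sum_sub_distrib, ← Finset.mul_sum, hβ0, mul_zero, sub_zero]
    rw [h1]
    exact c1_wdiff p _ u _ _ (by positivity) hu hβ
  have b7 : |e7| ≤ K * s ^ 2 * A := c1_wsum p _ hp hp1 _ hX
  have b8 : |e8| ≤ K * s ^ 2 * B := c1_wsum p _ hp hp1 _ hY
  have h1 : ∑ t, p t * X t = M + s * e5 + e7 := by
    have h2 : ∀ t, p t * X t = p t * M + s * (p t * α t) + p t * R t := by
      intro t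
      rw [hXe t]; ring
    simp only [h2, Finset.sum_add_distrib, ← Finset.mul_sum, ← Finset.sum_mul, hp1, one_mul]
    rfl
  have h1' : ∑ t, p t * Y t = M' + s * e6 + e8 := by
    have h2 : ∀ t, p t * Y t = p t * M' + s * (p t * β t) + p t * R' t := by
      intro t
      rw [hYe t]; ring
    simp only [h2, Finset.sum_add_distrib, ← Finset.mul_sum, ← Finset.sum_mul, hp1, one_mul]
    rfl
  have h3 : ∑ t, p t * (X t * Y t) = M * M' + M * (s * e6 + e8) + M' * (s * e5 + e7) +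
      s ^ 2 * (e1 + u * ∑ t, α t * β t) + s * e2 + s * e3 + e4 := by
    have h2 : ∀ t, p t * (X t * Y t) = p t * (M * M') + (M * s) * (p t * β t) +
        M * (p t * R' t) + (M' * s) * (p t * α t) + M' * (p t * R t) +
        s ^ 2 * ((p t - u) * (α t * β t)) + (s ^ 2 * u) * (α t * β t) +
        s * (p t * (α t * R' t)) + s * (p t * (R t * β t)) + p t * (R t * R' t) := by
      intro t
      rw [hXe t, hYe t]; ring
    simp only [h2, Finset.sum_add_distrib, ← Finset.mul_sum, ← Finset.sum_mul, hp1, one_mul]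
    rw [← he1, ← he2, ← he3, ← he4, ← he5, ← he6, ← he7, ← he8]
    ring
  have h4 : (∑ t, p t * (X t * Y t)) - (∑ t, p t * X t) * (∑ t, p t * Y t)
      - s ^ 2 * (u * ∑ t, α t * β t) =
      s ^ 2 * e1 + s * e2 + s * e3 + e4 - (s * e5 + e7) * (s * e6 + e8) := by
    rw [h1, h1', h3]; ring
  rw [h4]
  have c5 : |s * e5 + e7| ≤ s ^ 2 * ((K ^ 2 + K) * A) := by
    refine (abs_add_le _ _).trans ?_
    rw [abs_mul, abs_of_nonneg hs0]
    calc s * |e5| + |e7| ≤ s * (K * s * (K * A)) + K * s ^ 2 * A :=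
          add_le_add (mul_le_mul_of_nonneg_left b5 hs0) b7
      _ = _ := by ring
  have c6 : |s * e6 + e8| ≤ s ^ 2 * ((K ^ 2 + K) * B) := by
    refine (abs_add_le _ _).trans ?_
    rw [abs_mul, abs_of_nonneg hs0]
    calc s * |e6| + |e8| ≤ s * (K * s * (K * B)) + K * s ^ 2 * B :=
          add_le_add (mul_le_mul_of_nonneg_left b6 hs0) b8
      _ = _ := by ring
  have c7 : |(s * e5 + e7) * (s * e6 + e8)| ≤
      s ^ 2 * ((K ^ 2 + K) * A) * (s ^ 2 * ((K ^ 2 + K) * B)) := by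
    rw [abs_mul]
    exact mul_le_mul c5 c6 (abs_nonneg _) (by positivity)
  have hs43 : s ^ 4 ≤ s ^ 3 := pow_le_pow_of_le_one hs0 hs1 (by norm_num)
  have d1 : |s ^ 2 * e1| ≤ K ^ 3 * s ^ 3 * (A * B) := by
    rw [abs_mul, abs_of_nonneg hs2]
    calc s ^ 2 * |e1| ≤ s ^ 2 * (K * s * (K * A * (K * B))) := mul_le_mul_of_nonneg_left b1 hs2
      _ = _ := by ring
  have d2 : |s * e2| ≤ K ^ 2 * s ^ 3 * (A * B) := by
    rw [abs_mul, abs_of_nonneg hs0]
    calc s * |e2| ≤ s * (K * A * (K * s ^ 2 * B)) := mul_le_mul_of_nonneg_left b2 hs0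
      _ = _ := by ring
  have d3 : |s * e3| ≤ K ^ 2 * s ^ 3 * (A * B) := by
    rw [abs_mul, abs_of_nonneg hs0]
    calc s * |e3| ≤ s * (K * s ^ 2 * A * (K * B)) := mul_le_mul_of_nonneg_left b3 hs0
      _ = _ := by ring
  have hAB : 0 ≤ A * B := mul_nonneg hA hB
  have d4 : |e4| ≤ K ^ 2 * s ^ 3 * (A * B) := by
    calc |e4| ≤ K * s ^ 2 * A * (K * s ^ 2 * B) := b4
      _ = s ^ 4 * (K ^ 2 * (A * B)) := by ring
      _ ≤ s ^ 3 * (K ^ 2 * (A * B)) := mul_le_mul_of_nonneg_right hs43 (by positivity)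
      _ = _ := by ring
  have d5 : |(s * e5 + e7) * (s * e6 + e8)| ≤ (K ^ 2 + K) ^ 2 * s ^ 3 * (A * B) := by
    calc |(s * e5 + e7) * (s * e6 + e8)| ≤ _ := c7
      _ = s ^ 4 * ((K ^ 2 + K) ^ 2 * (A * B)) := by ring
      _ ≤ s ^ 3 * ((K ^ 2 + K) ^ 2 * (A * B)) := mul_le_mul_of_nonneg_right hs43 (by positivity)
      _ = _ := by ring
  calc |s ^ 2 * e1 + s * e2 + s * e3 + e4 - (s * e5 + e7) * (s * e6 + e8)|
      ≤ |s ^ 2 * e1| + |s * e2| + |s * e3| + |e4| + |(s * e5 + e7) * (s * e6 + e8)| := by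
        refine (abs_sub _ _).trans (add_le_add ?_ le_rfl)
        refine (abs_add_le _ _).trans (add_le_add ?_ le_rfl)
        refine (abs_add_le _ _).trans (add_le_add ?_ le_rfl)
        exact abs_add_le _ _
    _ ≤ _ := by
        have : (K ^ 3 + 3 * K ^ 2 + (K ^ 2 + K) ^ 2) * s ^ 3 * (A * B) =
          K ^ 3 * s ^ 3 * (A * B) + K ^ 2 * s ^ 3 * (A * B) + K ^ 2 * s ^ 3 * (A * B) +
          K ^ 2 * s ^ 3 * (A * B) + (K ^ 2 + K) ^ 2 * s ^ 3 * (A * B) := by ring
        rw [this]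
        linarith

/-! ### the step -/

theorem c1_main_term {ι : Type} [Fintype ι] [DecidableEq ι] (v : ι → U → ℝ) (w : U → ℝ) (a : ℝ)
    (hw : ∀ y, 0 < w y) (ha : 0 ≤ a) (hform : FormLe (fun y z => ∑ j, v j y * v j z) w a)
    {g : (U → Bool) → ℝ} (q : ℝ) (hq : 1 ≤ q) (hcov : CovLe g w q) (h x y : U → ℝ) :
    |∑ j, cv g h x (v j) * cv g h y (v j)| ≤ a * q ^ 2 * (nrmI w x * nrmW w y) := by
  have h1 := hform (fun z => cv g h x (Pi.single z 1)) (fun z => cv g h y (Pi.single z 1))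
  have h2 : ∑ j, cv g h x (v j) * cv g h y (v j) =
      ∑ z, ∑ z', cv g h x (Pi.single z 1) * (∑ j, v j z * v j z') *
        cv g h y (Pi.single z' 1) := by
    have h3 : ∀ j, cv g h x (v j) * cv g h y (v j) = ∑ z, ∑ z',
        cv g h x (Pi.single z 1) * (v j z * v j z') * cv g h y (Pi.single z' 1) := by
      intro j
      rw [c1_cv_coord g h x (v j), c1_cv_coord g h y (v j), Finset.sum_mul_sum]
      exact Finset.sum_congr rfl (fun z _ => Finset.sum_congr rfl (fun z' _ => by ring))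
    simp only [h3]
    rw [Finset.sum_comm]
    apply Finset.sum_congr rfl
    intro z _
    rw [Finset.sum_comm]
    apply Finset.sum_congr rfl
    intro z' _
    rw [Finset.mul_sum, Finset.sum_mul]
  rw [h2]
  refine h1.trans ?_
  have h4 := c1_dualI w hw q hq hcov h x
  have h5 := c1_dualW w hw q hq hcov h y
  have h6 : 0 ≤ nrmI w (fun z => cv g h x (Pi.single z 1)) := c1_nrmI_nonneg _ _
  have h7 : 0 ≤ nrmW w (fun z => cv g h y (Pi.single z 1)) := c1_nrmW_nonneg _ _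
  have h8 : 0 ≤ nrmI w x := c1_nrmI_nonneg _ _
  calc a * nrmI w (fun z => cv g h x (Pi.single z 1)) *
        nrmW w (fun z => cv g h y (Pi.single z 1))
      ≤ a * (q * nrmI w x) * (q * nrmW w y) := by
        apply mul_le_mul (mul_le_mul_of_nonneg_left h4 ha) h5 h7
        positivity
    _ = a * q ^ 2 * (nrmI w x * nrmW w y) := by ring

theorem t_COV1 : St_COV1 := by
  intro U _ _ ι _ _ v w a hw ha hform
  set c : ℝ := ∑ j, ∑ y, |v j y| with hc
  have hc0 : 0 ≤ c := Finset.sum_nonneg (fun j _ => Finset.sum_nonneg (fun y _ => abs_nonneg _))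
  set K : ℝ := 2 * c + c1_K c + 2 * (c * Real.exp c) * Real.exp c with hK
  have hK1 := c1_K_nonneg c hc0
  have hK2 : 0 ≤ 2 * (c * Real.exp c) * Real.exp c := by positivity
  have hK0 : 0 ≤ K := by positivity
  refine ⟨(K ^ 3 + 3 * K ^ 2 + (K ^ 2 + K) ^ 2) * ((∑ y, w y) * ∑ y, (w y)⁻¹), ?_, ?_⟩
  · have h1 : 0 ≤ ∑ y, w y := Finset.sum_nonneg (fun y _ => (hw y).le)
    have h2 : 0 ≤ ∑ y, (w y)⁻¹ := Finset.sum_nonneg (fun y _ => (inv_pos.2 (hw y)).le)
    positivity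
  intro g hg q hq hcov s hs0 hs1 h x y
  set nI := nrmI w x with hnI
  set nW := nrmW w y with hnW
  have hnI0 : 0 ≤ nI := c1_nrmI_nonneg _ _
  have hnW0 : 0 ≤ nW := c1_nrmW_nonneg _ _
  set A := ∑ z, |x z| with hA
  set B := ∑ z, |y z| with hB
  have hA0 : 0 ≤ A := Finset.sum_nonneg (fun z _ => abs_nonneg _)
  have hB0 : 0 ≤ B := Finset.sum_nonneg (fun z _ => abs_nonneg _)
  have hAle : A ≤ (∑ y, w y) * nI := c1_A_le w hw x
  have hBle : B ≤ (∑ y, (w y)⁻¹) * nW := c1_B_le w hw y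
  -- the fields
  have hxi : ∀ (ε : ι → Bool) σ, |lin (c1_xi v ε) σ| ≤ c := by
    intro ε σ
    rw [c1_lin_xi]
    refine (Finset.abs_sum_le_sum_abs _ _).trans (Finset.sum_le_sum (fun j _ => ?_))
    rw [abs_mul]
    have : |sg (ε j)| = 1 := by cases ε j <;> simp [sg]
    rw [this, one_mul]
    exact c1_lin_abs _ _
  set D : (ι → Bool) → ℝ := fun ε => c1_Dw g h v s ε with hD
  have hDpos : ∀ ε, 0 < D ε := fun ε => c1_Dw_pos hg h v s ε
  have hDb : ∀ ε, Real.exp (-c) ≤ D ε ∧ |D ε - 1| ≤ s * (c * Real.exp c) := fun ε =>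
    c1_D hg h _ c s hc0 (hxi ε) hs0.le hs1
  set S := ∑ ε, D ε with hS
  set n : ℝ := (Fintype.card (ι → Bool) : ℝ) with hn
  have hnpos : 0 < n := by
    rw [hn]
    exact_mod_cast Fintype.card_pos
  have hSge : n * Real.exp (-c) ≤ S := by
    have h1 := Finset.card_nsmul_le_sum Finset.univ D (Real.exp (-c)) (fun ε _ => (hDb ε).1)
    rw [nsmul_eq_mul, Finset.card_univ] at h1
    exact h1
  have hSpos : 0 < S := lt_of_lt_of_le (mul_pos hnpos (Real.exp_pos _)) hSge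
  set p : (ι → Bool) → ℝ := fun ε => D ε / S with hp
  have hp0 : ∀ ε, 0 ≤ p ε := fun ε => (div_pos (hDpos ε) hSpos).le
  have hp1 : ∑ ε, p ε = 1 := by
    rw [hp, ← Finset.sum_div, ← hS, div_self hSpos.ne']
  have hu : ∑ ε, |p ε - 1 / n| ≤ K * s := by
    have h1 : ∀ ε, |p ε - 1 / n| ≤ (2 * (c * Real.exp c) * Real.exp c * s) / n := by
      intro ε
      have h2 : p ε - 1 / n = (∑ ε', (D ε - D ε')) / (n * S) := by
        rw [Finset.sum_sub_distrib, Finset.sum_const, Finset.card_univ, nsmul_eq_mul, ← hS]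
        rw [hp]
        change D ε / S - 1 / n = (n * D ε - S) / (n * S)
        field_simp
      have h3 : |∑ ε', (D ε - D ε')| ≤ n * (2 * (s * (c * Real.exp c))) := by
        have h4 : ∀ ε', |D ε - D ε'| ≤ 2 * (s * (c * Real.exp c)) := by
          intro ε'
          have h5 : D ε - D ε' = (D ε - 1) - (D ε' - 1) := by ring
          rw [h5]
          refine (abs_sub _ _).trans ?_
          linarith [(hDb ε).2, (hDb ε').2]
        refine (Finset.abs_sum_le_sum_abs _ _).trans ?_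
        have h6 := Finset.sum_le_card_nsmul Finset.univ (fun ε' => |D ε - D ε'|) _
          (fun ε' _ => h4 ε')
        rw [nsmul_eq_mul, Finset.card_univ] at h6
        exact h6
      rw [h2, abs_div, abs_of_pos (mul_pos hnpos hSpos), div_le_div_iff₀ (mul_pos hnpos hSpos) hnpos]
      have h7 : 1 ≤ Real.exp c * (S / n) := by
        have h8 : Real.exp (-c) ≤ S / n := by
          rw [le_div_iff₀ hnpos]
          linarith
        calc (1 : ℝ) = Real.exp c * Real.exp (-c) := by rw [← Real.exp_add]; simp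
          _ ≤ _ := mul_le_mul_of_nonneg_left h8 (Real.exp_pos c).le
      have h9 : 0 ≤ n * (2 * (s * (c * Real.exp c))) * n := by positivity
      calc |∑ ε', (D ε - D ε')| * n ≤ n * (2 * (s * (c * Real.exp c))) * n :=
            mul_le_mul_of_nonneg_right h3 hnpos.le
        _ = n * (2 * (s * (c * Real.exp c))) * n * 1 := by ring
        _ ≤ n * (2 * (s * (c * Real.exp c))) * n * (Real.exp c * (S / n)) :=
            mul_le_mul_of_nonneg_left h7 h9
        _ = 2 * (c * Real.exp c) * Real.exp c * s * (n * S) := by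
            field_simp
    have h10 := Finset.sum_le_card_nsmul Finset.univ (fun ε => |p ε - 1 / n|) _
      (fun ε _ => h1 ε)
    rw [nsmul_eq_mul, Finset.card_univ] at h10
    refine h10.trans ?_
    change n * (2 * (c * Real.exp c) * Real.exp c * s / n) ≤ K * s
    rw [mul_div_cancel₀ _ hnpos.ne']
    apply mul_le_mul_of_nonneg_right _ hs0.le
    rw [hK]
    linarith
  -- the linear forms
  have hmean : ∀ (x : U → ℝ) (ε : ι → Bool),
      |av g (fun z => h z + s * c1_xi v ε z) (lin x) - av g h (lin x) -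
        s * cv g h x (c1_xi v ε)| ≤ K * s ^ 2 * ∑ z, |x z| := by
    intro x ε
    have h0 : 0 ≤ ∑ z, |x z| := Finset.sum_nonneg (fun z _ => abs_nonneg _)
    have h1 := c1_taylor hg h (lin (c1_xi v ε)) (lin x) c (∑ z, |x z|) s hc0 h0 (hxi ε)
      (c1_lin_abs x) hs0.le hs1
    rw [c1_tilt hg, c1_cv_comm]
    refine h1.trans ?_
    have h2 : c1_K c ≤ K := by rw [hK]; linarith
    calc s ^ 2 * (∑ z, |x z|) * c1_K c ≤ s ^ 2 * (∑ z, |x z|) * K :=
          mul_le_mul_of_nonneg_left h2 (by positivity)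
      _ = _ := by ring
  have hal : ∀ (x : U → ℝ) (ε : ι → Bool), |cv g h x (c1_xi v ε)| ≤ K * ∑ z, |x z| := by
    intro x ε
    have h0 : 0 ≤ ∑ z, |x z| := Finset.sum_nonneg (fun z _ => abs_nonneg _)
    have h1 := c1_cov_abs hg h (lin (c1_xi v ε)) (lin x) c (∑ z, |x z|) hc0 h0 (hxi ε)
      (c1_lin_abs x)
    rw [c1_cv_comm]
    refine h1.trans (mul_le_mul_of_nonneg_right ?_ h0)
    rw [hK]; linarith
  have hcvxi : ∀ (x : U → ℝ) (ε : ι → Bool),
      cv g h x (c1_xi v ε) = ∑ j, sg (ε j) * cv g h x (v j) := fun x ε => c1_cv_sum _ _ _ _ _ _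
  have hal0 : ∀ x : U → ℝ, ∑ ε, cv g h x (c1_xi v ε) = 0 := by
    intro x
    simp only [hcvxi]
    exact c1_sum_lin _
  have hquad : 1 / n * ∑ ε, cv g h x (c1_xi v ε) * cv g h y (c1_xi v ε) =
      ∑ j, cv g h x (v j) * cv g h y (v j) := by
    simp only [hcvxi]
    rw [c1_sum_quad, ← hn, ← mul_assoc, one_div_mul_cancel hnpos.ne', one_mul]
  have hT := c1_covT p hp0 hp1 (1 / n) K A B s (av g h (lin x)) (av g h (lin y)) hu hK0 hA0 hB0
    hs0.le hs1 (fun ε => av g (fun z => h z + s * c1_xi v ε z) (lin x))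
    (fun ε => av g (fun z => h z + s * c1_xi v ε z) (lin y))
    (fun ε => cv g h x (c1_xi v ε)) (fun ε => cv g h y (c1_xi v ε)) (hal x) (hal y)
    (hmean x) (hmean y) (hal0 x) (hal0 y)
  rw [hquad] at hT
  -- the decomposition
  have hdec : cv (fun σ => g σ * ∏ j, Real.cosh (s * lin (v j) σ)) h x y =
      (∑ ε, p ε * cv g (fun z => h z + s * c1_xi v ε z) x y) +
      ((∑ ε, p ε * (av g (fun z => h z + s * c1_xi v ε z) (lin x) *
        av g (fun z => h z + s * c1_xi v ε z) (lin y))) -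
      (∑ ε, p ε * av g (fun z => h z + s * c1_xi v ε z) (lin x)) *
      (∑ ε, p ε * av g (fun z => h z + s * c1_xi v ε z) (lin y))) := by
    unfold cv
    rw [c1_mix hg, c1_mix hg, c1_mix hg]
    simp only [mul_sub, Finset.sum_sub_distrib]
    change (∑ ε, p ε * _) - (∑ ε, p ε * _) * (∑ ε, p ε * _) = _
    ring
  have hfirst : |∑ ε, p ε * cv g (fun z => h z + s * c1_xi v ε z) x y| ≤ q * (nI * nW) := by
    apply c1_wsum p _ hp0 hp1
    intro ε
    have h1 := hcov (fun z => h z + s * c1_xi v ε z) x y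
    calc _ ≤ q * nrmI w x * nrmW w y := h1
      _ = q * (nI * nW) := by ring
  have hmain := c1_main_term v w a hw ha hform q hq hcov h x y
  have hABle : A * B ≤ ((∑ y, w y) * ∑ y, (w y)⁻¹) * (nI * nW) := by
    calc A * B ≤ ((∑ y, w y) * nI) * ((∑ y, (w y)⁻¹) * nW) :=
          mul_le_mul hAle hBle hB0 (le_trans hA0 hAle)
      _ = _ := by ring
  set Q := (∑ ε, p ε * (av g (fun z => h z + s * c1_xi v ε z) (lin x) *
        av g (fun z => h z + s * c1_xi v ε z) (lin y))) -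
      (∑ ε, p ε * av g (fun z => h z + s * c1_xi v ε z) (lin x)) *
      (∑ ε, p ε * av g (fun z => h z + s * c1_xi v ε z) (lin y)) with hQ
  set Mt := ∑ j, cv g h x (v j) * cv g h y (v j) with hMt
  have hs2 : 0 ≤ s ^ 2 := sq_nonneg s
  have hQb : |Q| ≤ s ^ 2 * (a * q ^ 2 * (nI * nW)) +
      (K ^ 3 + 3 * K ^ 2 + (K ^ 2 + K) ^ 2) * s ^ 3 * (A * B) := by
    have h1 : Q = s ^ 2 * Mt + (Q - s ^ 2 * Mt) := by ring
    rw [h1]
    refine (abs_add_le _ _).trans (add_le_add ?_ hT)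
    rw [abs_mul, abs_of_nonneg hs2]
    exact mul_le_mul_of_nonneg_left hmain hs2
  rw [hdec]
  refine (abs_add_le _ _).trans ?_
  have hC : (K ^ 3 + 3 * K ^ 2 + (K ^ 2 + K) ^ 2) * s ^ 3 * (A * B) ≤
      (K ^ 3 + 3 * K ^ 2 + (K ^ 2 + K) ^ 2) * s ^ 3 *
        (((∑ y, w y) * ∑ y, (w y)⁻¹) * (nI * nW)) :=
    mul_le_mul_of_nonneg_left hABle (by positivity)
  calc _ ≤ q * (nI * nW) + (s ^ 2 * (a * q ^ 2 * (nI * nW)) +
      (K ^ 3 + 3 * K ^ 2 + (K ^ 2 + K) ^ 2) * s ^ 3 * (A * B)) := add_le_add hfirst hQb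
    _ ≤ q * (nI * nW) + (s ^ 2 * (a * q ^ 2 * (nI * nW)) +
      (K ^ 3 + 3 * K ^ 2 + (K ^ 2 + K) ^ 2) * s ^ 3 *
        (((∑ y, w y) * ∑ y, (w y)⁻¹) * (nI * nW))) := by linarith
    _ = _ := by ring

end cov1

end Pool.H47EA
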