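import Pool.Agent.H47R2.EA.St

/-!
# Weighted covariance bound for a positive semidefinite interaction
-/

set_option autoImplicit false

open Filter Topology

namespace Pool.H47EA

namespace Cov2

section Base
variable {U : Type} [Fintype U] [DecidableEq U]

/-- flip the spin at `y` -/
def flip (y : U) (σ : U → Bool) : U → Bool := Function.update σ y (!σ y)

theorem flip_flip (y : U) (σ : U → Bool) : flip y (flip y σ) = σ := by
  unfold flip
  funext x
  by_cases h : x = y
  · subst h; simp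
  · simp [Function.update_of_ne h]

theorem sg_not (b : Bool) : sg (!b) = - sg b := by
  cases b <;> simp [sg]

theorem sg_sq (b : Bool) : sg b * sg b = 1 := by
  cases b <;> simp [sg]

theorem sum_flip (y : U) (F : (U → Bool) → ℝ) : ∑ σ, F (flip y σ) = ∑ σ, F σ :=
  Equiv.sum_comp (Function.Involutive.toPerm (flip y) (flip_flip y)) F

theorem lin_flip (h : U → ℝ) (y : U) (σ : U → Bool) :
    ∑ x, h x * sg (flip y σ x) = ∑ x, h x * sg (σ x) - 2 * (h y * sg (σ y)) := by
  have : ∑ x, (h x * sg (flip y σ x) - h x * sg (σ x)) = - (2 * (h y * sg (σ y))) := by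
    rw [Finset.sum_eq_single y]
    · simp only [flip, Function.update_self, sg_not]; ring
    · intro x _ hx
      simp [flip, Function.update_of_ne hx]
    · intro hy; exact absurd (Finset.mem_univ y) hy
  rw [Finset.sum_sub_distrib] at this
  linarith

theorem Z_pos (g : (U → Bool) → ℝ) (hg : ∀ σ, 0 < g σ) (h : U → ℝ) : 0 < Zf g h := by
  unfold Zf
  apply Finset.sum_pos
  · intro σ _; unfold Wt; exact mul_pos (hg σ) (Real.exp_pos _)
  · exact ⟨fun _ => true, Finset.mem_univ _⟩

/-- the average is linear -/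
theorem av_sum {ι : Type} (s : Finset ι) (g : (U → Bool) → ℝ) (h : U → ℝ)
    (F : ι → (U → Bool) → ℝ) : av g h (fun σ => ∑ i ∈ s, F i σ) = ∑ i ∈ s, av g h (F i) := by
  unfold av
  rw [← Finset.sum_div]
  congr 1
  rw [Finset.sum_comm]
  refine Finset.sum_congr rfl fun σ _ => ?_
  rw [Finset.mul_sum]

theorem av_smul (g : (U → Bool) → ℝ) (h : U → ℝ) (c : ℝ) (F : (U → Bool) → ℝ) :
    av g h (fun σ => c * F σ) = c * av g h F := by
  unfold av
  rw [← mul_div_assoc, Finset.mul_sum]
  congr 1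
  refine Finset.sum_congr rfl fun σ _ => ?_
  ring

theorem av_one (g : (U → Bool) → ℝ) (hg : ∀ σ, 0 < g σ) (h : U → ℝ) :
    av g h (fun _ => 1) = 1 := by
  unfold av
  have := (Z_pos g hg h).ne'
  rw [div_eq_one_iff_eq this]
  unfold Zf
  refine Finset.sum_congr rfl fun σ _ => ?_
  ring

theorem av_lin (g : (U → Bool) → ℝ) (h a : U → ℝ) :
    av g h (lin a) = ∑ y, a y * av g h (fun σ => sg (σ y)) := by
  have : (lin a) = fun σ => ∑ y ∈ (Finset.univ : Finset U), (fun (y : U) (σ : U → Bool) => a y * sg (σ y)) y σ := by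
    funext σ; rfl
  rw [this, av_sum]
  refine Finset.sum_congr rfl fun y _ => ?_
  exact av_smul g h (a y) _

theorem av_lin_lin (g : (U → Bool) → ℝ) (h a b : U → ℝ) :
    av g h (fun σ => lin a σ * lin b σ)
      = ∑ y, ∑ z, a y * b z * av g h (fun σ => sg (σ y) * sg (σ z)) := by
  have : (fun σ => lin a σ * lin b σ) = fun σ => ∑ y ∈ (Finset.univ : Finset U),
      (fun (y : U) (σ : U → Bool) => ∑ z ∈ (Finset.univ : Finset U),
        (fun (z : U) (σ : U → Bool) => (a y * b z) * (sg (σ y) * sg (σ z))) z σ) y σ := by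
    funext σ
    simp only [lin]
    rw [Finset.sum_mul_sum]
    refine Finset.sum_congr rfl fun y _ => Finset.sum_congr rfl fun z _ => ?_
    ring
  rw [this, av_sum]
  refine Finset.sum_congr rfl fun y _ => ?_
  rw [av_sum]
  refine Finset.sum_congr rfl fun z _ => ?_
  exact av_smul g h (a y * b z) _

/-- in the product measure, `sg σ_y` may be replaced by `tanh h_y` -/
theorem av_key (h : U → ℝ) (y : U) (f : (U → Bool) → ℝ) (hf : ∀ σ, f (flip y σ) = f σ) :
    av (fun _ => 1) h (fun σ => sg (σ y) * f σ) = Real.tanh (h y) * av (fun _ => 1) h f := by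
  rw [← av_smul]
  unfold av
  congr 1
  rw [← sub_eq_zero, ← Finset.sum_sub_distrib]
  set F : (U → Bool) → ℝ := fun σ => Wt (fun _ => 1) h σ * (sg (σ y) * f σ) -
    Wt (fun _ => 1) h σ * (Real.tanh (h y) * f σ) with hF
  have hflip : ∀ σ, F (flip y σ) = - F σ := by
    intro σ
    simp only [hF, Wt, one_mul]
    rw [lin_flip, hf, Real.exp_sub]
    have hsg : sg (flip y σ y) = - sg (σ y) := by
      simp [flip, sg_not]
    rw [hsg]
    have hE : Real.exp (h y) ≠ 0 := (Real.exp_pos _).ne'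
    have hE2 : Real.exp (-(h y)) ≠ 0 := (Real.exp_pos _).ne'
    have hEE : Real.exp (h y) * Real.exp (-(h y)) = 1 := by
      rw [← Real.exp_add]; simp
    have hEp : 0 < Real.exp (h y) := Real.exp_pos _
    have hEp2 : 0 < Real.exp (-(h y)) := Real.exp_pos _
    have hsum : Real.exp (h y) + Real.exp (-(h y)) ≠ 0 := by positivity
    cases hb : σ y
    · have h1 : Real.exp (2 * (h y * sg false)) = Real.exp (-(h y)) * Real.exp (-(h y)) := by
        rw [← Real.exp_add]; congr 1; simp [sg]; ring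
      rw [h1, Real.tanh_eq]
      simp only [sg]
      field_simp
      simp
      ring_nf
      have : Real.exp (h y) = (Real.exp (-(h y)))⁻¹ := by rw [Real.exp_neg, inv_inv]
      rw [this]
      field_simp
    · have h1 : Real.exp (2 * (h y * sg true)) = Real.exp ((h y)) * Real.exp ((h y)) := by
        rw [← Real.exp_add]; congr 1; simp [sg]; ring
      rw [h1, Real.tanh_eq]
      simp only [sg]
      field_simp
      simp
      ring_nf
      have : Real.exp (h y) = (Real.exp (-(h y)))⁻¹ := by rw [Real.exp_neg, inv_inv]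
      rw [this]
      field_simp
  have h2 : ∑ σ, F σ = - ∑ σ, F σ := by
    rw [← Finset.sum_neg_distrib, ← sum_flip y F]
    exact Finset.sum_congr rfl fun σ _ => hflip σ
  linarith

theorem av_one_sg (h : U → ℝ) (y : U) :
    av (fun _ => 1) h (fun σ => sg (σ y)) = Real.tanh (h y) := by
  have := av_key h y (fun _ => 1) (fun _ => rfl)
  rw [av_one _ (fun _ => one_pos)] at this
  simpa using this

theorem av_one_sg_sg (h : U → ℝ) (y z : U) :
    av (fun _ => 1) h (fun σ => sg (σ y) * sg (σ z)) =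
      if y = z then 1 else Real.tanh (h y) * Real.tanh (h z) := by
  split_ifs with hyz
  · subst hyz
    simp only [sg_sq]
    exact av_one _ (fun _ => one_pos) h
  · rw [av_key h y (fun σ => sg (σ z)), av_one_sg]
    intro σ
    simp [flip, Function.update_of_ne (Ne.symm hyz)]

theorem cv_one (h a b : U → ℝ) :
    cv (fun _ => 1) h a b = ∑ y, a y * b y * (1 - Real.tanh (h y) ^ 2) := by
  unfold cv
  rw [av_lin_lin, av_lin, av_lin]
  simp only [av_one_sg, av_one_sg_sg]
  rw [Finset.sum_mul_sum, ← Finset.sum_sub_distrib]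
  refine Finset.sum_congr rfl fun y _ => ?_
  rw [← Finset.sum_sub_distrib, Finset.sum_eq_single y]
  · simp; ring
  · intro z _ hz
    rw [if_neg (Ne.symm hz)]; ring
  · intro hy; exact absurd (Finset.mem_univ y) hy

theorem nrm_mul (w a b : U → ℝ) (hw : ∀ y, 0 < w y) :
    ∑ y, |a y * b y| ≤ nrmI w a * nrmW w b := by
  unfold nrmI nrmW
  have := Real.sum_mul_le_sqrt_mul_sqrt (Finset.univ : Finset U) (fun y => |a y / w y|)
    (fun y => |b y * w y|)
  simp only [sq_abs] at this
  refine le_trans (le_of_eq ?_) this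
  refine Finset.sum_congr rfl fun y _ => ?_
  rw [← abs_mul]
  congr 1
  have := (hw y).ne'
  field_simp

theorem base (w : U → ℝ) (hw : ∀ y, 0 < w y) : CovLe (fun _ : U → Bool => (1 : ℝ)) w 1 := by
  intro h a b
  rw [cv_one, one_mul]
  refine le_trans (Finset.abs_sum_le_sum_abs _ _) (le_trans ?_ (nrm_mul w a b hw))
  refine Finset.sum_le_sum fun y _ => ?_
  rw [abs_mul]
  have h1 : |1 - Real.tanh (h y) ^ 2| ≤ 1 := by
    have h2 : Real.tanh (h y) ^ 2 ≤ 1 := by
      rw [sq_le_one_iff_abs_le_one]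
      exact (Real.abs_tanh_lt_one _).le
    have h3 : 0 ≤ Real.tanh (h y) ^ 2 := sq_nonneg _
    rw [abs_le]; constructor <;> linarith
  calc |a y * b y| * |1 - Real.tanh (h y) ^ 2| ≤ |a y * b y| * 1 :=
        mul_le_mul_of_nonneg_left h1 (abs_nonneg _)
    _ = _ := mul_one _

theorem CovLe.mono {g : (U → Bool) → ℝ} {w : U → ℝ} {q q' : ℝ} (h : CovLe g w q) (hq : q ≤ q') :
    CovLe g w q' := by
  intro e a b
  refine le_trans (h e a b) ?_
  have h1 : 0 ≤ nrmI w a := Real.sqrt_nonneg _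
  have h2 : 0 ≤ nrmW w b := Real.sqrt_nonneg _
  gcongr

end Base

theorem cosh_lower (y : ℝ) : 1 + y ^ 2 / 2 ≤ Real.cosh y := by
  have := sum_le_hasSum (Finset.range 2) (fun i _ => by
    show 0 ≤ y ^ (2 * i) / ((2 * i).factorial : ℝ)
    rw [pow_mul]; positivity) (Real.hasSum_cosh y)
  simpa [Finset.sum_range_succ] using this

/-- `cosh (x/√N)^N → exp (x²/2)` -/
theorem cosh_tendsto (x : ℝ) :
    Tendsto (fun N : ℕ => Real.cosh ((1 / √(N : ℝ)) * x) ^ N) atTop (𝓝 (Real.exp (x ^ 2 / 2))) := by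
  refine tendsto_of_tendsto_of_tendsto_of_le_of_le' (Real.tendsto_one_add_div_pow_exp (x ^ 2 / 2))
    tendsto_const_nhds ?_ ?_
  · filter_upwards [eventually_gt_atTop 0] with N hN
    have hN' : (0 : ℝ) < N := by exact_mod_cast hN
    have hs : √(N : ℝ) ^ 2 = N := Real.sq_sqrt hN'.le
    have hs0 : √(N : ℝ) ≠ 0 := (Real.sqrt_pos.mpr hN').ne'
    refine pow_le_pow_left₀ (by positivity) ?_ N
    refine le_trans (le_of_eq ?_) (cosh_lower _)
    rw [mul_pow, div_pow, hs]
    field_simp
  · filter_upwards [eventually_gt_atTop 0] with N hN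
    have hN' : (0 : ℝ) < N := by exact_mod_cast hN
    have hs : √(N : ℝ) ^ 2 = N := Real.sq_sqrt hN'.le
    refine le_trans (pow_le_pow_left₀ (Real.cosh_pos _).le (Real.cosh_le_exp_half_sq _) N) ?_
    rw [← Real.exp_nat_mul]
    apply le_of_eq
    congr 1
    rw [mul_pow, div_pow, hs]
    field_simp

end Cov2

open Cov2

theorem t_COV2 (h1 : St_COV1) : St_COV2 := by
  intro U _ _ ι _ _ v w a hw ha ha1 hA
  obtain ⟨C, hC, hstep⟩ := h1 U ι v w a hw ha hA
  -- iteration
  have hiter : ∀ N : ℕ, 1 ≤ N → a + C * (1 / √(N : ℝ)) < 1 → ∀ k : ℕ, k ≤ N →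
      CovLe (fun σ => (∏ j, Real.cosh ((1 / √(N : ℝ)) * lin (v j) σ)) ^ k) w
        (1 / (1 - (a + C * (1 / √(N : ℝ))) * k * (1 / √(N : ℝ)) ^ 2)) := by
    intro N hN haC
    have hN' : (0 : ℝ) < N := by exact_mod_cast hN
    have hN1 : (1 : ℝ) ≤ N := by exact_mod_cast hN
    set s : ℝ := 1 / √(N : ℝ) with hs
    have hsq : √(N : ℝ) ^ 2 = N := Real.sq_sqrt hN'.le
    have hs0 : 0 < s := by rw [hs]; positivity
    have hs1 : s ≤ 1 := by
      rw [hs, div_le_one (by positivity)]
      exact Real.one_le_sqrt.mpr hN1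
    have hs2 : s ^ 2 * N = 1 := by
      rw [hs, div_pow, hsq]; field_simp
    set a' : ℝ := a + C * s with ha'
    have ha'0 : 0 ≤ a' := by positivity
    have hden : ∀ k : ℕ, k ≤ N → 0 < 1 - a' * k * s ^ 2 := by
      intro k hk
      have hk' : (k : ℝ) ≤ N := by exact_mod_cast hk
      have : a' * k * s ^ 2 ≤ a' * N * s ^ 2 := by gcongr
      have h2 : a' * N * s ^ 2 = a' := by
        calc a' * N * s ^ 2 = a' * (s ^ 2 * N) := by ring
          _ = a' := by rw [hs2, mul_one]
      linarith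
    intro k
    induction k with
    | zero =>
      intro _
      simp only [pow_zero, Nat.cast_zero, mul_zero, zero_mul, sub_zero, div_one]
      exact base w hw
    | succ k ih =>
      intro hk
      have hk0 : k ≤ N := by omega
      have hd0 := hden k hk0
      have hd1 := hden (k + 1) hk
      have hQ : 1 ≤ 1 / (1 - a' * k * s ^ 2) := by
        rw [le_div_iff₀ hd0]
        have : 0 ≤ a' * k * s ^ 2 := by positivity
        linarith
      have hih := ih hk0
      have hg : ∀ σ : U → Bool, 0 < (∏ j, Real.cosh (s * lin (v j) σ)) ^ k := by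
        intro σ
        exact pow_pos (Finset.prod_pos fun j _ => Real.cosh_pos _) k
      have hst := hstep _ hg _ hQ hih s hs0 hs1
      have heq : (fun σ : U → Bool => (∏ j, Real.cosh (s * lin (v j) σ)) ^ k *
          ∏ j, Real.cosh (s * lin (v j) σ)) =
          fun σ => (∏ j, Real.cosh (s * lin (v j) σ)) ^ (k + 1) := by
        funext σ; rw [pow_succ]
      rw [heq] at hst
      refine CovLe.mono hst ?_
      push_cast at hd1 ⊢
      set Q : ℝ := 1 / (1 - a' * k * s ^ 2) with hQdef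
      set Q1 : ℝ := 1 / (1 - a' * (k + 1) * s ^ 2) with hQ1def
      have hQ1 : Q ≤ Q1 := by
        rw [hQdef, hQ1def]
        apply one_div_le_one_div_of_le hd1
        have : 0 ≤ a' * s ^ 2 := by positivity
        nlinarith
      have hdiff : Q1 - Q = a' * s ^ 2 * (Q * Q1) := by
        rw [hQdef, hQ1def]
        field_simp
        ring
      have hQ0 : 0 ≤ Q := by linarith
      have h3 : a' * s ^ 2 * (Q * Q) ≤ a' * s ^ 2 * (Q * Q1) := by gcongr
      have h4 : C * s ^ 3 * 1 ≤ C * s ^ 3 * (Q * Q) := by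
        have : (1 : ℝ) ≤ Q * Q := by nlinarith
        gcongr
      have h5 : a' * s ^ 2 * (Q * Q) = s ^ 2 * (a * Q ^ 2) + C * s ^ 3 * (Q * Q) := by
        rw [ha']; ring
      linarith
  -- the limit
  intro h x y
  have hsq0 : Tendsto (fun N : ℕ => 1 / √(N : ℝ)) atTop (𝓝 0) := by
    have : Tendsto (fun N : ℕ => √(N : ℝ)) atTop atTop :=
      Real.tendsto_sqrt_atTop.comp tendsto_natCast_atTop_atTop
    have h2 := this.inv_tendsto_atTop
    refine h2.congr fun N => ?_
    simp
  have haC : Tendsto (fun N : ℕ => a + C * (1 / √(N : ℝ))) atTop (𝓝 a) := by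
    have := (hsq0.const_mul C).const_add a
    simpa using this
  have hev : ∀ᶠ N : ℕ in atTop, a + C * (1 / √(N : ℝ)) < 1 := haC.eventually (gt_mem_nhds ha1)
  have hg : ∀ σ : U → Bool, Tendsto (fun N : ℕ => (∏ j, Real.cosh ((1 / √(N : ℝ)) * lin (v j) σ)) ^ N)
      atTop (𝓝 (Real.exp ((∑ j, (lin (v j) σ) ^ 2) / 2))) := by
    intro σ
    rw [Finset.sum_div, Real.exp_sum]
    have : (fun N : ℕ => (∏ j, Real.cosh ((1 / √(N : ℝ)) * lin (v j) σ)) ^ N) =
        fun N : ℕ => ∏ j, Real.cosh ((1 / √(N : ℝ)) * lin (v j) σ) ^ N := by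
      funext N; rw [Finset.prod_pow]
    rw [this]
    exact tendsto_finsetProd _ fun j _ => cosh_tendsto _
  have hZ0 : (∑ σ, Real.exp ((∑ j, (lin (v j) σ) ^ 2) / 2) * Real.exp (∑ y, h y * sg (σ y))) ≠ 0 := by
    apply ne_of_gt
    apply Finset.sum_pos
    · intro σ _; positivity
    · exact ⟨fun _ => true, Finset.mem_univ _⟩
  have hav : ∀ f : (U → Bool) → ℝ, Tendsto
      (fun N : ℕ => av (fun σ => (∏ j, Real.cosh ((1 / √(N : ℝ)) * lin (v j) σ)) ^ N) h f) atTop
      (𝓝 (av (fun σ => Real.exp ((∑ j, (lin (v j) σ) ^ 2) / 2)) h f)) := by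
    intro f
    unfold av Zf Wt
    refine Tendsto.div ?_ ?_ hZ0
    · exact tendsto_finsetSum _ fun σ _ => ((hg σ).mul_const _).mul_const _
    · exact tendsto_finsetSum _ fun σ _ => (hg σ).mul_const _
  have hcv : Tendsto
      (fun N : ℕ => |cv (fun σ => (∏ j, Real.cosh ((1 / √(N : ℝ)) * lin (v j) σ)) ^ N) h x y|) atTop
      (𝓝 |cv (fun σ => Real.exp ((∑ j, (lin (v j) σ) ^ 2) / 2)) h x y|) := by
    unfold cv
    exact ((hav _).sub ((hav _).mul (hav _))).abs
  have hrhs : Tendsto (fun N : ℕ => (1 / (1 - (a + C * (1 / √(N : ℝ))))) * nrmI w x * nrmW w y)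
      atTop (𝓝 ((1 / (1 - a)) * nrmI w x * nrmW w y)) := by
    refine ((Tendsto.div tendsto_const_nhds (tendsto_const_nhds.sub haC) ?_).mul_const _).mul_const _
    linarith
  refine le_of_tendsto_of_tendsto hcv hrhs ?_
  filter_upwards [hev, eventually_ge_atTop 1] with N hN1 hN2
  have hN' : (0 : ℝ) < N := by exact_mod_cast hN2
  have hsq : √(N : ℝ) ^ 2 = N := Real.sq_sqrt hN'.le
  have key := hiter N hN2 hN1 N le_rfl h x y
  have h2 : (a + C * (1 / √(N : ℝ))) * (N : ℝ) * (1 / √(N : ℝ)) ^ 2 = a + C * (1 / √(N : ℝ)) := by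
    rw [div_pow, hsq]; field_simp
  rw [h2] at key
  exact key

end Pool.H47EA
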