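import Pool.Agent.H47R2.EA.St

/-!
# DIFF: Lipschitz dependence of the magnetisation on the field
-/

set_option autoImplicit false

namespace Pool.H47EA

theorem t_DIFF : St_DIFF := by
  intro U _ _ g w q hg hC h h' a
  set b : U → ℝ := fun y => h y - h' y with hb
  set k : ℝ → U → ℝ := fun t y => h' y + t * b y with hk
  have hk1 : k 1 = h := by
    funext y; simp only [hk, hb]; ring
  have hk0 : k 0 = h' := by
    funext y; simp only [hk]; ring
  have hW : ∀ (t : ℝ) (σ : U → Bool),
      HasDerivAt (fun t => Wt g (k t) σ) (Wt g (k t) σ * lin b σ) t := by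
    intro t σ
    have h1 : HasDerivAt (fun t : ℝ => ∑ y, k t y * sg (σ y)) (∑ y, b y * sg (σ y)) t := by
      apply HasDerivAt.fun_sum
      intro y _
      have h2 : HasDerivAt (fun t : ℝ => k t y) (b y) t := by
        have h3 : HasDerivAt (fun t : ℝ => t * b y) (1 * b y) t := (hasDerivAt_id t).mul_const _
        rw [one_mul] at h3
        exact h3.const_add (h' y)
      exact h2.mul_const _
    have h4 := (h1.exp).const_mul (g σ)
    have h5 : Wt g (k t) σ * lin b σ = g σ * (Real.exp (∑ y, k t y * sg (σ y)) * ∑ y, b y * sg (σ y)) := by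
      unfold Wt lin
      ring
    rw [h5]
    exact h4
  have hN : ∀ (f : (U → Bool) → ℝ) (t : ℝ), HasDerivAt (fun t => ∑ σ, Wt g (k t) σ * f σ)
      (∑ σ, Wt g (k t) σ * lin b σ * f σ) t := by
    intro f t
    apply HasDerivAt.fun_sum
    intro σ _
    exact (hW t σ).mul_const _
  have hZ : ∀ t : ℝ, HasDerivAt (fun t => Zf g (k t)) (∑ σ, Wt g (k t) σ * lin b σ) t := by
    intro t
    unfold Zf
    apply HasDerivAt.fun_sum
    intro σ _
    exact hW t σ
  have hZ0 : ∀ t : ℝ, 0 < Zf g (k t) := by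
    intro t
    unfold Zf
    apply Finset.sum_pos
    · intro σ _
      exact mul_pos (hg σ) (Real.exp_pos _)
    · exact Finset.univ_nonempty
  have hD : ∀ t : ℝ, HasDerivAt (fun t => av g (k t) (lin a)) (cv g (k t) a b) t := by
    intro t
    have h5 := (hN (lin a) t).div (hZ t) (hZ0 t).ne'
    have hz := (hZ0 t).ne'
    have e1 : ∑ σ, Wt g (k t) σ * (lin a σ * lin b σ) = ∑ σ, Wt g (k t) σ * lin b σ * lin a σ :=
      Finset.sum_congr rfl fun σ _ => by ring
    have e2 : cv g (k t) a b = ((∑ σ, Wt g (k t) σ * lin b σ * lin a σ) * Zf g (k t) -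
        (∑ σ, Wt g (k t) σ * lin a σ) * (∑ σ, Wt g (k t) σ * lin b σ)) / Zf g (k t) ^ 2 := by
      unfold cv av
      rw [e1]
      field_simp
    rw [e2]
    exact h5
  have key := norm_image_sub_le_of_norm_deriv_le_segment_01'
    (f := fun t => av g (k t) (lin a)) (f' := fun t => cv g (k t) a b)
    (C := q * nrmI w a * nrmW w b)
    (fun t _ => (hD t).hasDerivWithinAt) (fun t _ => hC (k t) a b)
  rw [Real.norm_eq_abs] at key
  rw [hk1, hk0] at key
  exact key

end Pool.H47EA
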