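import Mathlib

/-!
# The Edwards–Anderson model on `ℤ^d`: definitions
-/

set_option autoImplicit false

open MeasureTheory

namespace Pool.H47EA

/-- Sites of the hypercubic lattice `ℤ^d`. -/
abbrev Site (d : ℕ) : Type := Fin d → ℤ

/-- The `ℓ¹`-distance (= graph distance of the hypercubic lattice). -/
def dist1 {d : ℕ} (x y : Site d) : ℕ := ∑ i, (x i - y i).natAbs

/-- The hypercubic lattice: nearest-neighbour graph on `ℤ^d`. -/
def lat (d : ℕ) : SimpleGraph (Site d) where
  Adj x y := dist1 x y = 1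
  symm := ⟨by
    intro x y h
    have : dist1 y x = dist1 x y := by
      unfold dist1
      exact Finset.sum_congr rfl fun i _ => by rw [← Int.natAbs_neg, neg_sub]
    rw [this]; exact h⟩
  loopless := ⟨by intro x h; simp [dist1] at h⟩

instance (d : ℕ) : DecidableRel (lat d).Adj := fun x y =>
  inferInstanceAs (Decidable (dist1 x y = 1))

/-- A realisation of the signs of the couplings: one sign for every edge `e ∈ 𝔼^d`. -/
abbrev Coupling (d : ℕ) : Type := (lat d).edgeSet → Bool

/-- `true ↦ +1`, `false ↦ -1`. -/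
def sg (b : Bool) : ℝ := if b then 1 else -1

/-- The coupling `J_{⟨x,y⟩} ∈ {-1,1}` if `x,y` are nearest neighbours, and `0` otherwise. -/
noncomputable def Jc {d : ℕ} (J : Coupling d) (x y : Site d) : ℝ :=
  if h : (lat d).Adj x y then sg (J ⟨s(x, y), h⟩) else 0

theorem Jc_comm {d : ℕ} (J : Coupling d) (x y : Site d) : Jc J x y = Jc J y x := by
  unfold Jc
  by_cases h : (lat d).Adj x y
  · have h' : (lat d).Adj y x := h.symm
    simp only [h, h', dif_pos]
    have : (⟨s(x, y), h⟩ : (lat d).edgeSet) = ⟨s(y, x), h'⟩ := by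
      apply Subtype.ext; exact Sym2.eq_swap
    rw [this]
  · have h' : ¬ (lat d).Adj y x := fun h' => h h'.symm
    simp [h, h']

/-- The finite set of nearest neighbours of `x`. -/
noncomputable def nbr {d : ℕ} (x : Site d) : Finset (Site d) :=
  (Finset.Icc (fun i => x i - 1) (fun i => x i + 1)).filter (fun y => dist1 x y = 1)

/-- The closed `ℓ¹`-ball of radius `r` around `x`. -/
noncomputable def ball {d : ℕ} (x : Site d) (r : ℕ) : Finset (Site d) :=
  (Finset.Icc (fun i => x i - (r : ℤ)) (fun i => x i + (r : ℤ))).filter (fun y => dist1 x y ≤ r)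

/-- The finite set of edges `⟨x,y⟩` with `{x,y} ∩ Λ ≠ ∅`. -/
noncomputable def edgesOf {d : ℕ} (Λ : Finset (Site d)) : Finset (Sym2 (Site d)) :=
  Λ.biUnion fun x => (nbr x).image fun y => s(x, y)

/-- The term `J_e σ_x σ_y` of the bond `e = ⟨x,y⟩`. -/
noncomputable def bond {d : ℕ} (J : Coupling d) (σ : Site d → Bool) : Sym2 (Site d) → ℝ :=
  Sym2.lift ⟨fun x y => Jc J x y * sg (σ x) * sg (σ y), fun x y => by
    show Jc J x y * sg (σ x) * sg (σ y) = Jc J y x * sg (σ y) * sg (σ x)
    rw [Jc_comm J x y]; ring⟩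

/-- `∑_{e = ⟨x,y⟩ : {x,y} ∩ Λ ≠ ∅} J_e σ_x σ_y`. -/
noncomputable def ham {d : ℕ} (J : Coupling d) (Λ : Finset (Site d)) (σ : Site d → Bool) : ℝ :=
  ∑ e ∈ edgesOf Λ, bond J σ e

/-- The configuration equal to `η` on `Λ` and to the boundary condition `ω` off `Λ`. -/
def glue {d : ℕ} (Λ : Finset (Site d)) (η : Λ → Bool) (ω : Site d → Bool) : Site d → Bool :=
  fun x => if h : x ∈ Λ then η ⟨x, h⟩ else ω x

/-- Partition function in `Λ` with boundary condition `ω`. -/
noncomputable def Zp {d : ℕ} (β : ℝ) (J : Coupling d) (Λ : Finset (Site d))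
    (ω : Site d → Bool) : ℝ :=
  ∑ η : Λ → Bool, Real.exp (β * ham J Λ (glue Λ η ω))

/-- The expectation `π^ω_{Λ,βJ}(f)` of `f` under the Edwards–Anderson measure in `Λ` with
boundary condition `ω`. -/
noncomputable def gE {d : ℕ} (β : ℝ) (J : Coupling d) (Λ : Finset (Site d))
    (ω : Site d → Bool) (f : (Site d → Bool) → ℝ) : ℝ :=
  (∑ η : Λ → Bool, Real.exp (β * ham J Λ (glue Λ η ω)) * f (glue Λ η ω)) / Zp β J Λ ω

/-- Gibbs states at `(β, J)`: probability measures satisfying the DLR equations for all finite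
boxes `Λ = {x : a ≤ x ≤ b}`. -/
def IsGibbs {d : ℕ} (β : ℝ) (J : Coupling d) (π : Measure (Site d → Bool)) : Prop :=
  IsProbabilityMeasure π ∧
    ∀ (a b : Site d) (A : Set (Site d → Bool)), MeasurableSet A →
      (π A).toReal = ∫ ω, gE β J (Finset.Icc a b) ω (A.indicator fun _ => (1 : ℝ)) ∂π

/-- The law of the couplings: independent fair signs. -/
noncomputable def couplingLaw (d : ℕ) : Measure (Coupling d) :=
  Measure.infinitePi fun _ => (PMF.uniformOfFintype Bool).toMeasure

instance (d : ℕ) : IsProbabilityMeasure (couplingLaw d) := by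
  unfold couplingLaw; infer_instance

/-- `β_c(J) = sup {β > 0 : there is a unique Gibbs state at (β, J)}`, in `[0,∞]`. -/
noncomputable def betaC {d : ℕ} (J : Coupling d) : ENNReal :=
  ⨆ (β : ℝ) (_ : 0 < β ∧ ∃! π, IsGibbs β J π), ENNReal.ofReal β

end Pool.H47EA
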