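import Pool.Agent.H47R2.EA.St

set_option autoImplicit false

open MeasureTheory Filter
open scoped ENNReal Topology

namespace Pool.H47EA

theorem dist1_comm {d : ℕ} (x y : Site d) : dist1 x y = dist1 y x := by
  unfold dist1
  exact Finset.sum_congr rfl fun i _ => by rw [← Int.natAbs_neg, neg_sub]

theorem mem_ball_iff {d : ℕ} (x y : Site d) (r : ℕ) : y ∈ ball x r ↔ dist1 x y ≤ r := by
  unfold ball
  simp only [Finset.mem_filter, Finset.mem_Icc, and_iff_right_iff_imp]
  intro h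
  have hi : ∀ i, (x i - y i).natAbs ≤ r := fun i =>
    (Finset.single_le_sum (f := fun i => (x i - y i).natAbs) (fun _ _ => Nat.zero_le _)
      (Finset.mem_univ i)).trans h
  constructor
  · intro i; have := hi i; show x i - (r : ℤ) ≤ y i; omega
  · intro i; have := hi i; show y i ≤ x i + (r : ℤ); omega

theorem card_ball_16 (hbl : St_BALL) (d : ℕ) (x : Site d) :
    ((ball x (16 * d)).card : ℝ) ≤ 88 ^ d := by
  have h := hbl d (16 * d) x (15 / 16) (by norm_num) (by norm_num)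
  have h1 : ((1 + (15 / 16 : ℝ)) / (1 - 15 / 16)) = 31 := by norm_num
  rw [h1] at h
  have h2 : ((15 / 16 : ℝ)) ^ (16 * d) * ((16 / 15 : ℝ) ^ 16) ^ d = 1 := by
    rw [pow_mul, ← mul_pow]
    norm_num
  calc ((ball x (16 * d)).card : ℝ)
      = ((ball x (16 * d)).card : ℝ) * ((15 / 16 : ℝ) ^ (16 * d) * ((16 / 15 : ℝ) ^ 16) ^ d) := by
        rw [h2, mul_one]
    _ = (((ball x (16 * d)).card : ℝ) * (15 / 16 : ℝ) ^ (16 * d)) * ((16 / 15 : ℝ) ^ 16) ^ d := by
        ring
    _ ≤ 31 ^ d * ((16 / 15 : ℝ) ^ 16) ^ d := by gcongr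
    _ = (31 * (16 / 15 : ℝ) ^ 16) ^ d := by rw [mul_pow]
    _ ≤ 88 ^ d := by
        apply pow_le_pow_left₀ (by positivity)
        norm_num

theorem card_ball_33 (hbl : St_BALL) (d : ℕ) (hd : 1 ≤ d) (x : Site d) :
    (ball x (2 * (16 * d) + 1)).card ≤ 180 ^ d := by
  have h := hbl d (2 * (16 * d) + 1) x (32 / 33) (by norm_num) (by norm_num)
  have h1 : ((1 + (32 / 33 : ℝ)) / (1 - 32 / 33)) = 65 := by norm_num
  rw [h1] at h
  have hle : (32 / 33 : ℝ) ^ (33 * d) ≤ (32 / 33 : ℝ) ^ (2 * (16 * d) + 1) :=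
    pow_le_pow_of_le_one (by norm_num) (by norm_num) (by omega)
  have h' : ((ball x (2 * (16 * d) + 1)).card : ℝ) * (32 / 33 : ℝ) ^ (33 * d) ≤ 65 ^ d :=
    (mul_le_mul_of_nonneg_left hle (by positivity)).trans h
  have h2 : ((32 / 33 : ℝ)) ^ (33 * d) * ((33 / 32 : ℝ) ^ 33) ^ d = 1 := by
    rw [pow_mul, ← mul_pow]
    norm_num
  have : ((ball x (2 * (16 * d) + 1)).card : ℝ) ≤ 180 ^ d := by
    calc ((ball x (2 * (16 * d) + 1)).card : ℝ)
        = (((ball x (2 * (16 * d) + 1)).card : ℝ) * (32 / 33 : ℝ) ^ (33 * d)) *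
            ((33 / 32 : ℝ) ^ 33) ^ d := by
          rw [mul_assoc, h2, mul_one]
      _ ≤ 65 ^ d * ((33 / 32 : ℝ) ^ 33) ^ d := by gcongr
      _ = (65 * (33 / 32 : ℝ) ^ 33) ^ d := by rw [mul_pow]
      _ ≤ 180 ^ d := by
          apply pow_le_pow_left₀ (by positivity)
          norm_num
  exact_mod_cast this

theorem exp16_pow (d : ℕ) : Real.exp (-(16 * d : ℝ)) ≤ (1 / 7000000) ^ d := by
  have h1 : (7000000 : ℝ) ≤ Real.exp 16 := by
    have h := Real.exp_one_gt_d9
    have : Real.exp 16 = (Real.exp 1) ^ 16 := by rw [← Real.exp_nat_mul]; norm_num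
    rw [this]
    calc (7000000 : ℝ) ≤ 2.7 ^ 16 := by norm_num
      _ ≤ (Real.exp 1) ^ 16 := pow_le_pow_left₀ (by norm_num) (by linarith) 16
  have h2 : Real.exp (-(16 * d : ℝ)) = (1 / Real.exp 16) ^ d := by
    rw [one_div, ← Real.exp_neg, ← Real.exp_nat_mul]; ring_nf
  rw [h2]
  apply pow_le_pow_left₀ (by positivity)
  exact one_div_le_one_div_of_le (by norm_num) h1

theorem good_local {d : ℕ} (x : Site d) (R : ℕ) (T : ℝ) (J J' : Coupling d)
    (h : ∀ e : (lat d).edgeSet, (∀ v ∈ e.1, v ∈ ball x R) → J e = J' e) (hG : Good J x R T) :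
    Good J' x R T := by
  have hJ : ∀ y ∈ ball x R, ∀ z ∈ ball x R, Jc J' y z = Jc J y z := by
    intro y hy z hz
    unfold Jc
    by_cases hadj : (lat d).Adj y z
    · simp only [hadj, dif_pos]
      rw [h ⟨s(y, z), hadj⟩]
      intro v hv
      have : v ∈ s(y, z) := hv
      rw [Sym2.mem_iff] at this
      rcases this with rfl | rfl
      · exact hy
      · exact hz
    · simp [hadj]
  refine ⟨fun u v => ?_, fun u v => ?_⟩
  · have := hG.1 u v
    rwa [Finset.sum_congr rfl fun y hy => Finset.sum_congr rfl fun z hz => by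
      rw [hJ y hy z hz]]
  · have := hG.2 u v
    rwa [Finset.sum_congr rfl fun y hy => Finset.sum_congr rfl fun z hz => by
      rw [hJ y hy z hz]]

open Classical in
theorem main_of (hb : St_BASIC) (hi : St_INF) (hx : St_EXPL) (hc : St_CHAIN) (hu : St_GIBBSU)
    (he : St_GIBBSE) (hg : St_GOOD) (hbl : St_BALL) : Main := by
  obtain ⟨C, hC, hgood⟩ := hg
  set C' : ℝ := max C 1 with hC'
  have hC'1 : 1 ≤ C' := le_max_right _ _
  have hCC' : C ≤ C' := le_max_left _ _
  set τ : ℝ := √(8 * C' * Real.exp 4) with hτ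
  have hτ2 : τ ^ 2 = 8 * C' * Real.exp 4 := Real.sq_sqrt (by positivity)
  have hτ1 : 1 ≤ τ := by
    rw [hτ, Real.one_le_sqrt]
    have : (1 : ℝ) ≤ Real.exp 4 := Real.one_le_exp (by norm_num)
    nlinarith
  have hτ0 : 0 < τ := by linarith
  refine ⟨1 / (4 * τ), by positivity, fun d hd => ?_⟩
  have hd' : (1 : ℝ) ≤ d := by exact_mod_cast hd
  have hsd : 1 ≤ √(d : ℝ) := by rw [Real.one_le_sqrt]; exact hd'
  have hsd0 : 0 < √(d : ℝ) := by linarith
  have hsd2 : √(d : ℝ) ^ 2 = d := Real.sq_sqrt (by positivity)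
  set R : ℕ := 16 * d with hR
  set T : ℝ := τ * √(d : ℝ) with hT
  have hT0 : 0 < T := by positivity
  set εr : ℝ := Real.exp (-(16 * d : ℝ)) * √(d : ℝ) * √((88 : ℝ) ^ d) with hεr
  have hεr0 : 0 ≤ εr := by positivity
  set br : ℝ := 2 * 88 ^ d * Real.exp (-(16 * d : ℝ)) with hbr
  -- bad events
  set Bad : Site d → Set (Coupling d) := fun x => {J | ¬ Good J x R T} with hBad
  have hPbad : ∀ x, couplingLaw d (Bad x) ≤ ENNReal.ofReal br := by
    intro x
    refine (hgood d x R (8 * d) hd (by omega) (by omega) T hT0).trans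
      (ENNReal.ofReal_le_ofReal ?_)
    have h88 := card_ball_16 hbl d x
    rw [← hR] at h88
    have hk : ((8 * d : ℕ) : ℝ) = 8 * d := by push_cast; ring
    have hT2 : T ^ (2 * (8 * d)) = (8 * C' * Real.exp 4 * d) ^ (8 * d) := by
      rw [pow_mul, hT, mul_pow, hτ2, hsd2]
    rw [hT2, hk]
    have hpos : 0 < (8 * C' * Real.exp 4 * d) ^ (8 * d) := by positivity
    have e1 : Real.exp (2 * (8 * d : ℝ)) = (Real.exp 2) ^ (8 * d) := by
      rw [← Real.exp_nat_mul]; push_cast; ring_nf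
    rw [e1, div_le_iff₀ hpos]
    have e2 : Real.exp (-(16 * d : ℝ)) * (Real.exp 2) ^ (8 * d) = 1 := by
      rw [← Real.exp_nat_mul, ← Real.exp_add]
      push_cast; ring_nf; simp
    have e3 : (8 * C' * Real.exp 4 * (d : ℝ)) = (C' * (8 * d)) * (Real.exp 2 * Real.exp 2) := by
      rw [← Real.exp_add]; norm_num; ring
    calc 2 * ((ball x R).card : ℝ) * (C * (8 * d)) ^ (8 * d) * Real.exp 2 ^ (8 * d)
        ≤ 2 * 88 ^ d * (C' * (8 * d)) ^ (8 * d) * Real.exp 2 ^ (8 * d) := by gcongr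
      _ = 2 * 88 ^ d * (Real.exp (-(16 * d : ℝ)) * (Real.exp 2) ^ (8 * d)) *
            ((C' * (8 * d)) ^ (8 * d) * Real.exp 2 ^ (8 * d)) := by rw [e2]; ring
      _ = br * (8 * C' * Real.exp 4 * (d : ℝ)) ^ (8 * d) := by
          rw [e3, mul_pow, mul_pow, hbr]; ring
  -- numerical inequality
  have hnum : (180 : ℝ) ^ d * (εr + br) ≤ 1 / 2 := by
    have hexp := exp16_pow d
    have hsq : √((88 : ℝ) ^ d) ≤ (10 : ℝ) ^ d := by
      rw [Real.sqrt_le_left (by positivity), ← pow_mul, mul_comm, pow_mul]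
      exact pow_le_pow_left₀ (by norm_num) (by norm_num) d
    have hs2 : √(d : ℝ) ≤ 2 ^ d := by
      rw [Real.sqrt_le_left (by positivity)]
      have h1 : (d : ℝ) ≤ 2 ^ d := by exact_mod_cast (Nat.lt_two_pow_self (n := d)).le
      have h2 : (1 : ℝ) ≤ 2 ^ d := one_le_pow₀ (by norm_num)
      nlinarith
    have h1 : (180 : ℝ) ^ d * εr ≤ (1 / 1000) ^ d := by
      calc (180 : ℝ) ^ d * εr ≤ 180 ^ d * ((1 / 7000000) ^ d * 2 ^ d * 10 ^ d) := by
            rw [hεr]; gcongr
        _ = (180 * (1 / 7000000 * 2 * 10)) ^ d := by rw [mul_pow, mul_pow, mul_pow]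
        _ ≤ (1 / 1000) ^ d := pow_le_pow_left₀ (by norm_num) (by norm_num) d
    have h2 : (180 : ℝ) ^ d * br ≤ 2 * (1 / 400) ^ d := by
      calc (180 : ℝ) ^ d * br ≤ 180 ^ d * (2 * 88 ^ d * (1 / 7000000) ^ d) := by
            rw [hbr]; gcongr
        _ = 2 * (180 * 88 * (1 / 7000000)) ^ d := by rw [mul_pow, mul_pow]; ring
        _ ≤ 2 * (1 / 400) ^ d := by
            gcongr
            norm_num
    have h3 : ((1 : ℝ) / 1000) ^ d ≤ 1 / 1000 := by
      calc ((1 : ℝ) / 1000) ^ d ≤ (1 / 1000) ^ 1 :=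
            pow_le_pow_of_le_one (by norm_num) (by norm_num) hd
        _ = _ := by norm_num
    have h4 : ((1 : ℝ) / 400) ^ d ≤ 1 / 400 := by
      calc ((1 : ℝ) / 400) ^ d ≤ (1 / 400) ^ 1 :=
            pow_le_pow_of_le_one (by norm_num) (by norm_num) hd
        _ = _ := by norm_num
    rw [mul_add]
    linarith
  have hchain := hc d R Bad (ENNReal.ofReal br) (ENNReal.ofReal εr) (180 ^ d)
    (fun x J J' h => by
      constructor
      · intro hbad hG
        exact hbad (good_local x R T J' J (fun e he => (h e he).symm) hG)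
      · intro hbad hG
        exact hbad (good_local x R T J J' h hG))
    hPbad (fun x => card_ball_33 hbl d hd x)
    (by
      rw [← ENNReal.ofReal_add hεr0 (by positivity)]
      have : ((180 ^ d : ℕ) : ℝ≥0∞) = ENNReal.ofReal ((180 : ℝ) ^ d) := by
        rw [← ENNReal.ofReal_natCast]; push_cast; rfl
      rw [this, ← ENNReal.ofReal_mul (by positivity)]
      calc ENNReal.ofReal ((180 : ℝ) ^ d * (εr + br)) ≤ ENNReal.ofReal (1 / 2) :=
            ENNReal.ofReal_le_ofReal hnum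
        _ = 2⁻¹ := by
            rw [one_div, ENNReal.ofReal_inv_of_pos (by norm_num)]; norm_num)
  have key : ∀ᵐ J ∂(couplingLaw d), ∀ β : ℝ, 0 < β → β ≤ 1 / (4 * τ) / √(d : ℝ) →
      ∃! π : Measure (Site d → Bool), IsGibbs β J π := by
    filter_upwards [hchain] with J hJ β hβ0 hβ
    have hTβ : 4 * T * β ≤ 1 := by
      rw [hT]
      have : β * (4 * τ * √(d : ℝ)) ≤ 1 := by
        have h1 := mul_le_mul_of_nonneg_right hβ (show 0 ≤ 4 * τ * √(d : ℝ) by positivity)
        have h2 : 1 / (4 * τ) / √(d : ℝ) * (4 * τ * √(d : ℝ)) = 1 := by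
          field_simp
        linarith
      linarith
    set p : Site d → ℝ := fun x => if J ∈ Bad x then 1 else εr with hp
    have hp0 : ∀ x, 0 ≤ p x := by
      intro x; simp only [hp]; split_ifs <;> first | exact zero_le_one | exact hεr0
    have hpe : (fun x => ENNReal.ofReal (p x)) =
        fun x => @ite _ (J ∈ Bad x) (Classical.propDecidable _) (1 : ℝ≥0∞) (ENNReal.ofReal εr) := by
      funext x; simp only [hp]; split_ifs <;> simp
    have hinf : ∀ (x : Site d) (Λ : Finset (Site d)), x ∈ Λ → ∀ ω ω' : Site d → Bool,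
        (∀ y ∈ ball x R, y ∉ Λ → ω y = ω' y) →
        |gE β J Λ ω (ind x) - gE β J Λ ω' (ind x)| ≤ p x := by
      intro x Λ hxΛ ω ω' hω
      have hu01 : Unit01 (ind x) := by
        intro σ; unfold ind; split_ifs <;> norm_num
      by_cases hbad : J ∈ Bad x
      · simp only [hp, hbad, if_true]
        have h1 := (hb d β J Λ ω).1 _ hu01
        have h2 := (hb d β J Λ ω').1 _ hu01
        rw [abs_le]; constructor <;> linarith [h1.1, h1.2, h2.1, h2.2]
      · simp only [hp, hbad, if_false]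
        have hG : Good J x R T := by
          by_contra hcon; exact hbad hcon
        refine (hi d J x R T hT0 hG β hβ0 hTβ Λ hxΛ ω ω' hω).trans ?_
        have h88 := card_ball_16 hbl d x
        rw [← hR] at h88
        have e1 : Real.exp (-(R : ℝ)) = Real.exp (-(16 * d : ℝ)) := by
          rw [hR]; push_cast; rfl
        rw [e1, hεr]
        have e2 : 4 * β * d ≤ √(d : ℝ) := by
          have hβd : β * √(d : ℝ) ≤ 1 / (4 * τ) := by
            rw [le_div_iff₀ hsd0] at hβ; exact hβ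
          have h3 : 1 / (4 * τ) ≤ 1 / 4 := by
            apply one_div_le_one_div_of_le (by norm_num); linarith
          have h4 : β * √(d : ℝ) ≤ 1 / 4 := hβd.trans h3
          calc 4 * β * d = 4 * (β * √(d : ℝ)) * √(d : ℝ) := by
                nth_rewrite 1 [← hsd2]; ring
            _ ≤ 4 * (1 / 4) * √(d : ℝ) := by gcongr
            _ = √(d : ℝ) := by ring
        gcongr
    have hforget : Forget β J := by
      intro A δ hδ
      have hJA := hJ A
      obtain ⟨n, hn⟩ :=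
        ((ENNReal.tendsto_nhds_zero.mp hJA) (ENNReal.ofReal δ) (by simpa using hδ)).exists
      refine ⟨A.biUnion fun a => ball a ((n + 1) * (2 * R + 1)), fun Λ hΛ f hf hloc ω ω' => ?_⟩
      have hfar : ∀ a ∈ A, ∀ y, y ∉ Λ → (n + 1) * (2 * R + 1) ≤ dist1 a y := by
        intro a ha y hy
        by_contra hcon
        apply hy
        apply hΛ
        rw [Finset.mem_biUnion]
        exact ⟨a, ha, (mem_ball_iff a y _).2 (by omega)⟩
      have h := hx d R (2 * R) (by omega) β J p hp0 hinf A f hf hloc Λ n hfar ω ω'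
      rw [hpe] at h
      exact (ENNReal.ofReal_le_ofReal_iff hδ.le).1 (h.trans hn)
    obtain ⟨π, hπ⟩ := he d β J hforget
    exact ⟨π, hπ, fun π' hπ' => hu d β J hforget π' π hπ' hπ⟩
  filter_upwards [key] with J hJ
  refine ⟨hJ, ?_⟩
  have hβ0 : 0 < 1 / (4 * τ) / √(d : ℝ) := by positivity
  unfold betaC
  exact le_iSup₂_of_le (1 / (4 * τ) / √(d : ℝ)) ⟨hβ0, hJ _ hβ0 le_rfl⟩ le_rfl

end Pool.H47EA
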