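import Pool.Agent.H47R2.EA.St

/-!
# Existence of Gibbs states (helper273)
-/

set_option autoImplicit false

open MeasureTheory Filter Topology
open scoped ENNReal BoundedContinuousFunction

namespace Pool.H47EA

namespace GIBBSE

variable {d : ℕ}

theorem continuous_sg : Continuous sg := continuous_of_discreteTopology

theorem continuous_glue (Λ : Finset (Site d)) (η : Λ → Bool) :
    Continuous (fun ω : Site d → Bool => glue Λ η ω) := by
  apply continuous_pi
  intro x
  unfold glue
  by_cases h : x ∈ Λ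
  · simp only [h, dif_pos]
    exact continuous_const
  · simp only [h, dif_neg, not_false_eq_true]
    exact continuous_apply x

theorem continuous_bond (J : Coupling d) (e : Sym2 (Site d)) :
    Continuous (fun σ : Site d → Bool => bond J σ e) := by
  induction e using Sym2.ind with
  | _ x y =>
    change Continuous (fun σ : Site d → Bool => Jc J x y * sg (σ x) * sg (σ y))
    exact (continuous_const.mul (continuous_sg.comp (continuous_apply x))).mul
      (continuous_sg.comp (continuous_apply y))

theorem continuous_ham (J : Coupling d) (Λ : Finset (Site d)) :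
    Continuous (fun σ : Site d → Bool => ham J Λ σ) := by
  unfold ham
  exact continuous_finset_sum _ fun e _ => continuous_bond J e

theorem continuous_wexp (β : ℝ) (J : Coupling d) (Λ : Finset (Site d)) (η : Λ → Bool) :
    Continuous (fun ω : Site d → Bool => Real.exp (β * ham J Λ (glue Λ η ω))) :=
  Real.continuous_exp.comp (continuous_const.mul
    ((continuous_ham J Λ).comp (continuous_glue Λ η)))

theorem continuous_Zp (β : ℝ) (J : Coupling d) (Λ : Finset (Site d)) :
    Continuous (fun ω : Site d → Bool => Zp β J Λ ω) := by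
  unfold Zp
  exact continuous_finset_sum _ fun η _ => continuous_wexp β J Λ η

theorem Zp_pos (β : ℝ) (J : Coupling d) (Λ : Finset (Site d)) (ω : Site d → Bool) :
    0 < Zp β J Λ ω := by
  unfold Zp
  exact Finset.sum_pos (fun η _ => Real.exp_pos _) Finset.univ_nonempty

/-- normalised weights -/
noncomputable def ww (β : ℝ) (J : Coupling d) (Λ : Finset (Site d)) (η : Λ → Bool)
    (ω : Site d → Bool) : ℝ := Real.exp (β * ham J Λ (glue Λ η ω)) / Zp β J Λ ω

theorem continuous_ww (β : ℝ) (J : Coupling d) (Λ : Finset (Site d)) (η : Λ → Bool) :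
    Continuous (ww β J Λ η) :=
  (continuous_wexp β J Λ η).div (continuous_Zp β J Λ) fun ω => (Zp_pos β J Λ ω).ne'

theorem ww_nonneg (β : ℝ) (J : Coupling d) (Λ : Finset (Site d)) (η : Λ → Bool)
    (ω : Site d → Bool) : 0 ≤ ww β J Λ η ω :=
  div_nonneg (Real.exp_pos _).le (Zp_pos β J Λ ω).le

theorem ww_sum (β : ℝ) (J : Coupling d) (Λ : Finset (Site d)) (ω : Site d → Bool) :
    ∑ η, ww β J Λ η ω = 1 := by
  unfold ww
  rw [← Finset.sum_div]
  exact div_self (Zp_pos β J Λ ω).ne'

theorem ww_le_one (β : ℝ) (J : Coupling d) (Λ : Finset (Site d)) (η : Λ → Bool)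
    (ω : Site d → Bool) : ww β J Λ η ω ≤ 1 := by
  rw [← ww_sum β J Λ ω]
  exact Finset.single_le_sum (fun η _ => ww_nonneg β J Λ η ω) (Finset.mem_univ η)

theorem gE_eq (β : ℝ) (J : Coupling d) (Λ : Finset (Site d)) (ω : Site d → Bool)
    (f : (Site d → Bool) → ℝ) :
    gE β J Λ ω f = ∑ η, ww β J Λ η ω * f (glue Λ η ω) := by
  unfold gE ww
  rw [Finset.sum_div]
  exact Finset.sum_congr rfl fun η _ => by ring

theorem continuous_gE (β : ℝ) (J : Coupling d) (Λ : Finset (Site d))
    (f : (Site d → Bool) → ℝ) (hf : Continuous f) :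
    Continuous (fun ω => gE β J Λ ω f) := by
  simp only [gE_eq]
  exact continuous_finset_sum _ fun η _ =>
    (continuous_ww β J Λ η).mul (hf.comp (continuous_glue Λ η))

/-- the Gibbs kernel applied to a measure -/
noncomputable def KK (β : ℝ) (J : Coupling d) (Λ : Finset (Site d))
    (π : Measure (Site d → Bool)) : Measure (Site d → Bool) :=
  ∑ η : Λ → Bool, (π.withDensity fun ω => ENNReal.ofReal (ww β J Λ η ω)).map (glue Λ η)

theorem integral_KK (β : ℝ) (J : Coupling d) (Λ : Finset (Site d))
    (π : Measure (Site d → Bool)) [IsProbabilityMeasure π]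
    (f : (Site d → Bool) → ℝ) (hf : Measurable f) (C : ℝ) (hC : ∀ x, |f x| ≤ C) :
    ∫ ω, f ω ∂(KK β J Λ π) = ∫ ω, gE β J Λ ω f ∂π := by
  have hg : ∀ η : Λ → Bool, Measurable (glue Λ η) := fun η => (continuous_glue Λ η).measurable
  have hw : ∀ η : Λ → Bool, Measurable (fun ω => ENNReal.ofReal (ww β J Λ η ω)) :=
    fun η => (continuous_ww β J Λ η).measurable.ennreal_ofReal
  have hfin : ∀ η : Λ → Bool,
      IsFiniteMeasure (π.withDensity fun ω => ENNReal.ofReal (ww β J Λ η ω)) := by
    intro η
    apply isFiniteMeasure_withDensity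
    have : ∫⁻ ω, ENNReal.ofReal (ww β J Λ η ω) ∂π ≤ ∫⁻ _, 1 ∂π := by
      apply lintegral_mono
      intro ω
      calc ENNReal.ofReal (ww β J Λ η ω) ≤ ENNReal.ofReal 1 :=
            ENNReal.ofReal_le_ofReal (ww_le_one β J Λ η ω)
        _ = 1 := ENNReal.ofReal_one
    refine ne_top_of_le_ne_top ?_ this
    simp
  have hint : ∀ η : Λ → Bool,
      Integrable f ((π.withDensity fun ω => ENNReal.ofReal (ww β J Λ η ω)).map (glue Λ η)) := by
    intro η
    have := hfin η
    have h2 : IsFiniteMeasure
        ((π.withDensity fun ω => ENNReal.ofReal (ww β J Λ η ω)).map (glue Λ η)) :=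
      Measure.isFiniteMeasure_map _ _
    exact Integrable.of_bound hf.aestronglyMeasurable C (ae_of_all _ hC)
  unfold KK
  rw [integral_finset_sum_measure fun η _ => hint η]
  have h1 : ∀ η : Λ → Bool,
      ∫ ω, f ω ∂((π.withDensity fun ω => ENNReal.ofReal (ww β J Λ η ω)).map (glue Λ η)) =
        ∫ ω, ww β J Λ η ω * f (glue Λ η ω) ∂π := by
    intro η
    rw [integral_map (hg η).aemeasurable hf.aestronglyMeasurable,
      integral_withDensity_eq_integral_toReal_smul (hw η) (ae_of_all _ fun ω => ENNReal.ofReal_lt_top)]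
    refine integral_congr_ae (ae_of_all _ fun ω => ?_)
    simp only [smul_eq_mul]
    rw [ENNReal.toReal_ofReal (ww_nonneg β J Λ η ω)]
  rw [Finset.sum_congr rfl fun η _ => h1 η, ← integral_finset_sum]
  · exact integral_congr_ae (ae_of_all _ fun ω => (gE_eq β J Λ ω f).symm)
  · intro η _
    refine Integrable.of_bound ?_ C (ae_of_all _ fun ω => ?_)
    · exact ((continuous_ww β J Λ η).measurable.mul (hf.comp (hg η))).aestronglyMeasurable
    · rw [Real.norm_eq_abs, abs_mul, abs_of_nonneg (ww_nonneg β J Λ η ω)]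
      calc ww β J Λ η ω * |f (glue Λ η ω)| ≤ 1 * |f (glue Λ η ω)| :=
            mul_le_mul_of_nonneg_right (ww_le_one β J Λ η ω) (abs_nonneg _)
        _ ≤ C := by rw [one_mul]; exact hC _

theorem prob_KK (β : ℝ) (J : Coupling d) (Λ : Finset (Site d))
    (π : Measure (Site d → Bool)) [IsProbabilityMeasure π] :
    IsProbabilityMeasure (KK β J Λ π) := by
  constructor
  have hg : ∀ η : Λ → Bool, Measurable (glue Λ η) := fun η => (continuous_glue Λ η).measurable
  unfold KK
  rw [Measure.finset_sum_apply]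
  have h1 : ∀ η : Λ → Bool,
      ((π.withDensity fun ω => ENNReal.ofReal (ww β J Λ η ω)).map (glue Λ η)) Set.univ =
        ∫⁻ ω, ENNReal.ofReal (ww β J Λ η ω) ∂π := by
    intro η
    rw [Measure.map_apply (hg η) MeasurableSet.univ, Set.preimage_univ,
      withDensity_apply _ MeasurableSet.univ, Measure.restrict_univ]
  rw [Finset.sum_congr rfl fun η _ => h1 η, ← lintegral_finset_sum]
  · have h2 : ∀ ω, ∑ η, ENNReal.ofReal (ww β J Λ η ω) = 1 := by
      intro ω
      rw [← ENNReal.ofReal_sum_of_nonneg fun η _ => ww_nonneg β J Λ η ω, ww_sum,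
        ENNReal.ofReal_one]
    simp only [h2]
    simp
  · intro η _
    exact (continuous_ww β J Λ η).measurable.ennreal_ofReal

theorem integral_KK_dirac (β : ℝ) (J : Coupling d) (Λ : Finset (Site d)) (ω₀ : Site d → Bool)
    (f : (Site d → Bool) → ℝ) (hf : Measurable f) (C : ℝ) (hC : ∀ x, |f x| ≤ C) :
    ∫ ω, f ω ∂(KK β J Λ (Measure.dirac ω₀)) = gE β J Λ ω₀ f := by
  rw [integral_KK β J Λ _ f hf C hC, integral_dirac]

end GIBBSE

open GIBBSE

theorem t_GIBBSE (hb : St_BASIC) : St_GIBBSE := by
  intro d β J _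
  let ω₀ : Site d → Bool := fun _ => true
  let P : Finset (Site d) → ProbabilityMeasure (Site d → Bool) := fun Λ =>
    ⟨KK β J Λ (Measure.dirac ω₀), prob_KK β J Λ _⟩
  let U : Ultrafilter (Finset (Site d)) := Ultrafilter.of atTop
  have hU : (U : Filter (Finset (Site d))) ≤ atTop := Ultrafilter.of_le _
  obtain ⟨π, -, hπ⟩ := (isCompact_univ (X := ProbabilityMeasure (Site d → Bool))).ultrafilter_le_nhds
    (U.map P) (by simp)
  have hlim : Tendsto P U (𝓝 π) := hπ
  have hconv : ∀ f : (Site d → Bool) → ℝ, Continuous f →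
      Tendsto (fun Λ => gE β J Λ ω₀ f) U (𝓝 (∫ ω, f ω ∂(π : Measure (Site d → Bool)))) := by
    intro f hf
    let F : (Site d → Bool) →ᵇ ℝ := BoundedContinuousFunction.mkOfCompact ⟨f, hf⟩
    have h1 := (ProbabilityMeasure.tendsto_iff_forall_integral_tendsto.mp hlim) F
    refine h1.congr fun Λ => ?_
    exact integral_KK_dirac β J Λ ω₀ f hf.measurable ‖F‖ fun x => F.norm_coe_le_norm x
  -- invariance
  have hinv : ∀ (Λ : Finset (Site d)) (f : (Site d → Bool) → ℝ), Continuous f →
      ∫ ω, gE β J Λ ω f ∂(π : Measure (Site d → Bool)) =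
        ∫ ω, f ω ∂(π : Measure (Site d → Bool)) := by
    intro Λ f hf
    have h1 := hconv f hf
    have h2 := hconv (fun ω => gE β J Λ ω f) (continuous_gE β J Λ f hf)
    refine tendsto_nhds_unique h2 (h1.congr' ?_)
    have h3 : ∀ᶠ Λ' in (U : Filter (Finset (Site d))), Λ ⊆ Λ' := hU (eventually_ge_atTop Λ)
    filter_upwards [h3] with Λ' hΛ
    exact (hb d β J Λ' ω₀).2.2.2.2.2.1 Λ hΛ f
  have hK : ∀ Λ : Finset (Site d), KK β J Λ (π : Measure (Site d → Bool)) =
      (π : Measure (Site d → Bool)) := by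
    intro Λ
    have := prob_KK β J Λ (π : Measure (Site d → Bool))
    haveI : TopologicalSpace.MetrizableSpace (Site d → Bool) :=
      TopologicalSpace.metrizableSpace_of_t3_secondCountable _
    letI : MetricSpace (Site d → Bool) := TopologicalSpace.metrizableSpaceMetric _
    apply ext_of_forall_integral_eq_of_IsFiniteMeasure
    intro f
    rw [integral_KK β J Λ _ f f.continuous.measurable ‖f‖ fun x => f.norm_coe_le_norm x]
    exact hinv Λ f f.continuous
  refine ⟨π, inferInstance, ?_⟩
  intro a b A hA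
  have hind : Measurable (A.indicator fun _ => (1 : ℝ)) := measurable_const.indicator hA
  have h1 := integral_KK β J (Finset.Icc a b) (π : Measure (Site d → Bool))
    (A.indicator fun _ => (1 : ℝ)) hind 1 (by
      intro x
      by_cases hx : x ∈ A
      · simp [hx]
      · simp [hx])
  rw [← h1, hK, integral_indicator hA]
  simp [Measure.real]

end Pool.H47EA
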