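import Pool.Agent.H47R2.EA.St

/-!
# Task GOOD: the ball is good with overwhelming probability
-/

set_option autoImplicit false

open MeasureTheory
open scoped ENNReal

namespace Pool.H47EA

namespace GoodAux

/-! ### Entries of products of matrices as sums over paths -/

theorem path_sum {V : Type} [Fintype V] [DecidableEq V] (A P : ℕ → Matrix V V ℝ) (h0 : P 0 = 1)
    (hs : ∀ n, P (n + 1) = P n * A n) (n : ℕ) (y y' : V) :
    P n y y' = ∑ p : Fin (n + 1) → V, if p 0 = y ∧ p (Fin.last n) = y' then
      ∏ i : Fin n, A i (p i.castSucc) (p i.succ) else 0 := by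
  induction n generalizing y' with
  | zero =>
    rw [h0, Matrix.one_apply]
    rw [Fintype.sum_equiv (Equiv.funUnique (Fin 1) V) _
      (fun v => if v = y ∧ v = y' then (1 : ℝ) else 0)]
    · by_cases h : y = y'
      · subst h
        simp
      · rw [if_neg h]
        symm
        apply Finset.sum_eq_zero
        intro v _
        rw [if_neg]
        rintro ⟨h1, h2⟩
        exact h (h1.symm.trans h2)
    · intro p
      simp only [Finset.univ_eq_empty, Finset.prod_empty]
      rfl
  | succ n ih =>
    rw [hs, Matrix.mul_apply]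
    have e1 : ∀ v : V, P n y v * A n v y' = ∑ p : Fin (n + 1) → V,
        if p 0 = y ∧ p (Fin.last n) = v then
          (∏ i : Fin n, A i (p i.castSucc) (p i.succ)) * A n v y' else 0 := by
      intro v
      rw [ih, Finset.sum_mul]
      apply Finset.sum_congr rfl
      intro p _
      split_ifs <;> simp
    rw [Finset.sum_congr rfl fun v _ => e1 v, Finset.sum_comm]
    have e2 : ∀ p : Fin (n + 1) → V, (∑ v : V, if p 0 = y ∧ p (Fin.last n) = v then
          (∏ i : Fin n, A i (p i.castSucc) (p i.succ)) * A n v y' else 0) =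
        if p 0 = y then (∏ i : Fin n, A i (p i.castSucc) (p i.succ)) * A n (p (Fin.last n)) y'
          else 0 := by
      intro p
      by_cases h : p 0 = y
      · simp only [h, true_and, if_true]
        rw [Finset.sum_ite_eq Finset.univ (p (Fin.last n))]
        simp
      · simp [h]
    rw [Finset.sum_congr rfl fun p _ => e2 p]
    rw [← (Fin.snocEquiv (fun _ : Fin (n + 2) => V)).sum_comp]
    rw [Fintype.sum_prod_type]
    rw [Finset.sum_comm]
    apply Finset.sum_congr rfl
    intro p _
    have e3 : ∀ v : V, (if (Fin.snocEquiv (fun _ : Fin (n + 2) => V)) (v, p) 0 = y ∧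
        (Fin.snocEquiv (fun _ : Fin (n + 2) => V)) (v, p) (Fin.last (n + 1)) = y' then
        ∏ i : Fin (n + 1), A i ((Fin.snocEquiv (fun _ : Fin (n + 2) => V)) (v, p) i.castSucc)
          ((Fin.snocEquiv (fun _ : Fin (n + 2) => V)) (v, p) i.succ) else 0) =
        if v = y' then (if p 0 = y then (∏ i : Fin n, A i (p i.castSucc) (p i.succ)) *
          A n (p (Fin.last n)) y' else 0) else 0 := by
      intro v
      have h1 : (Fin.snocEquiv (fun _ : Fin (n + 2) => V)) (v, p) 0 = p 0 := by
        have : (0 : Fin (n + 2)) = Fin.castSucc (0 : Fin (n + 1)) := rfl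
        rw [this]
        exact Fin.snoc_castSucc (α := fun _ : Fin (n + 2) => V) v p 0
      have h2 : (Fin.snocEquiv (fun _ : Fin (n + 2) => V)) (v, p) (Fin.last (n + 1)) = v :=
        Fin.snoc_last (α := fun _ : Fin (n + 2) => V) v p
      have h3 : ∀ i : Fin (n + 1),
          (Fin.snocEquiv (fun _ : Fin (n + 2) => V)) (v, p) i.castSucc = p i := fun i =>
        Fin.snoc_castSucc (α := fun _ : Fin (n + 2) => V) v p i
      have h4 : ∀ i : Fin n,
          (Fin.snocEquiv (fun _ : Fin (n + 2) => V)) (v, p) i.castSucc.succ = p i.succ := by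
        intro i
        rw [Fin.succ_castSucc]
        exact h3 _
      rw [h1, h2, Fin.prod_univ_castSucc]
      have h5 : (Fin.snocEquiv (fun _ : Fin (n + 2) => V)) (v, p) (Fin.last n).succ = v := by
        rw [Fin.succ_last]
        exact h2
      rw [h3, h5]
      have h6 : ∏ i : Fin n, A (i.castSucc : Fin (n + 1))
          ((Fin.snocEquiv (fun _ : Fin (n + 2) => V)) (v, p) i.castSucc.castSucc)
          ((Fin.snocEquiv (fun _ : Fin (n + 2) => V)) (v, p) i.castSucc.succ) =
          ∏ i : Fin n, A i (p i.castSucc) (p i.succ) := by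
        apply Finset.prod_congr rfl
        intro i _
        rw [h3, h4]
        rfl
      rw [h6, Fin.val_last]
      by_cases hv : v = y'
      · subst hv
        by_cases hp : p 0 = y <;> simp [hp]
      · simp [hv]
    rw [Finset.sum_congr rfl fun v _ => e3 v, Finset.sum_ite_eq' Finset.univ y']
    simp

/-! ### Geometry -/

theorem dist1_triangle {d : ℕ} (x y z : Site d) : dist1 x z ≤ dist1 x y + dist1 y z := by
  unfold dist1
  rw [← Finset.sum_add_distrib]
  apply Finset.sum_le_sum
  intro i _
  omega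

theorem dist1_comm {d : ℕ} (x y : Site d) : dist1 x y = dist1 y x := by
  unfold dist1
  apply Finset.sum_congr rfl
  intro i _
  omega

theorem adj_iff {d : ℕ} {x y : Site d} : (lat d).Adj x y ↔ dist1 x y = 1 := Iff.rfl

theorem neighbor_bound {d : ℕ} (x : Site d) :
    ((lat d).neighborSet x).Finite ∧ ((lat d).neighborSet x).ncard ≤ 2 * d := by
  classical
  set F : Finset (Site d) := Finset.univ.image (fun q : Fin d × Bool =>
    Function.update x q.1 (x q.1 + if q.2 then 1 else -1)) with hF
  have hsub : (lat d).neighborSet x ⊆ (F : Set (Site d)) := by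
    intro y hy
    rw [SimpleGraph.mem_neighborSet, adj_iff] at hy
    unfold dist1 at hy
    -- some coordinate differs by one
    have hex : ∃ i, (x i - y i).natAbs ≠ 0 := by
      by_contra h
      push Not at h
      rw [Finset.sum_eq_zero fun i _ => h i] at hy
      exact absurd hy (by norm_num)
    obtain ⟨i, hi⟩ := hex
    have h1 := Finset.add_sum_erase Finset.univ (fun j => (x j - y j).natAbs) (Finset.mem_univ i)
    rw [hy] at h1
    have h2 : (x i - y i).natAbs = 1 := by omega
    have h3 : ∑ j ∈ Finset.univ.erase i, (x j - y j).natAbs = 0 := by omega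
    rw [Finset.sum_eq_zero_iff] at h3
    rw [hF, Finset.mem_coe, Finset.mem_image]
    refine ⟨(i, decide (y i = x i + 1)), Finset.mem_univ _, ?_⟩
    funext j
    by_cases hj : j = i
    · subst hj
      rw [Function.update_self]
      dsimp only
      by_cases h : y j = x j + 1
      · simp [h]
      · simp only [h, decide_false, Bool.false_eq_true, if_false]
        omega
    · rw [Function.update_of_ne hj]
      have := h3 j (Finset.mem_erase.2 ⟨hj, Finset.mem_univ _⟩)
      omega
  have hfin : ((lat d).neighborSet x).Finite := (Finset.finite_toSet F).subset hsub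
  refine ⟨hfin, ?_⟩
  calc ((lat d).neighborSet x).ncard ≤ (F : Set (Site d)).ncard :=
        Set.ncard_le_ncard hsub (Finset.finite_toSet F)
    _ = F.card := Set.ncard_coe_finset F
    _ ≤ (Finset.univ : Finset (Fin d × Bool)).card := Finset.card_image_le
    _ = 2 * d := by
        rw [Finset.card_univ, Fintype.card_prod, Fintype.card_fin, Fintype.card_bool, mul_comm]

/-! ### The weighted matrix -/

variable {d : ℕ}

/-- the weighted signed adjacency matrix of the ball -/
noncomputable def XM (ω : Site d → Site d → ℝ) (J : Coupling d) (x : Site d) (R : ℕ) :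
    Matrix {y // y ∈ ball x R} {y // y ∈ ball x R} ℝ := fun y z => ω y.1 z.1 * Jc J y.1 z.1

/-- the weights of the factors -/
noncomputable def WM (ω : Site d → Site d → ℝ) (i : ℕ) (y z : Site d) : ℝ :=
  if Even i then ω y z else ω z y

/-- the factors -/
noncomputable def AM (ω : Site d → Site d → ℝ) (J : Coupling d) (x : Site d) (R : ℕ) (i : ℕ) :
    Matrix {y // y ∈ ball x R} {y // y ∈ ball x R} ℝ :=
  if Even i then XM ω J x R else (XM ω J x R).transpose

theorem AM_apply (ω : Site d → Site d → ℝ) (J : Coupling d) (x : Site d) (R : ℕ) (i : ℕ)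
    (y z : {y // y ∈ ball x R}) :
    AM ω J x R i y z = WM ω i y.1 z.1 * Jc J y.1 z.1 := by
  unfold AM WM
  split_ifs
  · rfl
  · rw [Matrix.transpose_apply]
    unfold XM
    rw [Jc_comm]

/-- the partial products -/
noncomputable def PM (ω : Site d → Site d → ℝ) (J : Coupling d) (x : Site d) (R : ℕ) :
    ℕ → Matrix {y // y ∈ ball x R} {y // y ∈ ball x R} ℝ
  | 0 => 1
  | n + 1 => PM ω J x R n * AM ω J x R n

theorem PM_two_mul (ω : Site d → Site d → ℝ) (J : Coupling d) (x : Site d) (R k : ℕ) :
    PM ω J x R (2 * k) = (XM ω J x R * (XM ω J x R).transpose) ^ k := by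
  induction k with
  | zero => rfl
  | succ k ih =>
    rw [show 2 * (k + 1) = 2 * k + 1 + 1 from by ring, PM, PM, ih, pow_succ]
    have h1 : AM ω J x R (2 * k) = XM ω J x R := by
      unfold AM
      rw [if_pos (even_two_mul k)]
    have h2 : AM ω J x R (2 * k + 1) = (XM ω J x R).transpose := by
      unfold AM
      rw [if_neg]
      rw [Nat.not_even_iff_odd]
      exact odd_two_mul_add_one k
    rw [h1, h2, Matrix.mul_assoc]

theorem trace_eq (ω : Site d → Site d → ℝ) (J : Coupling d) (x : Site d) (R k : ℕ) :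
    Matrix.trace ((XM ω J x R * (XM ω J x R).transpose) ^ k) =
      ∑ p : Fin (2 * k + 1) → {y // y ∈ ball x R}, if p 0 = p (Fin.last (2 * k)) then
        (∏ i : Fin (2 * k), WM ω i (p i.castSucc).1 (p i.succ).1) *
          ∏ i : Fin (2 * k), Jc J (p i.castSucc).1 (p i.succ).1 else 0 := by
  rw [← PM_two_mul, Matrix.trace]
  simp only [Matrix.diag_apply]
  have h1 : ∀ y, PM ω J x R (2 * k) y y = _ := fun y =>
    path_sum (AM ω J x R) (PM ω J x R) rfl (fun n => rfl) (2 * k) y y
  rw [Finset.sum_congr rfl fun y _ => h1 y, Finset.sum_comm]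
  apply Finset.sum_congr rfl
  intro p _
  have h2 : (∏ i : Fin (2 * k), AM ω J x R i (p i.castSucc) (p i.succ)) =
      (∏ i : Fin (2 * k), WM ω i (p i.castSucc).1 (p i.succ).1) *
          ∏ i : Fin (2 * k), Jc J (p i.castSucc).1 (p i.succ).1 := by
    rw [← Finset.prod_mul_distrib]
    apply Finset.prod_congr rfl
    intro i _
    exact AM_apply ω J x R i _ _
  rw [h2]
  by_cases h : p 0 = p (Fin.last (2 * k))
  · rw [if_pos h]
    rw [Finset.sum_eq_single (p 0)]
    · rw [if_pos ⟨rfl, h.symm⟩]
    · intro b _ hb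
      rw [if_neg]
      rintro ⟨h', _⟩
      exact hb h'.symm
    · intro h'
      exact absurd (Finset.mem_univ _) h'
  · rw [if_neg h]
    apply Finset.sum_eq_zero
    intro b _
    rw [if_neg]
    rintro ⟨h', h''⟩
    exact h (h'.trans h''.symm)

theorem measurable_Jc (y z : Site d) : Measurable (fun J : Coupling d => Jc J y z) := by
  unfold Jc
  by_cases h : (lat d).Adj y z
  · simp only [h, dif_pos]
    exact (measurable_of_finite sg).comp (measurable_pi_apply _)
  · simp only [h, dif_neg, not_false_eq_true]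
    exact measurable_const

theorem abs_Jc_le (J : Coupling d) (y z : Site d) : |Jc J y z| ≤ 1 := by
  unfold Jc
  split_ifs with h
  · unfold sg
    split_ifs <;> simp
  · simp

theorem integrable_prod (n : ℕ) (p : Fin (n + 1) → Site d) :
    Integrable (fun J : Coupling d => ∏ i : Fin n, Jc J (p i.castSucc) (p i.succ))
      (couplingLaw d) := by
  apply Integrable.of_bound (C := 1)
  · apply Measurable.aestronglyMeasurable
    exact Finset.measurable_prod _ fun i _ => measurable_Jc _ _
  · apply Filter.Eventually.of_forall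
    intro J
    rw [Real.norm_eq_abs, Finset.abs_prod]
    exact Finset.prod_le_one (fun i _ => abs_nonneg _) fun i _ => abs_Jc_le J _ _

open Classical in
/-- expectation of the trace -/
theorem integral_trace (hs : St_SIGN) (ω : Site d → Site d → ℝ) (x : Site d) (R k : ℕ) :
    Integrable (fun J : Coupling d =>
        Matrix.trace ((XM ω J x R * (XM ω J x R).transpose) ^ k)) (couplingLaw d) ∧
    ∫ J, Matrix.trace ((XM ω J x R * (XM ω J x R).transpose) ^ k) ∂(couplingLaw d) =
      ∑ p : Fin (2 * k + 1) → {y // y ∈ ball x R},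
        if p 0 = p (Fin.last (2 * k)) ∧
          (∀ i : Fin (2 * k), (lat d).Adj (p i.castSucc).1 (p i.succ).1) ∧
            EvenP (2 * k) (fun i => (p i).1) then
        (∏ i : Fin (2 * k), WM ω i (p i.castSucc).1 (p i.succ).1) else 0 := by
  have hint : ∀ p : Fin (2 * k + 1) → {y // y ∈ ball x R},
      Integrable (fun J : Coupling d => if p 0 = p (Fin.last (2 * k)) then
        (∏ i : Fin (2 * k), WM ω i (p i.castSucc).1 (p i.succ).1) *
          ∏ i : Fin (2 * k), Jc J (p i.castSucc).1 (p i.succ).1 else 0) (couplingLaw d) := by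
    intro p
    by_cases h : p 0 = p (Fin.last (2 * k))
    · simp only [h, if_true]
      exact (integrable_prod (2 * k) (fun i => (p i).1)).const_mul _
    · simp only [h, if_false]
      exact integrable_zero _ _ _
  simp only [trace_eq]
  refine ⟨integrable_finsetSum _ fun p _ => hint p, ?_⟩
  rw [integral_finsetSum _ fun p _ => hint p]
  apply Finset.sum_congr rfl
  intro p _
  by_cases h : p 0 = p (Fin.last (2 * k))
  · simp only [h, if_true, true_and]
    rw [integral_const_mul]
    have h1 := hs d (2 * k) (fun i => (p i).1)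
    rw [h1]
    split_ifs <;> simp
  · simp [h]

open Classical in
theorem trace_bound (hc : St_COMB) {C : ℝ} (hk : ∀ r k : ℕ, 1 ≤ k → r ≤ 2 * k → ∀ o : Fin r,
    ((evenWalks (⊤ : SimpleGraph (Fin r)) o (2 * k)).ncard : ℝ) ≤ (C * k) ^ k)
    (hs : St_SIGN) (ω : Site d → Site d → ℝ)
    (hω : ∀ y z, (lat d).Adj y z → 0 ≤ ω y z ∧ ω y z ≤ Real.exp 1) (x : Site d) (R k : ℕ)
    (hk1 : 1 ≤ k) (hdk : 2 * d + k + 1 ≤ 2 * k) :
    ∫ J, Matrix.trace ((XM ω J x R * (XM ω J x R).transpose) ^ k) ∂(couplingLaw d) ≤
      ((ball x R).card : ℝ) * (C * k) ^ k * Real.exp (2 * k) := by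
  rw [(integral_trace hs ω x R k).2]
  set S := Finset.univ.filter (fun p : Fin (2 * k + 1) → {y // y ∈ ball x R} =>
    p 0 = p (Fin.last (2 * k)) ∧
          (∀ i : Fin (2 * k), (lat d).Adj (p i.castSucc).1 (p i.succ).1) ∧
            EvenP (2 * k) (fun i => (p i).1)) with hS
  have h1 : (∑ p : Fin (2 * k + 1) → {y // y ∈ ball x R},
        if p 0 = p (Fin.last (2 * k)) ∧
          (∀ i : Fin (2 * k), (lat d).Adj (p i.castSucc).1 (p i.succ).1) ∧
            EvenP (2 * k) (fun i => (p i).1) then
        (∏ i : Fin (2 * k), WM ω i (p i.castSucc).1 (p i.succ).1) else 0) ≤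
      S.card * Real.exp (2 * k) := by
    rw [← Finset.sum_filter, ← nsmul_eq_mul, ← Finset.sum_const]
    apply Finset.sum_le_sum
    intro p hp
    rw [Finset.mem_filter] at hp
    have h2 : ∀ i : Fin (2 * k), 0 ≤ WM ω i (p i.castSucc).1 (p i.succ).1 ∧
        WM ω i (p i.castSucc).1 (p i.succ).1 ≤ Real.exp 1 := by
      intro i
      have h3 := hp.2.2.1 i
      unfold WM
      split_ifs
      · exact hω _ _ h3
      · exact hω _ _ h3.symm
    calc (∏ i : Fin (2 * k), WM ω i (p i.castSucc).1 (p i.succ).1) ≤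
          ∏ _i : Fin (2 * k), Real.exp 1 :=
          Finset.prod_le_prod (fun i _ => (h2 i).1) fun i _ => (h2 i).2
      _ = Real.exp (2 * k) := by
          rw [Finset.prod_const, Finset.card_univ, Fintype.card_fin, ← Real.exp_nat_mul]
          push_cast
          ring_nf
  refine h1.trans ?_
  have h3 : (S.card : ℝ) ≤ ((ball x R).card : ℝ) * (C * k) ^ k := by
    have hr : 0 < 2 * d + k + 1 := by omega
    set o : Fin (2 * d + k + 1) := ⟨0, hr⟩ with ho
    have hfin := fun y : Site d => hc (Site d) (lat d) (2 * d) k (2 * d + k + 1)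
      (fun y => neighbor_bound y) le_rfl y o
    set U : Finset (Fin (2 * k + 1) → Site d) :=
      (ball x R).biUnion (fun y => (hfin y).1.toFinset) with hU
    have h4 : S.card ≤ U.card := by
      apply Finset.card_le_card_of_injOn (fun p => fun i => (p i).1)
      · intro p hp
        rw [Finset.mem_coe, Finset.mem_filter] at hp
        rw [Finset.mem_coe, hU, Finset.mem_biUnion]
        refine ⟨(p 0).1, (p 0).2, ?_⟩
        rw [Set.Finite.mem_toFinset]
        refine ⟨rfl, ?_, hp.2.2.1, ?_⟩
        · dsimp only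
          rw [← hp.2.1]
        · convert hp.2.2.2
      · intro p _ p' _ h
        funext i
        exact Subtype.ext (congrFun h i)
    calc (S.card : ℝ) ≤ U.card := by exact_mod_cast h4
      _ ≤ ((∑ y ∈ ball x R, ((hfin y).1.toFinset).card : ℕ) : ℝ) := by
          exact_mod_cast Finset.card_biUnion_le
      _ = ∑ y ∈ ball x R, (((hfin y).1.toFinset).card : ℝ) := by push_cast; rfl
      _ ≤ ∑ y ∈ ball x R, (C * k) ^ k := by
          apply Finset.sum_le_sum
          intro y _
          have h5 := (hfin y).2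
          rw [Set.ncard_eq_toFinset_card _ (hfin y).1] at h5
          calc (((hfin y).1.toFinset).card : ℝ) ≤
              ((evenWalks (⊤ : SimpleGraph (Fin (2 * d + k + 1))) o (2 * k)).ncard : ℝ) := by
                exact_mod_cast h5
            _ ≤ (C * k) ^ k := hk _ k hk1 hdk o
      _ = _ := by rw [Finset.sum_const, nsmul_eq_mul]
  gcongr

theorem trace_nonneg (ω : Site d → Site d → ℝ) (J : Coupling d) (x : Site d) (R k : ℕ) :
    0 ≤ Matrix.trace ((XM ω J x R * (XM ω J x R).transpose) ^ k) := by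
  have h1 : (XM ω J x R * (XM ω J x R).transpose).PosSemidef := by
    have := Matrix.posSemidef_self_mul_conjTranspose (XM ω J x R)
    rwa [Matrix.conjTranspose_eq_transpose_of_trivial] at this
  exact (h1.pow k).trace_nonneg

/-- the bad event for one weight -/
theorem half_bound (hc : St_COMB) {C : ℝ} (hk : ∀ r k : ℕ, 1 ≤ k → r ≤ 2 * k → ∀ o : Fin r,
    ((evenWalks (⊤ : SimpleGraph (Fin r)) o (2 * k)).ncard : ℝ) ≤ (C * k) ^ k)
    (ht : St_TRACE) (hs : St_SIGN) (ω : Site d → Site d → ℝ)
    (hω : ∀ y z, (lat d).Adj y z → 0 ≤ ω y z ∧ ω y z ≤ Real.exp 1) (x : Site d) (R k : ℕ)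
    (hk1 : 1 ≤ k) (hdk : 2 * d + k + 1 ≤ 2 * k) {T : ℝ} (hT : 0 < T) :
    couplingLaw d {J | ¬ ∀ u v : Site d → ℝ,
      |∑ y ∈ ball x R, ∑ z ∈ ball x R, u y * (ω y z * Jc J y z) * v z| ≤
      T * √(∑ y ∈ ball x R, u y ^ 2) * √(∑ y ∈ ball x R, v y ^ 2)} ≤
      ENNReal.ofReal (((ball x R).card : ℝ) * (C * k) ^ k * Real.exp (2 * k) / T ^ (2 * k)) := by
  classical
  set f : Coupling d → ℝ := fun J =>
    Matrix.trace ((XM ω J x R * (XM ω J x R).transpose) ^ k) with hf
  have hsub : {J : Coupling d | ¬ ∀ u v : Site d → ℝ,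
      |∑ y ∈ ball x R, ∑ z ∈ ball x R, u y * (ω y z * Jc J y z) * v z| ≤
      T * √(∑ y ∈ ball x R, u y ^ 2) * √(∑ y ∈ ball x R, v y ^ 2)} ⊆
      {J | T ^ (2 * k) ≤ f J} := by
    intro J hJ
    apply ht {y // y ∈ ball x R} (XM ω J x R) T k hT hk1
    intro hall
    apply hJ
    intro u v
    have h1 := hall (fun y => u y.1) (fun y => v y.1)
    have e1 : ∑ y ∈ ball x R, ∑ z ∈ ball x R, u y * (ω y z * Jc J y z) * v z =
        ∑ y : {y // y ∈ ball x R}, ∑ z : {y // y ∈ ball x R},
          u y.1 * XM ω J x R y z * v z.1 := by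
      rw [← Finset.sum_coe_sort (ball x R)]
      apply Finset.sum_congr rfl
      intro y _
      rw [← Finset.sum_coe_sort (ball x R)]
      rfl
    have e2 : ∀ w : Site d → ℝ, ∑ y ∈ ball x R, w y ^ 2 =
        ∑ y : {y // y ∈ ball x R}, w y.1 ^ 2 := fun w =>
      (Finset.sum_coe_sort (ball x R) (fun y => w y ^ 2)).symm
    rw [e1, e2, e2]
    exact h1
  have hTk : 0 < T ^ (2 * k) := by positivity
  have hm := mul_meas_ge_le_integral_of_nonneg (μ := couplingLaw d) (f := f)
    (Filter.Eventually.of_forall fun J => trace_nonneg ω J x R k)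
    (integral_trace hs ω x R k).1 (T ^ (2 * k))
  have hb := trace_bound hc hk hs ω hω x R k hk1 hdk
  calc _ ≤ couplingLaw d {J | T ^ (2 * k) ≤ f J} := measure_mono hsub
    _ = ENNReal.ofReal ((couplingLaw d).real {J | T ^ (2 * k) ≤ f J}) := by
        rw [ofReal_measureReal]
    _ ≤ _ := by
        apply ENNReal.ofReal_le_ofReal
        rw [le_div_iff₀ hTk, mul_comm]
        exact hm.trans hb

end GoodAux

open GoodAux in
theorem t_GOOD (hc : St_COMB) (hk : St_KR) (ht : St_TRACE) (hs : St_SIGN) : St_GOOD := by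
  obtain ⟨C, hC, hk⟩ := hk
  refine ⟨C, hC, ?_⟩
  intro d x R k _ hk1 hdk T hT
  have h1 := half_bound hc hk ht hs (fun _ _ : Site d => (1 : ℝ))
    (fun y z _ => ⟨zero_le_one, Real.one_le_exp zero_le_one⟩) x R k hk1 hdk hT
  have h2 := half_bound hc hk ht hs
    (fun y z : Site d => Real.exp ((dist1 x z : ℝ) - (dist1 x y : ℝ)))
    (fun y z h => ⟨(Real.exp_pos _).le, by
      apply Real.exp_le_exp.2
      have h3 := dist1_triangle x y z
      have h4 : dist1 y z = 1 := h
      have h5 : (dist1 x z : ℝ) ≤ dist1 x y + 1 := by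
        rw [h4] at h3
        exact_mod_cast h3
      linarith⟩) x R k hk1 hdk hT
  simp only [one_mul] at h1
  set M := ((ball x R).card : ℝ) * (C * k) ^ k * Real.exp (2 * k) / T ^ (2 * k) with hM
  have hM0 : 0 ≤ M := by positivity
  calc couplingLaw d {J | ¬ Good J x R T}
      ≤ couplingLaw d ({J | ¬ ∀ u v : Site d → ℝ,
        |∑ y ∈ ball x R, ∑ z ∈ ball x R, u y * Jc J y z * v z| ≤
        T * √(∑ y ∈ ball x R, u y ^ 2) * √(∑ y ∈ ball x R, v y ^ 2)} ∪
        {J | ¬ ∀ u v : Site d → ℝ,
        |∑ y ∈ ball x R, ∑ z ∈ ball x R, u y *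
          (Real.exp ((dist1 x z : ℝ) - (dist1 x y : ℝ)) * Jc J y z) * v z| ≤
        T * √(∑ y ∈ ball x R, u y ^ 2) * √(∑ y ∈ ball x R, v y ^ 2)}) := by
        apply measure_mono
        intro J hJ
        by_contra h
        rw [Set.mem_union, not_or] at h
        apply hJ
        exact ⟨not_not.1 h.1, not_not.1 h.2⟩
    _ ≤ _ := measure_union_le _ _
    _ ≤ ENNReal.ofReal M + ENNReal.ofReal M := add_le_add h1 h2
    _ = ENNReal.ofReal (M + M) := (ENNReal.ofReal_add hM0 hM0).symm
    _ = _ := by
        congr 1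
        rw [hM]
        ring

end Pool.H47EA
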