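import Pool.Agent.H47R2.EA.St

/-!
# INF: the influence bound on a good ball (helper748)
-/

set_option autoImplicit false

namespace Pool.H47EA

namespace InfAux

variable {d : ℕ}

/-! ### elementary facts on `dist1` and neighbours -/

theorem dist_comm (x y : Site d) : dist1 x y = dist1 y x := by
  unfold dist1
  exact Finset.sum_congr rfl fun i _ => by rw [← Int.natAbs_neg, neg_sub]

theorem dist_self (x : Site d) : dist1 x x = 0 := by simp [dist1]

theorem dist_tri (x y z : Site d) : dist1 x z ≤ dist1 x y + dist1 y z := by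
  unfold dist1
  rw [← Finset.sum_add_distrib]
  refine Finset.sum_le_sum fun i _ => ?_
  have : x i - z i = (x i - y i) + (y i - z i) := by ring
  rw [this]
  exact Int.natAbs_add_le _ _

theorem coord_le (x y : Site d) (i : Fin d) : (x i - y i).natAbs ≤ dist1 x y :=
  Finset.single_le_sum (f := fun i => (x i - y i).natAbs) (fun _ _ => Nat.zero_le _)
    (Finset.mem_univ i)

theorem mem_ball (x y : Site d) (R : ℕ) : y ∈ ball x R ↔ dist1 x y ≤ R := by
  unfold ball
  rw [Finset.mem_filter]
  constructor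
  · exact fun h => h.2
  · intro h
    refine ⟨?_, h⟩
    rw [Finset.mem_Icc]
    constructor
    · intro i
      have := coord_le x y i
      show x i - (R : ℤ) ≤ y i
      omega
    · intro i
      have := coord_le x y i
      show y i ≤ x i + (R : ℤ)
      omega

theorem nbr_card (y : Site d) : (nbr y).card ≤ 2 * d := by
  classical
  have hsub : nbr y ⊆ (Finset.univ : Finset (Fin d × Bool)).image
      (fun q => Function.update y q.1 (y q.1 + if q.2 then 1 else -1)) := by
    intro z hz
    unfold nbr at hz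
    have h1 : dist1 y z = 1 := (Finset.mem_filter.1 hz).2
    have hex : ∃ i, (y i - z i).natAbs ≠ 0 := by
      by_contra hcon
      push Not at hcon
      have : dist1 y z = 0 := Finset.sum_eq_zero fun i _ => hcon i
      omega
    obtain ⟨i, hi⟩ := hex
    have h2 : (y i - z i).natAbs + ∑ j ∈ Finset.univ.erase i, (y j - z j).natAbs = 1 := by
      rw [Finset.add_sum_erase Finset.univ (fun j => (y j - z j).natAbs) (Finset.mem_univ i)]
      exact h1
    have h3 : (y i - z i).natAbs = 1 := by omega
    have h4 : ∑ j ∈ Finset.univ.erase i, (y j - z j).natAbs = 0 := by omega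
    have h5 : ∀ j, j ≠ i → z j = y j := by
      intro j hj
      have := (Finset.sum_eq_zero_iff.1 h4) j (Finset.mem_erase.2 ⟨hj, Finset.mem_univ _⟩)
      omega
    rw [Finset.mem_image]
    rcases Int.natAbs_eq (y i - z i) with h6 | h6
    · refine ⟨(i, false), Finset.mem_univ _, ?_⟩
      funext j
      by_cases hj : j = i
      · subst hj
        simp only [Function.update_self]
        rw [h3] at h6
        simp
        push_cast at h6
        omega
      · rw [Function.update_of_ne hj]
        exact (h5 j hj).symm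
    · refine ⟨(i, true), Finset.mem_univ _, ?_⟩
      funext j
      by_cases hj : j = i
      · subst hj
        simp only [Function.update_self]
        rw [h3] at h6
        simp
        push_cast at h6
        omega
      · rw [Function.update_of_ne hj]
        exact (h5 j hj).symm
  refine (Finset.card_le_card hsub).trans (Finset.card_image_le.trans ?_)
  simp [Finset.card_univ, Fintype.card_prod, mul_comm]

theorem abs_sg (b : Bool) : |sg b| = 1 := by cases b <;> simp [sg]

theorem abs_Jc_le (J : Coupling d) (x y : Site d) : |Jc J x y| ≤ 1 := by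
  unfold Jc
  split_ifs
  · rw [abs_sg]
  · simp

/-- sum over the ball of a function supported in `Λ'` -/
theorem sum_ext (B L : Finset (Site d)) (hLB : L ⊆ B) (a : {y // y ∈ L} → ℝ) (F : Site d → ℝ) :
    ∑ y ∈ B, (if h : y ∈ L then a ⟨y, h⟩ else 0) * F y = ∑ y : {y // y ∈ L}, a y * F y.1 := by
  classical
  rw [← Finset.sum_subset hLB (f := fun y => (if h : y ∈ L then a ⟨y, h⟩ else 0) * F y)
    (fun y _ hy => by simp [hy])]
  rw [← Finset.sum_coe_sort L]
  refine Finset.sum_congr rfl fun y _ => ?_
  simp [y.2]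

theorem sum_ext_sq (B L : Finset (Site d)) (hLB : L ⊆ B) (a : {y // y ∈ L} → ℝ) :
    ∑ y ∈ B, (if h : y ∈ L then a ⟨y, h⟩ else 0) ^ 2 = ∑ y : {y // y ∈ L}, a y ^ 2 := by
  classical
  rw [← Finset.sum_subset hLB (f := fun y => (if h : y ∈ L then a ⟨y, h⟩ else 0) ^ 2)
    (fun y _ hy => by simp [hy])]
  rw [← Finset.sum_coe_sort L]
  refine Finset.sum_congr rfl fun y _ => ?_
  simp [y.2]

/-- restriction of a bilinear bound on the ball -/
theorem form_restrict (B L : Finset (Site d)) (hLB : L ⊆ B) (K : Site d → Site d → ℝ) (T : ℝ)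
    (h : ∀ u v : Site d → ℝ, |∑ y ∈ B, ∑ z ∈ B, u y * K y z * v z| ≤
      T * √(∑ y ∈ B, u y ^ 2) * √(∑ y ∈ B, v y ^ 2)) (a b : {y // y ∈ L} → ℝ) :
    |∑ y, ∑ z, a y * K y.1 z.1 * b z| ≤ T * √(∑ y, a y ^ 2) * √(∑ y, b y ^ 2) := by
  classical
  have h1 := h (fun y => if h : y ∈ L then a ⟨y, h⟩ else 0) (fun y => if h : y ∈ L then b ⟨y, h⟩ else 0)
  rw [sum_ext_sq B L hLB a, sum_ext_sq B L hLB b] at h1
  have h2 : ∑ y ∈ B, ∑ z ∈ B, (if h : y ∈ L then a ⟨y, h⟩ else 0) * K y z *
      (if h : z ∈ L then b ⟨z, h⟩ else 0) = ∑ y : {y // y ∈ L}, ∑ z : {y // y ∈ L}, a y * K y.1 z.1 * b z := by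
    have e1 : ∀ y ∈ B, ∑ z ∈ B, (if h : y ∈ L then a ⟨y, h⟩ else 0) * K y z *
        (if h : z ∈ L then b ⟨z, h⟩ else 0) =
        (if h : y ∈ L then a ⟨y, h⟩ else 0) * ∑ z : {y // y ∈ L}, b z * K y z.1 := by
      intro y _
      rw [← sum_ext B L hLB b (fun z => K y z), Finset.mul_sum]
      exact Finset.sum_congr rfl fun z _ => by ring
    rw [Finset.sum_congr rfl e1, sum_ext B L hLB a (fun y => ∑ z : {y // y ∈ L}, b z * K y z.1)]
    refine Finset.sum_congr rfl fun y _ => ?_
    rw [Finset.mul_sum]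
    exact Finset.sum_congr rfl fun z _ => by ring
  rw [h2] at h1
  exact h1

/-- the influence bound in a finite volume contained in the ball -/
theorem inner (hi : St_ISING) (hd : St_DIFF) (hr : St_REDUCE) (J : Coupling d) (x : Site d) (R : ℕ)
    (T : ℝ) (hT : 0 < T) (hg : Good J x R T) (β : ℝ) (hβ : 0 < β) (hβT : 4 * T * β ≤ 1)
    (L : Finset (Site d)) (hx : x ∈ L) (hLB : L ⊆ ball x R) (τ τ' : Site d → Bool)
    (hτ : ∀ y ∈ ball x R, y ∉ L → τ y = τ' y) :
    |gE β J L τ (ind x) - gE β J L τ' (ind x)| ≤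
      Real.exp (-(R : ℝ)) * (4 * β * d) * √((ball x R).card : ℝ) := by
  classical
  set g : ({y // y ∈ L} → Bool) → ℝ := fun η =>
    Real.exp ((∑ y, ∑ z, (β * Jc J y.1 z.1) * sg (η y) * sg (η z)) / 2) with hgd
  set hh : (Site d → Bool) → {y // y ∈ L} → ℝ := fun τ y =>
    β * ∑ z ∈ nbr y.1 \ L, Jc J y.1 z * sg (τ z) with hhd
  set e : {y // y ∈ L} → ℝ := Pi.single ⟨x, hx⟩ 1 with he
  set w : {y // y ∈ L} → ℝ := fun y => Real.exp (-(dist1 x y.1 : ℝ)) with hw
  have hgpos : ∀ η, 0 < g η := fun η => Real.exp_pos _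
  -- the averages
  have hZ : ∀ h : {y // y ∈ L} → ℝ, 0 < Zf g h := by
    intro h
    unfold Zf Wt
    exact Finset.sum_pos (fun σ _ => mul_pos (hgpos σ) (Real.exp_pos _)) Finset.univ_nonempty
  have hav : ∀ τ : Site d → Bool, gE β J L τ (ind x) = (1 + av g (hh τ) (lin e)) / 2 := by
    intro τ
    rw [hr d β J L τ (ind x)]
    show av g (hh τ) (fun η => ind x (glue L η τ)) = _
    have h1 : (fun η : {y // y ∈ L} → Bool => ind x (glue L η τ)) = fun η => (1 + lin e η) / 2 := by
      funext η
      have h2 : lin e η = sg (η ⟨x, hx⟩) := by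
        unfold lin
        rw [Finset.sum_eq_single ⟨x, hx⟩]
        · rw [he]; simp
        · intro y _ hy
          rw [he, Pi.single_eq_of_ne hy, zero_mul]
        · intro h; exact absurd (Finset.mem_univ _) h
      rw [h2]
      unfold ind glue sg
      simp only [hx, dif_pos]
      split_ifs <;> norm_num
    rw [h1]
    unfold av
    have h3 : ∑ σ, Wt g (hh τ) σ * ((1 + lin e σ) / 2) =
        (Zf g (hh τ) + ∑ σ, Wt g (hh τ) σ * lin e σ) / 2 := by
      unfold Zf
      rw [← Finset.sum_add_distrib, Finset.sum_div]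
      exact Finset.sum_congr rfl fun σ _ => by ring
    rw [h3]
    have := (hZ (hh τ)).ne'
    field_simp
  -- the covariance bound
  have hcov : CovLe g w 2 := by
    refine hi {y // y ∈ L} (fun y z => β * Jc J y.1 z.1) w (β * T) ?_ ?_ ?_ ?_ ?_ ?_
    · intro y z
      rw [Jc_comm]
    · intro y; exact Real.exp_pos _
    · positivity
    · linarith
    · intro a b
      have h1 := form_restrict (ball x R) L hLB (fun y z => Jc J y z) T hg.1 a b
      have h2 : ∑ y : {y // y ∈ L}, ∑ z : {y // y ∈ L}, a y * (β * Jc J y.1 z.1) * b z =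
          β * ∑ y : {y // y ∈ L}, ∑ z : {y // y ∈ L}, a y * Jc J y.1 z.1 * b z := by
        rw [Finset.mul_sum]
        refine Finset.sum_congr rfl fun y _ => ?_
        rw [Finset.mul_sum]
        exact Finset.sum_congr rfl fun z _ => by ring
      have h3 : nrmI (fun _ : {y // y ∈ L} => (1 : ℝ)) a = √(∑ y, a y ^ 2) := by
        unfold nrmI; simp
      have h4 : nrmW (fun _ : {y // y ∈ L} => (1 : ℝ)) b = √(∑ y, b y ^ 2) := by
        unfold nrmW; simp
      rw [h2, h3, h4, abs_mul, abs_of_pos hβ]
      calc β * |∑ y : {y // y ∈ L}, ∑ z : {y // y ∈ L}, a y * Jc J y.1 z.1 * b z| ≤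
            β * (T * √(∑ y, a y ^ 2) * √(∑ y, b y ^ 2)) := mul_le_mul_of_nonneg_left h1 hβ.le
        _ = _ := by ring
    · intro a b
      have h1 := form_restrict (ball x R) L hLB
        (fun y z => Real.exp ((dist1 x z : ℝ) - (dist1 x y : ℝ)) * Jc J y z) T hg.2
        (fun y => a y / w y) (fun z => b z * w z)
      have h2 : ∑ y : {y // y ∈ L}, ∑ z : {y // y ∈ L}, a y * (β * Jc J y.1 z.1) * b z =
          β * ∑ y : {y // y ∈ L}, ∑ z : {y // y ∈ L}, a y / w y *
            (Real.exp ((dist1 x z.1 : ℝ) - (dist1 x y.1 : ℝ)) * Jc J y.1 z.1) * (b z * w z) := by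
        rw [Finset.mul_sum]
        refine Finset.sum_congr rfl fun y _ => ?_
        rw [Finset.mul_sum]
        refine Finset.sum_congr rfl fun z _ => ?_
        have h5 : Real.exp ((dist1 x z.1 : ℝ) - (dist1 x y.1 : ℝ)) * w z = w y := by
          simp only [hw]
          rw [← Real.exp_add]
          congr 1
          ring
        have h6 : w y ≠ 0 := (Real.exp_pos _).ne'
        calc a y * (β * Jc J y.1 z.1) * b z = β * (a y / w y * Jc J y.1 z.1 * b z * w y) := by
              field_simp
          _ = _ := by rw [← h5]; ring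
      rw [h2, abs_mul, abs_of_pos hβ]
      unfold nrmI nrmW
      calc β * |∑ y : {y // y ∈ L}, ∑ z : {y // y ∈ L}, a y / w y *
            (Real.exp ((dist1 x z.1 : ℝ) - (dist1 x y.1 : ℝ)) * Jc J y.1 z.1) * (b z * w z)| ≤
            β * (T * √(∑ y, (a y / w y) ^ 2) * √(∑ y, (b y * w y) ^ 2)) :=
            mul_le_mul_of_nonneg_left h1 hβ.le
        _ = _ := by ring
  -- the bound
  have hdiff := hd {y // y ∈ L} g w 2 hgpos hcov (hh τ) (hh τ') e
  have hI : nrmI w e = 1 := by
    unfold nrmI
    have : ∑ y, (e y / w y) ^ 2 = 1 := by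
      rw [Finset.sum_eq_single ⟨x, hx⟩]
      · rw [he, hw]; simp [dist_self]
      · intro y _ hy
        rw [he, Pi.single_eq_of_ne hy]; simp
      · intro h; exact absurd (Finset.mem_univ _) h
    rw [this, Real.sqrt_one]
  have hE0 : 0 ≤ Real.exp (-(R : ℝ)) * (4 * β * d) := by positivity
  have hW : nrmW w (fun y => hh τ y - hh τ' y) ≤
      Real.exp (-(R : ℝ)) * (4 * β * d) * √((ball x R).card : ℝ) := by
    unfold nrmW
    have hpt : ∀ y : {y // y ∈ L}, ((hh τ y - hh τ' y) * w y) ^ 2 ≤
        (Real.exp (-(R : ℝ)) * (4 * β * d)) ^ 2 := by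
      intro y
      rw [← sq_abs]
      refine pow_le_pow_left₀ (abs_nonneg _) ?_ 2
      have hdel : hh τ y - hh τ' y =
          β * ∑ z ∈ nbr y.1 \ L, Jc J y.1 z * (sg (τ z) - sg (τ' z)) := by
        simp only [hhd]
        rw [← mul_sub, ← Finset.sum_sub_distrib]
        congr 1
        exact Finset.sum_congr rfl fun z _ => by ring
      by_cases hout : ∃ z ∈ nbr y.1 \ L, z ∉ ball x R
      · obtain ⟨z, hz, hzb⟩ := hout
        have hz1 : dist1 y.1 z = 1 := by
          have := (Finset.mem_sdiff.1 hz).1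
          unfold nbr at this
          exact (Finset.mem_filter.1 this).2
        have hyR : R ≤ dist1 x y.1 := by
          rw [mem_ball] at hzb
          have := dist_tri x y.1 z
          omega
        have hwy : w y ≤ Real.exp (-(R : ℝ)) := by
          simp only [hw]
          apply Real.exp_le_exp.2
          have : (R : ℝ) ≤ (dist1 x y.1 : ℝ) := by exact_mod_cast hyR
          linarith
        have hs : |∑ z ∈ nbr y.1 \ L, Jc J y.1 z * (sg (τ z) - sg (τ' z))| ≤ 4 * d := by
          calc |∑ z ∈ nbr y.1 \ L, Jc J y.1 z * (sg (τ z) - sg (τ' z))| ≤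
                ∑ z ∈ nbr y.1 \ L, |Jc J y.1 z * (sg (τ z) - sg (τ' z))| :=
                Finset.abs_sum_le_sum_abs _ _
            _ ≤ ∑ z ∈ nbr y.1 \ L, (2 : ℝ) := by
                refine Finset.sum_le_sum fun z _ => ?_
                rw [abs_mul]
                have h1 := abs_Jc_le J y.1 z
                have h2 : |sg (τ z) - sg (τ' z)| ≤ 2 := by
                  refine (abs_sub _ _).trans ?_
                  rw [abs_sg, abs_sg]; norm_num
                calc |Jc J y.1 z| * |sg (τ z) - sg (τ' z)| ≤ 1 * 2 :=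
                      mul_le_mul h1 h2 (abs_nonneg _) (by norm_num)
                  _ = 2 := by norm_num
            _ = ((nbr y.1 \ L).card : ℝ) * 2 := by rw [Finset.sum_const, nsmul_eq_mul]
            _ ≤ (2 * d : ℝ) * 2 := by
                have h1 : (nbr y.1 \ L).card ≤ 2 * d :=
                  (Finset.card_le_card Finset.sdiff_subset).trans (nbr_card y.1)
                have h2 : ((nbr y.1 \ L).card : ℝ) ≤ 2 * d := by exact_mod_cast h1
                linarith
            _ = 4 * d := by ring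
        rw [abs_mul, hdel, abs_mul, abs_of_pos hβ, abs_of_pos (Real.exp_pos _ : 0 < w y)]
        calc β * |∑ z ∈ nbr y.1 \ L, Jc J y.1 z * (sg (τ z) - sg (τ' z))| * w y ≤
              β * (4 * d) * Real.exp (-(R : ℝ)) := by
              refine mul_le_mul (mul_le_mul_of_nonneg_left hs hβ.le) hwy (Real.exp_pos _).le
                (by positivity)
          _ = _ := by ring
      · push Not at hout
        have : hh τ y - hh τ' y = 0 := by
          rw [hdel, Finset.sum_eq_zero, mul_zero]
          intro z hz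
          rw [hτ z (hout z hz) (Finset.mem_sdiff.1 hz).2]
          ring
        rw [this, zero_mul, abs_zero]
        exact hE0
    calc √(∑ y, ((hh τ y - hh τ' y) * w y) ^ 2) ≤
          √(((ball x R).card : ℝ) * (Real.exp (-(R : ℝ)) * (4 * β * d)) ^ 2) := by
          refine Real.sqrt_le_sqrt ?_
          refine (Finset.sum_le_sum fun y _ => hpt y).trans ?_
          rw [Finset.sum_const, nsmul_eq_mul]
          refine mul_le_mul_of_nonneg_right ?_ (sq_nonneg _)
          have : (Finset.univ : Finset {y // y ∈ L}).card ≤ (ball x R).card := by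
            rw [Finset.card_univ, Fintype.card_coe]
            exact Finset.card_le_card hLB
          exact_mod_cast this
      _ = Real.exp (-(R : ℝ)) * (4 * β * d) * √((ball x R).card : ℝ) := by
          rw [Real.sqrt_mul (Nat.cast_nonneg _), Real.sqrt_sq hE0]
          ring
  rw [hav τ, hav τ']
  have e1 : (1 + av g (hh τ) (lin e)) / 2 - (1 + av g (hh τ') (lin e)) / 2 =
      (av g (hh τ) (lin e) - av g (hh τ') (lin e)) / 2 := by ring
  rw [e1, abs_div, abs_of_pos (by norm_num : (0 : ℝ) < 2), div_le_iff₀ (by norm_num : (0 : ℝ) < 2)]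
  rw [hI] at hdiff
  linarith

end InfAux

open InfAux in
theorem t_INF (hb : St_BASIC) (hi : St_ISING) (hd : St_DIFF) (hr : St_REDUCE) : St_INF := by
  classical
  intro d J x R T hT hg β hβ hβT Λ hx ω ω' hω
  set L : Finset (Site d) := Λ.filter (fun y => y ∈ ball x R) with hL
  have hLΛ : L ⊆ Λ := Finset.filter_subset _ _
  have hLB : L ⊆ ball x R := fun y hy => (Finset.mem_filter.1 hy).2
  have hxL : x ∈ L := Finset.mem_filter.2 ⟨hx, by rw [mem_ball, dist_self]; exact Nat.zero_le _⟩
  set ε := Real.exp (-(R : ℝ)) * (4 * β * d) * √((ball x R).card : ℝ) with hε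
  have hinner : ∀ (η η' : Λ → Bool),
      |gE β J L (glue Λ η ω) (ind x) - gE β J L (glue Λ η' ω') (ind x)| ≤ ε := by
    intro η η'
    refine inner hi hd hr J x R T hT hg β hβ hβT L hxL hLB _ _ fun y hy hyL => ?_
    have hyΛ : y ∉ Λ := fun h => hyL (Finset.mem_filter.2 ⟨h, hy⟩)
    simp only [glue, hyΛ, dif_neg, not_false_iff]
    exact hω y hy hyΛ
  obtain ⟨-, b2, b3, -, -, b6, -⟩ := hb d β J Λ ω
  obtain ⟨-, b2', b3', -, -, b6', -⟩ := hb d β J Λ ω'
  rw [b6 L hLΛ (ind x), b6' L hLΛ (ind x)]
  set X := gE β J Λ ω (fun τ => gE β J L τ (ind x)) with hX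
  have h1 : ∀ η' : Λ → Bool, |X - gE β J L (glue Λ η' ω') (ind x)| ≤ ε := by
    intro η'
    set c := gE β J L (glue Λ η' ω') (ind x) with hc
    have u1 : X ≤ c + ε := by
      calc X ≤ gE β J Λ ω (fun _ => c + ε) := b3 _ _ fun η => by
            have := (abs_le.1 (hinner η η')).2
            show gE β J L (glue Λ η ω) (ind x) ≤ c + ε
            linarith
        _ = c + ε := b2 _
    have u2 : c - ε ≤ X := by
      calc c - ε = gE β J Λ ω (fun _ => c - ε) := (b2 _).symm
        _ ≤ X := b3 _ _ fun η => by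
            have := (abs_le.1 (hinner η η')).1
            show c - ε ≤ gE β J L (glue Λ η ω) (ind x)
            linarith
    rw [abs_le]
    constructor <;> linarith
  set Y := gE β J Λ ω' (fun τ => gE β J L τ (ind x)) with hY
  have v1 : X - ε ≤ Y := by
    calc X - ε = gE β J Λ ω' (fun _ => X - ε) := (b2' _).symm
      _ ≤ Y := b3' _ _ fun η => by
          have := (abs_le.1 (h1 η)).2
          show X - ε ≤ gE β J L (glue Λ η ω') (ind x)
          linarith
  have v2 : Y ≤ X + ε := by
    calc Y ≤ gE β J Λ ω' (fun _ => X + ε) := b3' _ _ fun η => by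
          have := (abs_le.1 (h1 η)).1
          show gE β J L (glue Λ η ω') (ind x) ≤ X + ε
          linarith
      _ = X + ε := b2' _
  rw [abs_le]
  constructor <;> linarith

end Pool.H47EA
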