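import Pool.Agent.H47R2.EA.St

/-!
# Ising covariance bound (from the positive semidefinite case)
-/

set_option autoImplicit false

namespace Pool.H47EA

namespace IsingAux

variable {U : Type} [Fintype U] [DecidableEq U]

theorem sg_sq (b : Bool) : sg b * sg b = 1 := by
  cases b <;> simp [sg]

/-- Multiplying the weight by a positive constant does not change averages. -/
theorem av_smul (c : ℝ) (hc : 0 < c) (g : (U → Bool) → ℝ) (h : U → ℝ) (f : (U → Bool) → ℝ) :
    av (fun σ => c * g σ) h f = av g h f := by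
  unfold av Zf Wt
  have h1 : ∑ σ : U → Bool, c * g σ * Real.exp (∑ y, h y * sg (σ y)) * f σ =
      c * ∑ σ : U → Bool, g σ * Real.exp (∑ y, h y * sg (σ y)) * f σ := by
    rw [Finset.mul_sum]; exact Finset.sum_congr rfl fun σ _ => by ring
  have h2 : ∑ σ : U → Bool, c * g σ * Real.exp (∑ y, h y * sg (σ y)) =
      c * ∑ σ : U → Bool, g σ * Real.exp (∑ y, h y * sg (σ y)) := by
    rw [Finset.mul_sum]; exact Finset.sum_congr rfl fun σ _ => by ring
  rw [h1, h2, mul_div_mul_left _ _ hc.ne']

theorem cv_smul (c : ℝ) (hc : 0 < c) (g : (U → Bool) → ℝ) (h a b : U → ℝ) :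
    cv (fun σ => c * g σ) h a b = cv g h a b := by
  unfold cv
  rw [av_smul c hc, av_smul c hc, av_smul c hc]

omit [DecidableEq U] in
theorem cauchy (w a b : U → ℝ) (hw : ∀ y, 0 < w y) :
    |∑ y, a y * b y| ≤ nrmI w a * nrmW w b := by
  have h1 : ∑ y, a y * b y = ∑ y, (a y / w y) * (b y * w y) := by
    refine Finset.sum_congr rfl fun y _ => ?_
    have := (hw y).ne'
    field_simp
  rw [h1]
  unfold nrmI nrmW
  rw [← Real.sqrt_mul (Finset.sum_nonneg fun y _ => sq_nonneg _)]
  apply Real.le_sqrt_of_sq_le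
  rw [sq_abs]
  exact Finset.sum_mul_sq_le_sq_mul_sq _ _ _

/-- the matrix `A + t` -/
def MA (A : U → U → ℝ) (t : ℝ) : Matrix U U ℝ :=
  Matrix.of fun y z => A y z + if y = z then t else 0

theorem form_MA (A : U → U → ℝ) (t : ℝ) (a b : U → ℝ) :
    ∑ y, ∑ z, a y * MA A t y z * b z = ∑ y, ∑ z, a y * A y z * b z + t * ∑ y, a y * b y := by
  have h1 : ∀ y, ∑ z, a y * MA A t y z * b z = ∑ z, a y * A y z * b z + t * (a y * b y) := by
    intro y
    have : ∀ z, a y * MA A t y z * b z =
        a y * A y z * b z + (if y = z then t * (a y * b z) else 0) := by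
      intro z
      unfold MA
      simp only [Matrix.of_apply]
      split_ifs <;> ring
    rw [Finset.sum_congr rfl fun z _ => this z, Finset.sum_add_distrib]
    simp
  rw [Finset.sum_congr rfl fun y _ => h1 y, Finset.sum_add_distrib, Finset.mul_sum]

theorem posSemidef_MA (A : U → U → ℝ) (t : ℝ) (hs : ∀ y z, A y z = A z y) 
    (hF : FormLe A (fun _ => 1) t) : (MA A t).PosSemidef := by
  rw [Matrix.posSemidef_iff_dotProduct_mulVec]
  constructor
  · ext y z
    simp only [Matrix.conjTranspose_apply, MA, Matrix.of_apply, star_trivial]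
    rw [hs z y]
    congr 1
    by_cases h : y = z
    · simp [h]
    · simp [h, Ne.symm h]
  · intro x
    have h1 : dotProduct (star x) (Matrix.mulVec (MA A t) x) =
        ∑ y, ∑ z, x y * MA A t y z * x z := by
      simp only [dotProduct, Matrix.mulVec, Pi.star_apply, star_trivial, Finset.mul_sum]
      exact Finset.sum_congr rfl fun y _ => Finset.sum_congr rfl fun z _ => by ring
    rw [h1, form_MA]
    have h2 := hF x x
    have h3 : nrmI (fun _ => 1) x * nrmW (fun _ => 1) x = ∑ y, x y * x y := by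
      unfold nrmI nrmW
      simp only [div_one, mul_one]
      rw [Real.mul_self_sqrt (Finset.sum_nonneg fun y _ => sq_nonneg _)]
      exact Finset.sum_congr rfl fun y _ => by ring
    rw [mul_assoc, h3] at h2
    linarith [neg_abs_le (∑ y, ∑ z, x y * A y z * x z)]

end IsingAux

open IsingAux in
theorem t_ISING (h2 : St_COV2) : St_ISING := by
  intro U _ _ A w t hs hw ht0 ht hF1 hFw
  obtain ⟨m, B, hB⟩ := Matrix.posSemidef_iff_eq_sum_vecMulVec.mp (posSemidef_MA A t hs hF1)
  have hMB : ∀ y z, ∑ j, B j y * B j z = MA A t y z := by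
    intro y z
    rw [hB, Matrix.sum_apply]
    simp [Matrix.vecMulVec_apply]
  have hForm : FormLe (fun y z => ∑ j, B j y * B j z) w (2 * t) := by
    intro a b
    simp only [hMB]
    rw [form_MA]
    have e1 := hFw a b
    have e2 := cauchy w a b hw
    have e3 : |t * ∑ y, a y * b y| ≤ t * (nrmI w a * nrmW w b) := by
      rw [abs_mul, abs_of_nonneg ht0]
      exact mul_le_mul_of_nonneg_left e2 ht0
    calc |∑ y, ∑ z, a y * A y z * b z + t * ∑ y, a y * b y|
        ≤ |∑ y, ∑ z, a y * A y z * b z| + |t * ∑ y, a y * b y| := abs_add_le _ _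
      _ ≤ t * nrmI w a * nrmW w b + t * (nrmI w a * nrmW w b) := add_le_add e1 e3
      _ = 2 * t * nrmI w a * nrmW w b := by ring
  have hC := h2 U (Fin m) (fun j => B j) w (2 * t) hw (by linarith) (by linarith) hForm
  have hsum : ∀ σ : U → Bool, ∑ j, (lin (B j) σ) ^ 2 =
      ∑ y, ∑ z, A y z * sg (σ y) * sg (σ z) + t * Fintype.card U := by
    intro σ
    have e1 : ∑ j, (lin (B j) σ) ^ 2 = ∑ y, ∑ z, sg (σ y) * MA A t y z * sg (σ z) := by
      unfold lin
      simp only [← hMB, sq, Finset.sum_mul, Finset.mul_sum]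
      rw [Finset.sum_comm]
      refine Finset.sum_congr rfl fun y _ => ?_
      rw [Finset.sum_comm]
      refine Finset.sum_congr rfl fun z _ => ?_
      refine Finset.sum_congr rfl fun j _ => ?_
      ring
    rw [e1, form_MA]
    have e2 : ∑ y, sg (σ y) * sg (σ y) = (Fintype.card U : ℝ) := by
      simp [sg_sq]
    rw [e2]
    congr 1
    exact Finset.sum_congr rfl fun y _ => Finset.sum_congr rfl fun z _ => by ring
  intro h a b
  have hcv : cv (fun σ : U → Bool => Real.exp ((∑ y, ∑ z, A y z * sg (σ y) * sg (σ z)) / 2)) h a b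
      = cv (fun σ => Real.exp ((∑ j, (lin (B j) σ) ^ 2) / 2)) h a b := by
    rw [← cv_smul (Real.exp (t * Fintype.card U / 2)) (Real.exp_pos _)
      (fun σ : U → Bool => Real.exp ((∑ y, ∑ z, A y z * sg (σ y) * sg (σ z)) / 2)) h a b]
    congr 1
    funext σ
    rw [hsum σ, ← Real.exp_add]
    congr 1
    ring
  rw [hcv]
  refine (hC h a b).trans ?_
  have hn1 : 0 ≤ nrmI w a := Real.sqrt_nonneg _
  have hn2 : 0 ≤ nrmW w b := Real.sqrt_nonneg _
  have hq : 1 / (1 - 2 * t) ≤ 2 := by
    rw [div_le_iff₀ (by linarith)]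
    linarith
  exact mul_le_mul_of_nonneg_right (mul_le_mul_of_nonneg_right hq hn1) hn2

end Pool.H47EA
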