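import Pool.Agent.H47R2.EA.St

/-! # Khintchine's inequality for even moments -/

set_option autoImplicit false

namespace Pool.H47EA

theorem khin_sum_exp {E : Type} [Fintype E] [DecidableEq E] (c : E → ℝ) (μ : ℝ) :
    ∑ s : E → Bool, Real.exp (μ * ∑ e, c e * sg (s e)) =
      2 ^ (Fintype.card E) * ∏ e, Real.cosh (μ * c e) := by
  have h1 : ∀ s : E → Bool, Real.exp (μ * ∑ e, c e * sg (s e)) =
      ∏ e, Real.exp (μ * (c e * sg (s e))) := by
    intro s
    rw [Finset.mul_sum, Real.exp_sum]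
  rw [Finset.sum_congr rfl (fun s _ => h1 s)]
  have h2 := Finset.prod_univ_sum (fun _ : E => (Finset.univ : Finset Bool))
    (fun e b => Real.exp (μ * (c e * sg b)))
  rw [Fintype.piFinset_univ] at h2
  rw [← h2]
  have h3 : ∀ e : E, ∑ b : Bool, Real.exp (μ * (c e * sg b)) = 2 * Real.cosh (μ * c e) := by
    intro e
    rw [Fintype.sum_bool, Real.cosh_eq]
    simp only [sg, if_true, Bool.false_eq_true, if_false, mul_one, mul_neg]
    ring
  rw [Finset.prod_congr rfl (fun e _ => h3 e), Finset.prod_mul_distrib, Finset.prod_const,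
    Finset.card_univ]

theorem khin_prod_cosh {E : Type} [Fintype E] (c : E → ℝ) (μ : ℝ) :
    ∏ e, Real.cosh (μ * c e) ≤ Real.exp (μ ^ 2 * (∑ e, c e ^ 2) / 2) := by
  calc ∏ e, Real.cosh (μ * c e) ≤ ∏ e, Real.exp ((μ * c e) ^ 2 / 2) := by
        apply Finset.prod_le_prod
        · intro e _
          exact (Real.cosh_pos _).le
        · intro e _
          exact Real.cosh_le_exp_half_sq _
    _ = Real.exp (μ ^ 2 * (∑ e, c e ^ 2) / 2) := by
        rw [← Real.exp_sum]
        congr 1
        rw [Finset.mul_sum, Finset.sum_div]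
        apply Finset.sum_congr rfl
        intro e _
        ring

theorem khin_term (y : ℝ) (k : ℕ) : y ^ (2 * k) / ((2 * k).factorial : ℝ) ≤ Real.cosh y := by
  have h := Real.hasSum_cosh y
  refine le_hasSum h k ?_
  intro j _
  have : 0 ≤ y ^ (2 * j) := by
    rw [pow_mul]
    positivity
  positivity

theorem t_KHIN : St_KHIN := by
  intro E _ _ c k hk
  set S := ∑ e, c e ^ 2 with hS
  have hS0 : 0 ≤ S := Finset.sum_nonneg (fun e _ => sq_nonneg _)
  rcases hS0.eq_or_lt with h0 | hpos
  · have hc : ∀ e, c e = 0 := by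
      intro e
      have h1 := (Finset.sum_eq_zero_iff_of_nonneg (fun e _ => sq_nonneg (c e))).mp h0.symm e
        (Finset.mem_univ e)
      exact pow_eq_zero_iff two_ne_zero |>.mp h1
    have h1 : ∀ s : E → Bool, (∑ e, c e * sg (s e)) ^ (2 * k) = 0 := by
      intro s
      have : ∑ e, c e * sg (s e) = 0 := by
        apply Finset.sum_eq_zero
        intro e _
        rw [hc e, zero_mul]
      rw [this, zero_pow (by omega)]
    rw [Finset.sum_congr rfl (fun s _ => h1 s), Finset.sum_const_zero, zero_div, ← h0]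
    positivity
  · have hk0 : (0 : ℝ) < k := by exact_mod_cast hk
    set l := √(2 * k / S) with hl
    have hl2 : l ^ 2 = 2 * k / S := Real.sq_sqrt (by positivity)
    have hlpos : 0 < l := Real.sqrt_pos.mpr (by positivity)
    have h1 : ∀ s : E → Bool, (l * ∑ e, c e * sg (s e)) ^ (2 * k) / ((2 * k).factorial : ℝ) ≤
        (Real.exp (l * ∑ e, c e * sg (s e)) + Real.exp ((-l) * ∑ e, c e * sg (s e))) / 2 := by
      intro s
      refine (khin_term _ k).trans (le_of_eq ?_)
      rw [Real.cosh_eq, neg_mul]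
    have h2 := Finset.sum_le_sum (fun s (_ : s ∈ (Finset.univ : Finset (E → Bool))) => h1 s)
    rw [← Finset.sum_div, ← Finset.sum_div, Finset.sum_add_distrib, khin_sum_exp,
      khin_sum_exp] at h2
    have h3 : ∏ e, Real.cosh (-l * c e) = ∏ e, Real.cosh (l * c e) := by
      apply Finset.prod_congr rfl
      intro e _
      rw [neg_mul, Real.cosh_neg]
    rw [h3] at h2
    have h4 : ∏ e, Real.cosh (l * c e) ≤ Real.exp k := by
      refine (khin_prod_cosh c l).trans (le_of_eq ?_)
      rw [← hS, hl2]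
      congr 1
      field_simp
    have hN : (0 : ℝ) < 2 ^ (Fintype.card E) := by positivity
    have hf : (0 : ℝ) < ((2 * k).factorial : ℝ) := by positivity
    have h5 : (∑ s : E → Bool, (l * ∑ e, c e * sg (s e)) ^ (2 * k)) =
        l ^ (2 * k) * ∑ s : E → Bool, (∑ e, c e * sg (s e)) ^ (2 * k) := by
      rw [Finset.mul_sum]
      apply Finset.sum_congr rfl
      intro s _
      rw [mul_pow]
    rw [h5] at h2
    set T := ∑ s : E → Bool, (∑ e, c e * sg (s e)) ^ (2 * k) with hT
    -- l^(2k) T <= (2k)! 2^N e^k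
    have h6 : l ^ (2 * k) * T ≤ ((2 * k).factorial : ℝ) * (2 ^ (Fintype.card E) * Real.exp k) := by
      rw [div_le_iff₀ hf] at h2
      calc l ^ (2 * k) * T ≤ _ := h2
        _ = ((2 * k).factorial : ℝ) *
            (2 ^ (Fintype.card E) * ∏ e, Real.cosh (l * c e)) := by ring
        _ ≤ _ := by gcongr
    have h7 : ((2 * k).factorial : ℝ) ≤ (2 * (k : ℝ)) ^ (2 * k) := by
      have := Nat.factorial_le_pow (2 * k)
      calc ((2 * k).factorial : ℝ) ≤ (((2 * k) ^ (2 * k) : ℕ) : ℝ) := by exact_mod_cast this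
        _ = (2 * (k : ℝ)) ^ (2 * k) := by push_cast; ring
    have h8 : l ^ (2 * k) = (2 * k / S) ^ k := by rw [pow_mul, hl2]
    rw [h8] at h6
    have h9 : Real.exp k ≤ 3 ^ k := by
      have : Real.exp (k : ℝ) = Real.exp 1 ^ k := by
        rw [← Real.exp_nat_mul, mul_one]
      rw [this]
      exact pow_le_pow_left₀ (Real.exp_pos 1).le (by linarith [Real.exp_one_lt_d9]) k
    rw [div_le_iff₀ hN]
    have h10 : (2 * (k : ℝ)) ^ k * T ≤
        (2 * (k : ℝ)) ^ k * ((6 * (k : ℝ)) ^ k * S ^ k * 2 ^ (Fintype.card E)) := by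
      calc (2 * (k : ℝ)) ^ k * T = ((2 * k / S) ^ k * T) * S ^ k := by
            rw [div_pow]
            field_simp
        _ ≤ ((2 * (k : ℝ)) ^ (2 * k) * (2 ^ (Fintype.card E) * 3 ^ k)) * S ^ k := by
            apply mul_le_mul_of_nonneg_right _ (by positivity)
            calc (2 * k / S) ^ k * T
                ≤ ((2 * k).factorial : ℝ) * (2 ^ (Fintype.card E) * Real.exp k) := h6
              _ ≤ (2 * (k : ℝ)) ^ (2 * k) * (2 ^ (Fintype.card E) * 3 ^ k) := by gcongr
        _ = (2 * (k : ℝ)) ^ k * (((2 * (k : ℝ)) ^ k * 3 ^ k) * S ^ k * 2 ^ (Fintype.card E)) := by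
            rw [two_mul k, pow_add]; ring
        _ = _ := by rw [← mul_pow]; ring_nf
    exact le_of_mul_le_mul_left h10 (by positivity)

end Pool.H47EA
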