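import Pool.Agent.H47R2.EA.St

/-!
Task KR (helper221): even closed walks in the complete graph.
-/

set_option autoImplicit false

namespace Pool.H47EA
namespace KRAux

open Finset

theorem sg_sq (b : Bool) : sg b ^ 2 = 1 := by cases b <;> simp [sg]

theorem sg_not (b : Bool) : sg (!b) = - sg b := by cases b <;> simp [sg]

variable {r : ℕ}

/-- random symmetric sign matrix with zero diagonal -/
noncomputable def Yf (s : Sym2 (Fin r) → Bool) : Matrix (Fin r) (Fin r) ℝ :=
  Matrix.of fun i j => if i = j then 0 else sg (s s(i, j))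

theorem Yf_apply (s : Sym2 (Fin r) → Bool) (i j : Fin r) :
    Yf s i j = if i = j then 0 else sg (s s(i, j)) := rfl

theorem Yf_symm (s : Sym2 (Fin r) → Bool) : (Yf s).transpose = Yf s := by
  ext i j
  rw [Matrix.transpose_apply, Yf_apply, Yf_apply, Sym2.eq_swap]
  by_cases h : i = j
  · simp [h]
  · have h' : ¬ j = i := fun h' => h h'.symm
    simp [h, h']

theorem pow_entry (Y : Matrix (Fin r) (Fin r) ℝ) (n : ℕ) : ∀ (a b : Fin r),
    (Y ^ n) a b = ∑ p : Fin (n + 1) → Fin r,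
      if p 0 = a ∧ p (Fin.last n) = b then ∏ i : Fin n, Y (p i.castSucc) (p i.succ) else 0 := by
  induction n with
  | zero =>
    intro a b
    rw [pow_zero, Matrix.one_apply, ← (Equiv.funUnique (Fin 1) (Fin r)).symm.sum_comp]
    simp only [univ_eq_empty, prod_empty]
    have : ∀ x : Fin r, (if ((Equiv.funUnique (Fin 1) (Fin r)).symm x) 0 = a ∧
        ((Equiv.funUnique (Fin 1) (Fin r)).symm x) (Fin.last 0) = b then (1 : ℝ) else 0) =
        if x = a then (if a = b then 1 else 0) else 0 := by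
      intro x
      by_cases h : x = a
      · subst h; simp
      · simp [h]
    rw [Finset.sum_congr rfl (fun x _ => this x)]
    simp
  | succ n ih =>
    intro a b
    rw [pow_succ', Matrix.mul_apply, ← (Fin.consEquiv (fun _ => Fin r)).sum_comp,
      Fintype.sum_prod_type]
    have e1 : ∀ c : Fin r, Y a c * (Y ^ n) c b = ∑ p : Fin (n + 1) → Fin r,
        if p 0 = c then (if p (Fin.last n) = b then
          Y a (p 0) * ∏ i : Fin n, Y (p i.castSucc) (p i.succ) else 0) else 0 := by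
      intro c
      rw [ih, Finset.mul_sum]
      refine Finset.sum_congr rfl fun p _ => ?_
      by_cases h1 : p 0 = c
      · by_cases h2 : p (Fin.last n) = b
        · simp [h1, h2]
        · simp [h1, h2]
      · simp [h1]
    rw [Finset.sum_congr rfl (fun c _ => e1 c), Finset.sum_comm]
    have e2 : ∀ x : Fin r, (∑ p : Fin (n + 1) → Fin r,
        if (Fin.consEquiv (fun _ => Fin r)) (x, p) 0 = a ∧
          (Fin.consEquiv (fun _ => Fin r)) (x, p) (Fin.last (n + 1)) = b then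
          ∏ i : Fin (n + 1), Y ((Fin.consEquiv (fun _ => Fin r)) (x, p) i.castSucc)
            ((Fin.consEquiv (fun _ => Fin r)) (x, p) i.succ) else 0) =
        if x = a then ∑ p : Fin (n + 1) → Fin r, (if p (Fin.last n) = b then
          Y a (p 0) * ∏ i : Fin n, Y (p i.castSucc) (p i.succ) else 0) else 0 := by
      intro x
      by_cases h : x = a
      · subst h
        rw [if_pos rfl]
        refine Finset.sum_congr rfl fun p _ => ?_
        have h0 : (Fin.consEquiv (fun _ => Fin r)) (x, p) 0 = x := rfl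
        have h1 : ∀ i : Fin (n + 1), (Fin.consEquiv (fun _ => Fin r)) (x, p) i.succ = p i :=
          fun i => rfl
        have h2 : (Fin.consEquiv (fun _ => Fin r)) (x, p) (Fin.last (n + 1)) = p (Fin.last n) :=
          rfl
        rw [h0, h2]
        by_cases hb : p (Fin.last n) = b
        · rw [if_pos ⟨rfl, hb⟩, if_pos hb, Fin.prod_univ_succ]
          have h3 : (Fin.consEquiv (fun _ => Fin r)) (x, p) (Fin.castSucc 0) = x := rfl
          rw [h3, h1]
          congr 1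
        · rw [if_neg (fun hh => hb hh.2), if_neg hb]
      · rw [if_neg h]
        refine Finset.sum_eq_zero fun p _ => ?_
        rw [if_neg]
        rintro ⟨h1, _⟩
        exact h h1
    rw [Finset.sum_congr rfl (fun x _ => e2 x)]
    simp

/-- product of the signs along a walk whose consecutive vertices are distinct -/
theorem prod_Yf (s : Sym2 (Fin r) → Bool) (n : ℕ) (p : Fin (n + 1) → Fin r)
    (h : ∀ i : Fin n, p i.castSucc ≠ p i.succ) :
    ∏ i : Fin n, Yf s (p i.castSucc) (p i.succ) =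
      ∏ e : Sym2 (Fin r), sg (s e) ^
        (univ.filter (fun i : Fin n => s(p i.castSucc, p i.succ) = e)).card := by
  have h1 : ∀ i : Fin n, Yf s (p i.castSucc) (p i.succ) = sg (s s(p i.castSucc, p i.succ)) := by
    intro i
    rw [Yf_apply, if_neg (h i)]
  rw [Finset.prod_congr rfl (fun i _ => h1 i)]
  rw [← Finset.prod_fiberwise_of_maps_to (s := univ) (t := univ)
    (g := fun i : Fin n => s(p i.castSucc, p i.succ)) (fun _ _ => mem_univ _)]
  refine Finset.prod_congr rfl fun e _ => ?_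
  rw [← Finset.prod_const]
  refine Finset.prod_congr rfl fun i hi => ?_
  rw [(Finset.mem_filter.mp hi).2]

theorem prod_even (s : Sym2 (Fin r) → Bool) (n : ℕ) (p : Fin (n + 1) → Fin r)
    (h : ∀ i : Fin n, p i.castSucc ≠ p i.succ) (he : EvenP n p) :
    ∏ i : Fin n, Yf s (p i.castSucc) (p i.succ) = 1 := by
  rw [prod_Yf s n p h]
  refine Finset.prod_eq_one fun e _ => ?_
  obtain ⟨m, hm⟩ := he e
  rw [hm, ← two_mul, pow_mul, sg_sq, one_pow]

/-- flipping one sign -/
def flp (e : Sym2 (Fin r)) (s : Sym2 (Fin r) → Bool) : Sym2 (Fin r) → Bool :=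
  Function.update s e (!(s e))

theorem flp_flp (e : Sym2 (Fin r)) (s : Sym2 (Fin r) → Bool) : flp e (flp e s) = s := by
  funext x
  by_cases h : x = e
  · subst h; simp [flp]
  · simp [flp, h]

def flpEquiv (e : Sym2 (Fin r)) : (Sym2 (Fin r) → Bool) ≃ (Sym2 (Fin r) → Bool) :=
  ⟨flp e, flp e, flp_flp e, flp_flp e⟩

theorem sum_odd (n : ℕ) (p : Fin (n + 1) → Fin r)
    (h : ∀ i : Fin n, p i.castSucc ≠ p i.succ) (he : ¬ EvenP n p) :
    ∑ s : Sym2 (Fin r) → Bool, ∏ i : Fin n, Yf s (p i.castSucc) (p i.succ) = 0 := by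
  unfold EvenP at he
  rw [not_forall] at he
  obtain ⟨e, he⟩ := he
  have hodd : Odd (univ.filter (fun i : Fin n => s(p i.castSucc, p i.succ) = e)).card :=
    Nat.not_even_iff_odd.mp he
  have key : ∀ s : Sym2 (Fin r) → Bool,
      ∏ i : Fin n, Yf (flp e s) (p i.castSucc) (p i.succ) =
        - ∏ i : Fin n, Yf s (p i.castSucc) (p i.succ) := by
    intro s
    rw [prod_Yf _ n p h, prod_Yf _ n p h,
      ← Finset.mul_prod_erase univ _ (mem_univ e), ← Finset.mul_prod_erase univ _ (mem_univ e)]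
    have h1 : sg (flp e s e) = - sg (s e) := by
      rw [← sg_not]; simp [flp]
    have h2 : ∀ x ∈ univ.erase e, sg (flp e s x) ^
        (univ.filter (fun i : Fin n => s(p i.castSucc, p i.succ) = x)).card =
        sg (s x) ^ (univ.filter (fun i : Fin n => s(p i.castSucc, p i.succ) = x)).card := by
      intro x hx
      have hxe := Finset.ne_of_mem_erase hx
      simp [flp, hxe]
    rw [h1, Finset.prod_congr rfl h2, hodd.neg_pow]
    ring
  have h3 := (flpEquiv e).sum_comp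
    (fun s : Sym2 (Fin r) → Bool => ∏ i : Fin n, Yf s (p i.castSucc) (p i.succ))
  have h4 : ∀ s, (fun s : Sym2 (Fin r) → Bool => ∏ i : Fin n, Yf s (p i.castSucc) (p i.succ))
      (flpEquiv e s) = - ∏ i : Fin n, Yf s (p i.castSucc) (p i.succ) := fun s => key s
  rw [Finset.sum_congr rfl (fun s _ => h4 s), Finset.sum_neg_distrib] at h3
  linarith

theorem sum_zero (n : ℕ) (p : Fin (n + 1) → Fin r)
    (h : ¬ ∀ i : Fin n, p i.castSucc ≠ p i.succ) (s : Sym2 (Fin r) → Bool) :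
    ∏ i : Fin n, Yf s (p i.castSucc) (p i.succ) = 0 := by
  rw [not_forall] at h
  obtain ⟨i, hi⟩ := h
  rw [not_not] at hi
  refine Finset.prod_eq_zero (mem_univ i) ?_
  rw [Yf_apply, if_pos hi]

theorem walks_eq (n : ℕ) (o : Fin r) :
    ((evenWalks (⊤ : SimpleGraph (Fin r)) o n).ncard : ℝ) * 2 ^ Fintype.card (Sym2 (Fin r)) =
      ∑ s : Sym2 (Fin r) → Bool, (Yf s ^ n) o o := by
  classical
  have e1 : ∀ s : Sym2 (Fin r) → Bool, (Yf s ^ n) o o = ∑ p : Fin (n + 1) → Fin r,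
      if p 0 = o ∧ p (Fin.last n) = o then ∏ i : Fin n, Yf s (p i.castSucc) (p i.succ) else 0 :=
    fun s => pow_entry (Yf s) n o o
  rw [Finset.sum_congr rfl (fun s _ => e1 s), Finset.sum_comm]
  have e2 : ∀ p : Fin (n + 1) → Fin r,
      (∑ s : Sym2 (Fin r) → Bool, if p 0 = o ∧ p (Fin.last n) = o then
        ∏ i : Fin n, Yf s (p i.castSucc) (p i.succ) else 0) =
      if p ∈ evenWalks (⊤ : SimpleGraph (Fin r)) o n then
        (2 : ℝ) ^ Fintype.card (Sym2 (Fin r)) else 0 := by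
    intro p
    by_cases h0 : p 0 = o ∧ p (Fin.last n) = o
    · simp only [if_pos h0]
      by_cases h1 : ∀ i : Fin n, p i.castSucc ≠ p i.succ
      · by_cases h2 : EvenP n p
        · rw [if_pos (show p ∈ evenWalks (⊤ : SimpleGraph (Fin r)) o n from
            ⟨h0.1, h0.2, fun i => h1 i, h2⟩)]
          rw [Finset.sum_congr rfl (fun s _ => prod_even s n p h1 h2)]
          simp
        · rw [if_neg (show ¬ p ∈ evenWalks (⊤ : SimpleGraph (Fin r)) o n from
            fun h => h2 h.2.2.2)]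
          exact sum_odd n p h1 h2
      · rw [if_neg (show ¬ p ∈ evenWalks (⊤ : SimpleGraph (Fin r)) o n from
            fun h => h1 (fun i => h.2.2.1 i))]
        exact Finset.sum_eq_zero fun s _ => sum_zero n p h1 s
    · simp only [if_neg h0]
      rw [if_neg (show ¬ p ∈ evenWalks (⊤ : SimpleGraph (Fin r)) o n from
            fun h => h0 ⟨h.1, h.2.1⟩)]
      simp
  rw [Finset.sum_congr rfl (fun p _ => e2 p), ← Finset.sum_filter, Finset.sum_const,
    nsmul_eq_mul]
  congr 1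
  rw [Set.ncard_eq_toFinset_card']
  congr 2
  ext p
  simp

/-- diagonal entry of an even power of a symmetric matrix -/
theorem diag_pow (Y : Matrix (Fin r) (Fin r) ℝ) (hY : Y.transpose = Y) (k : ℕ) (o : Fin r) :
    (Y ^ (2 * k)) o o = ∑ j, ((Y ^ k) j o) ^ 2 := by
  rw [two_mul, pow_add, Matrix.mul_apply]
  refine Finset.sum_congr rfl fun j _ => ?_
  have : (Y ^ k) o j = (Y ^ k) j o := by
    have h : (Y ^ k).transpose = Y ^ k := by rw [Matrix.transpose_pow, hY]
    conv_lhs => rw [← h]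
    rfl
  rw [this, sq]

theorem norm_step (Y : Matrix (Fin r) (Fin r) ℝ) (M : ℝ) (hM : 0 ≤ M)
    (h : ∀ u v : Fin r → ℝ,
        |∑ i, ∑ j, u i * Y i j * v j| ≤ 3 * M * √(∑ i, u i ^ 2) * √(∑ i, v i ^ 2))
    (x : Fin r → ℝ) :
    ∑ i, (∑ j, Y i j * x j) ^ 2 ≤ (3 * M) ^ 2 * ∑ j, x j ^ 2 := by
  set y : Fin r → ℝ := fun i => ∑ j, Y i j * x j with hy
  have h1 := h y x
  have h2 : ∑ i, ∑ j, y i * Y i j * x j = ∑ i, y i ^ 2 := by
    refine Finset.sum_congr rfl fun i _ => ?_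
    rw [sq]
    conv_rhs => rw [hy]
    simp only
    rw [Finset.mul_sum]
    refine Finset.sum_congr rfl fun j _ => ?_
    ring
  rw [h2] at h1
  set A := ∑ i, y i ^ 2 with hA
  set B := ∑ j, x j ^ 2 with hB
  have hA0 : 0 ≤ A := Finset.sum_nonneg fun i _ => sq_nonneg _
  have hB0 : 0 ≤ B := Finset.sum_nonneg fun i _ => sq_nonneg _
  rw [abs_of_nonneg hA0] at h1
  show A ≤ (3 * M) ^ 2 * B
  by_cases hz : A = 0
  · rw [hz]; positivity
  · have hA1 : 0 < A := lt_of_le_of_ne hA0 (Ne.symm hz)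
    have hs : 0 < √A := Real.sqrt_pos.mpr hA1
    have h3 : √A * √A ≤ (3 * M * √B) * √A := by
      rw [Real.mul_self_sqrt hA0]; linarith
    have h4 : √A ≤ 3 * M * √B := le_of_mul_le_mul_right h3 hs
    have h5 : √A ^ 2 ≤ (3 * M * √B) ^ 2 := pow_le_pow_left₀ hs.le h4 2
    rw [Real.sq_sqrt hA0, mul_pow, Real.sq_sqrt hB0] at h5
    exact h5

theorem norm_pow (Y : Matrix (Fin r) (Fin r) ℝ) (M : ℝ) (hM : 0 ≤ M)
    (h : ∀ u v : Fin r → ℝ,
        |∑ i, ∑ j, u i * Y i j * v j| ≤ 3 * M * √(∑ i, u i ^ 2) * √(∑ i, v i ^ 2))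
    (k : ℕ) (o : Fin r) : ∑ j, ((Y ^ k) j o) ^ 2 ≤ (3 * M) ^ (2 * k) := by
  induction k with
  | zero =>
    rw [pow_zero, Nat.mul_zero, pow_zero]
    have : ∀ j : Fin r, ((1 : Matrix (Fin r) (Fin r) ℝ) j o) ^ 2 = if j = o then 1 else 0 := by
      intro j
      rw [Matrix.one_apply]
      split_ifs <;> simp
    rw [Finset.sum_congr rfl (fun j _ => this j)]
    simp
  | succ k ih =>
    have h1 := norm_step Y M hM h (fun j => (Y ^ k) j o)
    have h2 : ∀ i : Fin r, (Y ^ (k + 1)) i o = ∑ j, Y i j * (Y ^ k) j o := by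
      intro i
      rw [pow_succ', Matrix.mul_apply]
    rw [Finset.sum_congr rfl (fun i _ => by rw [h2 i])]
    refine h1.trans ?_
    have h3 : (3 * M) ^ (2 * (k + 1)) = (3 * M) ^ 2 * (3 * M) ^ (2 * k) := by
      rw [← pow_add]; congr 1; ring
    rw [h3]
    exact mul_le_mul_of_nonneg_left ih (sq_nonneg _)

/-- coefficients of the bilinear form as a function of the signs -/
noncomputable def co (u v : Fin r → ℝ) (e : Sym2 (Fin r)) : ℝ :=
  ∑ q ∈ (univ : Finset (Fin r × Fin r)).filter (fun q => s(q.1, q.2) = e),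
    if q.1 = q.2 then 0 else u q.1 * v q.2

theorem form_eq (u v : Fin r → ℝ) (s : Sym2 (Fin r) → Bool) :
    ∑ i, ∑ j, u i * Yf s i j * v j = ∑ e, co u v e * sg (s e) := by
  rw [← Fintype.sum_prod_type' (f := fun i j => u i * Yf s i j * v j)]
  rw [← Finset.sum_fiberwise_of_maps_to (s := univ) (t := univ)
    (g := fun q : Fin r × Fin r => s(q.1, q.2)) (fun _ _ => mem_univ _)]
  refine Finset.sum_congr rfl fun e _ => ?_
  rw [co, Finset.sum_mul]
  refine Finset.sum_congr rfl fun q hq => ?_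
  rw [Yf_apply]
  have := (Finset.mem_filter.mp hq).2
  rw [this]
  by_cases h : q.1 = q.2
  · simp [h]
  · simp only [if_neg h]; ring

theorem fiber_card (e : Sym2 (Fin r)) :
    ((univ : Finset (Fin r × Fin r)).filter (fun q => s(q.1, q.2) = e)).card ≤ 2 := by
  induction e using Sym2.ind with
  | _ a b =>
    refine (Finset.card_le_card (t := {(a, b), (b, a)}) ?_).trans Finset.card_le_two
    intro q hq
    have := (Finset.mem_filter.mp hq).2
    rw [Sym2.eq_iff] at this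
    rw [Finset.mem_insert, Finset.mem_singleton]
    rcases this with ⟨h1, h2⟩ | ⟨h1, h2⟩
    · left; exact Prod.ext h1 h2
    · right; exact Prod.ext h1 h2

theorem co_sq (u v : Fin r → ℝ) (hu : ∑ i, u i ^ 2 ≤ 2) (hv : ∑ i, v i ^ 2 ≤ 2) :
    ∑ e, co u v e ^ 2 ≤ 8 := by
  have h1 : ∀ e : Sym2 (Fin r), co u v e ^ 2 ≤
      ∑ q ∈ (univ : Finset (Fin r × Fin r)).filter (fun q => s(q.1, q.2) = e),
        2 * (u q.1 ^ 2 * v q.2 ^ 2) := by
    intro e
    have h2 := sq_sum_le_card_mul_sum_sq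
      (s := (univ : Finset (Fin r × Fin r)).filter (fun q => s(q.1, q.2) = e))
      (f := fun q => if q.1 = q.2 then 0 else u q.1 * v q.2)
    refine h2.trans ?_
    rw [← Finset.mul_sum]
    refine mul_le_mul ?_ ?_ (Finset.sum_nonneg fun _ _ => sq_nonneg _) (by norm_num)
    · exact_mod_cast fiber_card e
    · refine Finset.sum_le_sum fun q _ => ?_
      split_ifs
      · simp; positivity
      · rw [mul_pow]
  refine (Finset.sum_le_sum fun e _ => h1 e).trans ?_
  rw [Finset.sum_fiberwise_of_maps_to (s := univ) (t := univ)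
    (g := fun q : Fin r × Fin r => s(q.1, q.2)) (fun _ _ => mem_univ _)
    (fun q => 2 * (u q.1 ^ 2 * v q.2 ^ 2)), ← Finset.mul_sum,
    Fintype.sum_prod_type' (f := fun i j => u i ^ 2 * v j ^ 2), ← Finset.sum_mul_sum]
  have h3 : 0 ≤ ∑ i, v i ^ 2 := Finset.sum_nonneg fun _ _ => sq_nonneg _
  have h4 : 0 ≤ ∑ i, u i ^ 2 := Finset.sum_nonneg fun _ _ => sq_nonneg _
  nlinarith

end KRAux

open KRAux Finset

theorem t_KR (hk : St_KHIN) (hn : St_NET) : St_KR := by
  refine ⟨9 * 48 * 39 ^ 4, by norm_num, ?_⟩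
  intro r k hk1 hrk o
  obtain ⟨N, hN1, hN2, hN3⟩ := hn r
  have hk0 : 2 * k ≠ 0 := by omega
  -- bound for one matrix
  have key : ∀ s : Sym2 (Fin r) → Bool, (Yf s ^ (2 * k)) o o ≤
      9 ^ k * ∑ u ∈ N, ∑ v ∈ N, (∑ e, co u v e * sg (s e)) ^ (2 * k) := by
    intro s
    set S := ∑ u ∈ N, ∑ v ∈ N, (∑ e, co u v e * sg (s e)) ^ (2 * k) with hS
    have hpos : ∀ u v : Fin r → ℝ, 0 ≤ (∑ e, co u v e * sg (s e)) ^ (2 * k) := by
      intro u v
      exact (even_two_mul k).pow_nonneg _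
    have hS0 : 0 ≤ S := Finset.sum_nonneg fun u _ => Finset.sum_nonneg fun v _ => hpos u v
    set M := S ^ (((2 * k : ℕ) : ℝ)⁻¹) with hM
    have hM0 : 0 ≤ M := Real.rpow_nonneg hS0 _
    have hMk : M ^ (2 * k) = S := Real.rpow_inv_natCast_pow hS0 hk0
    have hb : ∀ u ∈ N, ∀ v ∈ N, |∑ i, ∑ j, u i * Yf s i j * v j| ≤ M := by
      intro u hu v hv
      rw [form_eq]
      have h1 : |∑ e, co u v e * sg (s e)| ^ (2 * k) ≤ M ^ (2 * k) := by
        rw [hMk, (even_two_mul k).pow_abs]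
        refine le_trans ?_ (Finset.single_le_sum (f := fun u => ∑ v ∈ N,
          (∑ e, co u v e * sg (s e)) ^ (2 * k))
          (fun u _ => Finset.sum_nonneg fun v _ => hpos u v) hu)
        exact Finset.single_le_sum (f := fun v => (∑ e, co u v e * sg (s e)) ^ (2 * k))
          (fun v _ => hpos u v) hv
      exact (pow_le_pow_iff_left₀ (abs_nonneg _) hM0 hk0).mp h1
    have h1 := hN3 (fun i j => Yf s i j) M hM0 hb
    have h2 := norm_pow (Yf s) M hM0 h1 k o
    rw [diag_pow (Yf s) (Yf_symm s)]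
    refine h2.trans (le_of_eq ?_)
    rw [mul_pow, hMk, pow_mul]
    norm_num
  -- sum over the signs
  have hsum : ((evenWalks (⊤ : SimpleGraph (Fin r)) o (2 * k)).ncard : ℝ) *
      2 ^ Fintype.card (Sym2 (Fin r)) ≤
      9 ^ k * ∑ u ∈ N, ∑ v ∈ N, ∑ s : Sym2 (Fin r) → Bool,
        (∑ e, co u v e * sg (s e)) ^ (2 * k) := by
    rw [walks_eq]
    refine (Finset.sum_le_sum fun s _ => key s).trans (le_of_eq ?_)
    rw [← Finset.mul_sum]
    congr 1
    rw [Finset.sum_comm]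
    refine Finset.sum_congr rfl fun u _ => ?_
    rw [Finset.sum_comm]
  have hP : (0 : ℝ) < 2 ^ Fintype.card (Sym2 (Fin r)) := by positivity
  have hK : ∀ u ∈ N, ∀ v ∈ N, ∑ s : Sym2 (Fin r) → Bool,
      (∑ e, co u v e * sg (s e)) ^ (2 * k) ≤
      (48 * (k : ℝ)) ^ k * 2 ^ Fintype.card (Sym2 (Fin r)) := by
    intro u hu v hv
    have h1 := hk (Sym2 (Fin r)) (co u v) k hk1
    rw [div_le_iff₀ hP] at h1
    refine h1.trans ?_
    refine mul_le_mul_of_nonneg_right ?_ hP.le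
    have h2 : (∑ e, co u v e ^ 2) ^ k ≤ 8 ^ k :=
      pow_le_pow_left₀ (Finset.sum_nonneg fun _ _ => sq_nonneg _)
        (co_sq u v (hN2 u hu) (hN2 v hv)) k
    calc (6 * (k : ℝ)) ^ k * (∑ e, co u v e ^ 2) ^ k ≤ (6 * (k : ℝ)) ^ k * 8 ^ k :=
          mul_le_mul_of_nonneg_left h2 (by positivity)
      _ = (48 * (k : ℝ)) ^ k := by rw [← mul_pow]; congr 1; ring
  have hK2 : ∑ u ∈ N, ∑ v ∈ N, ∑ s : Sym2 (Fin r) → Bool,
        (∑ e, co u v e * sg (s e)) ^ (2 * k) ≤
      (N.card : ℝ) * ((N.card : ℝ) * ((48 * (k : ℝ)) ^ k * 2 ^ Fintype.card (Sym2 (Fin r)))) := by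
    rw [← nsmul_eq_mul, ← nsmul_eq_mul]
    refine Finset.sum_le_card_nsmul N _ _ fun u hu => ?_
    exact Finset.sum_le_card_nsmul N _ _ fun v hv => hK u hu v hv
  have hcard : (N.card : ℝ) ≤ 39 ^ (2 * k) :=
    hN1.trans (pow_le_pow_right₀ (by norm_num) hrk)
  have hfin : ((evenWalks (⊤ : SimpleGraph (Fin r)) o (2 * k)).ncard : ℝ) *
      2 ^ Fintype.card (Sym2 (Fin r)) ≤
      (9 * 48 * 39 ^ 4 * (k : ℝ)) ^ k * 2 ^ Fintype.card (Sym2 (Fin r)) := by
    refine hsum.trans ((mul_le_mul_of_nonneg_left hK2 (by positivity)).trans ?_)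
    have h5 : (N.card : ℝ) * (N.card : ℝ) ≤ 39 ^ (2 * k) * 39 ^ (2 * k) :=
      mul_le_mul hcard hcard (Nat.cast_nonneg _) (by positivity)
    have h6 : 0 ≤ (48 * (k : ℝ)) ^ k * 2 ^ Fintype.card (Sym2 (Fin r)) := by positivity
    calc (9 : ℝ) ^ k * ((N.card : ℝ) * ((N.card : ℝ) *
          ((48 * (k : ℝ)) ^ k * 2 ^ Fintype.card (Sym2 (Fin r)))))
        = 9 ^ k * (((N.card : ℝ) * (N.card : ℝ)) *
          ((48 * (k : ℝ)) ^ k * 2 ^ Fintype.card (Sym2 (Fin r)))) := by ring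
      _ ≤ 9 ^ k * ((39 ^ (2 * k) * 39 ^ (2 * k)) *
          ((48 * (k : ℝ)) ^ k * 2 ^ Fintype.card (Sym2 (Fin r)))) := by
          refine mul_le_mul_of_nonneg_left (mul_le_mul_of_nonneg_right h5 h6) (by positivity)
      _ = (9 * 48 * 39 ^ 4 * (k : ℝ)) ^ k * 2 ^ Fintype.card (Sym2 (Fin r)) := by
          rw [← pow_add, show 2 * k + 2 * k = 4 * k from by ring, pow_mul (39 : ℝ) 4 k]
          rw [mul_pow (48 : ℝ) (k : ℝ) k, mul_pow (9 * 48 * 39 ^ 4 : ℝ) (k : ℝ) k,
            mul_pow (9 * 48 : ℝ) (39 ^ 4) k, mul_pow (9 : ℝ) 48 k]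
          ring
  exact le_of_mul_le_mul_right hfin hP

end Pool.H47EA
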