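import Pool.Agent.H47R2.EA.St

/-!
# The Edwards–Anderson model: a finite net of the unit ball of `ℝ^r`
-/

set_option autoImplicit false

namespace Pool.H47EA

namespace NetAux

variable {r : ℕ}

theorem bil_add_left (Y : Fin r → Fin r → ℝ) (u u' v : Fin r → ℝ) :
    ∑ i, ∑ j, (u i + u' i) * Y i j * v j =
      ∑ i, ∑ j, u i * Y i j * v j + ∑ i, ∑ j, u' i * Y i j * v j := by
  rw [← Finset.sum_add_distrib]
  refine Finset.sum_congr rfl fun i _ => ?_
  rw [← Finset.sum_add_distrib]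
  refine Finset.sum_congr rfl fun j _ => ?_
  ring

theorem split3 (Y : Fin r → Fin r → ℝ) (u u' v v' : Fin r → ℝ) :
    ∑ i, ∑ j, u i * Y i j * v j =
      ∑ i, ∑ j, u' i * Y i j * v' j + ∑ i, ∑ j, (u i - u' i) * Y i j * v j
        + ∑ i, ∑ j, u' i * Y i j * (v j - v' j) := by
  rw [← Finset.sum_add_distrib, ← Finset.sum_add_distrib]
  refine Finset.sum_congr rfl fun i _ => ?_
  rw [← Finset.sum_add_distrib, ← Finset.sum_add_distrib]
  refine Finset.sum_congr rfl fun j _ => ?_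
  ring

theorem scale (Y : Fin r → Fin r → ℝ) (u v : Fin r → ℝ) (a b : ℝ) :
    ∑ i, ∑ j, (a * u i) * Y i j * (b * v j) = a * b * ∑ i, ∑ j, u i * Y i j * v j := by
  rw [Finset.mul_sum]
  refine Finset.sum_congr rfl fun i _ => ?_
  rw [Finset.mul_sum]
  refine Finset.sum_congr rfl fun j _ => ?_
  ring

theorem abs_le_nrm (u : Fin r → ℝ) (i : Fin r) : |u i| ≤ √(∑ i, u i ^ 2) := by
  rw [← Real.sqrt_sq_eq_abs]
  exact Real.sqrt_le_sqrt
    (Finset.single_le_sum (f := fun i => u i ^ 2) (fun j _ => sq_nonneg _) (Finset.mem_univ i))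

/-- crude bound -/
theorem crude (Y : Fin r → Fin r → ℝ) (u v : Fin r → ℝ) :
    |∑ i, ∑ j, u i * Y i j * v j| ≤
      (∑ i, ∑ j, |Y i j|) * √(∑ i, u i ^ 2) * √(∑ i, v i ^ 2) := by
  calc |∑ i, ∑ j, u i * Y i j * v j| ≤ ∑ i, ∑ j, |u i * Y i j * v j| :=
        (Finset.abs_sum_le_sum_abs _ _).trans
          (Finset.sum_le_sum fun i _ => Finset.abs_sum_le_sum_abs _ _)
    _ ≤ ∑ i, ∑ j, |Y i j| * √(∑ i, u i ^ 2) * √(∑ i, v i ^ 2) := by
        refine Finset.sum_le_sum fun i _ => Finset.sum_le_sum fun j _ => ?_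
        rw [abs_mul, abs_mul, mul_comm |u i|]
        gcongr
        · exact abs_le_nrm u i
        · exact abs_le_nrm v j
    _ = _ := by
        simp only [Finset.sum_mul]

/-- approximation by the net -/
theorem approx (hr : 1 ≤ r) (u : Fin r → ℝ) (hu : ∑ i, u i ^ 2 ≤ 1) :
    ∃ z : Fin r → ℤ, ∑ i, (u i - (z i : ℝ) / (2 * √r)) ^ 2 ≤ 1 / 16 ∧
      ∑ i, ((z i : ℝ) / (2 * √r)) ^ 2 ≤ 25 / 16 ∧ ∑ i, (z i : ℝ) ^ 2 ≤ 25 / 4 * r := by
  have hr0 : (0 : ℝ) < r := by exact_mod_cast hr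
  have hs : (0 : ℝ) < √r := Real.sqrt_pos.2 hr0
  have hs2 : √(r : ℝ) ^ 2 = r := Real.sq_sqrt hr0.le
  refine ⟨fun i => round (2 * √r * u i), ?_⟩
  have h1 : ∀ i, (u i - (round (2 * √r * u i) : ℝ) / (2 * √r)) ^ 2 ≤ 1 / (16 * r) := by
    intro i
    have h := abs_sub_round (2 * √r * u i)
    have e : u i - (round (2 * √r * u i) : ℝ) / (2 * √r) =
        (2 * √r * u i - (round (2 * √r * u i) : ℝ)) / (2 * √r) := by
      field_simp
    rw [e, div_pow, ← sq_abs (2 * √r * u i - (round (2 * √r * u i) : ℝ)), mul_pow, hs2,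
      div_le_div_iff₀ (by positivity) (by positivity)]
    have h2 : |2 * √r * u i - (round (2 * √r * u i) : ℝ)| ^ 2 ≤ (1 / 2) ^ 2 := by
      gcongr
    nlinarith
  have h2 : ∑ i, (u i - (round (2 * √r * u i) : ℝ) / (2 * √r)) ^ 2 ≤ 1 / 16 := by
    refine (Finset.sum_le_sum fun i _ => h1 i).trans ?_
    rw [Finset.sum_const, Finset.card_univ, Fintype.card_fin, nsmul_eq_mul]
    apply le_of_eq
    field_simp
  have h3 : ∑ i, ((round (2 * √r * u i) : ℝ) / (2 * √r)) ^ 2 ≤ 25 / 16 := by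
    have h4 : ∑ i, ((round (2 * √r * u i) : ℝ) / (2 * √r)) ^ 2 ≤
        ∑ i, ((5 / 4) * u i ^ 2 + 5 * (u i - (round (2 * √r * u i) : ℝ) / (2 * √r)) ^ 2) := by
      refine Finset.sum_le_sum fun i _ => ?_
      nlinarith [sq_nonneg (u i / 2 - 2 * ((round (2 * √r * u i) : ℝ) / (2 * √r) - u i))]
    rw [Finset.sum_add_distrib, ← Finset.mul_sum, ← Finset.mul_sum] at h4
    linarith
  refine ⟨h2, h3, ?_⟩
  have h5 : ∑ i, ((round (2 * √r * u i) : ℝ) / (2 * √r)) ^ 2 =
      (∑ i, (round (2 * √r * u i) : ℝ) ^ 2) / (4 * r) := by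
    rw [Finset.sum_div]
    refine Finset.sum_congr rfl fun i _ => ?_
    rw [div_pow, mul_pow, hs2]
    norm_num
  rw [h5, div_le_iff₀ (by positivity)] at h3
  linarith

end NetAux

open NetAux in
theorem t_NET (hb : St_BALL) : St_NET := by
  classical
  intro r
  rcases Nat.eq_zero_or_pos r with hr | hr
  · subst hr
    refine ⟨{fun _ => 0}, by simp, by simp, ?_⟩
    intro Y M hM _ u v
    simp
  have hr0 : (0 : ℝ) < r := by exact_mod_cast hr
  have hs : (0 : ℝ) < √r := Real.sqrt_pos.2 hr0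
  have hs2 : √(r : ℝ) ^ 2 = r := Real.sq_sqrt hr0.le
  refine ⟨((ball (0 : Site r) (7 * r)).filter (fun z => ∑ i, (z i : ℝ) ^ 2 ≤ 25 / 4 * r)).image
    (fun z i => (z i : ℝ) / (2 * √r)), ?_, ?_, ?_⟩
  · -- cardinality
    have h1 := hb r (7 * r) 0 (7 / 8) (by norm_num) (by norm_num)
    have h2 : ((((ball (0 : Site r) (7 * r)).filter
        (fun z => ∑ i, (z i : ℝ) ^ 2 ≤ 25 / 4 * r)).image
        (fun z (i : Fin r) => (z i : ℝ) / (2 * √r))).card : ℝ) ≤ ((ball (0 : Site r) (7 * r)).card : ℝ) := by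
      exact_mod_cast Finset.card_image_le.trans (Finset.card_filter_le _ _)
    refine h2.trans ?_
    have h3 : ((1 + 7 / 8 : ℝ) / (1 - 7 / 8)) = 15 := by norm_num
    rw [h3, pow_mul] at h1
    have h4 : (15 : ℝ) ≤ 39 * (7 / 8) ^ 7 := by norm_num
    have h5 : (15 : ℝ) ^ r ≤ 39 ^ r * ((7 / 8) ^ 7) ^ r := by
      rw [← mul_pow]
      gcongr
    have h6 : (0 : ℝ) < ((7 / 8) ^ 7) ^ r := by positivity
    exact le_of_mul_le_mul_right (h1.trans h5) h6
  · intro u hu
    rw [Finset.mem_image] at hu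
    obtain ⟨z, hz, rfl⟩ := hu
    rw [Finset.mem_filter] at hz
    have h5 : ∑ i, ((z i : ℝ) / (2 * √r)) ^ 2 = (∑ i, (z i : ℝ) ^ 2) / (4 * r) := by
      rw [Finset.sum_div]
      refine Finset.sum_congr rfl fun i _ => ?_
      rw [div_pow, mul_pow, hs2]
      norm_num
    show ∑ i, ((z i : ℝ) / (2 * √r)) ^ 2 ≤ 2
    rw [h5, div_le_iff₀ (by positivity)]
    linarith [hz.2]
  · intro Y M hM hY
    -- the points of the net near a given point
    have near : ∀ u : Fin r → ℝ, ∑ i, u i ^ 2 ≤ 1 → ∃ u' ∈ ((ball (0 : Site r) (7 * r)).filter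
        (fun z => ∑ i, (z i : ℝ) ^ 2 ≤ 25 / 4 * r)).image
        (fun z (i : Fin r) => (z i : ℝ) / (2 * √r)), ∑ i, (u i - u' i) ^ 2 ≤ 1 / 16 ∧
        ∑ i, u' i ^ 2 ≤ 25 / 16 := by
      intro u hu
      obtain ⟨z, hz1, hz2, hz3⟩ := approx hr u hu
      refine ⟨fun i => (z i : ℝ) / (2 * √r), ?_, hz1, hz2⟩
      rw [Finset.mem_image]
      refine ⟨z, ?_, rfl⟩
      rw [Finset.mem_filter]
      refine ⟨?_, hz3⟩
      have hz4 : ∀ i, ((z i).natAbs : ℤ) ≤ z i ^ 2 := by
        intro i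
        rw [Int.natCast_natAbs, ← sq_abs]
        have h0 := abs_nonneg (z i)
        rcases h0.eq_or_lt with h | h
        · rw [← h]; norm_num
        · nlinarith
      have hz5 : (∑ i, z i ^ 2) ≤ 7 * (r : ℤ) := by
        have : ((∑ i, z i ^ 2 : ℤ) : ℝ) ≤ 7 * (r : ℝ) := by
          push_cast
          linarith
        exact_mod_cast this
      have hz6 : (∑ i, ((z i).natAbs : ℤ)) ≤ 7 * (r : ℤ) :=
        (Finset.sum_le_sum fun i _ => hz4 i).trans hz5
      have hz7 : ∀ i, ((z i).natAbs : ℤ) ≤ 7 * (r : ℤ) := fun i =>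
        (Finset.single_le_sum (f := fun i => ((z i).natAbs : ℤ))
          (fun j _ => Int.natCast_nonneg _) (Finset.mem_univ i)).trans hz6
      unfold ball
      rw [Finset.mem_filter, Finset.mem_Icc]
      refine ⟨⟨fun i => ?_, fun i => ?_⟩, ?_⟩
      · have := hz7 i
        simp only [Pi.zero_apply]
        push_cast
        omega
      · have := hz7 i
        simp only [Pi.zero_apply]
        push_cast
        omega
      · unfold dist1
        have : ((∑ i, ((0 : Site r) i - z i).natAbs : ℕ) : ℤ) ≤ ((7 * r : ℕ) : ℤ) := by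
          push_cast
          simpa using hz6
        exact_mod_cast this
    -- one step
    have step : ∀ c : ℝ, 0 ≤ c → (∀ u v : Fin r → ℝ,
        |∑ i, ∑ j, u i * Y i j * v j| ≤ c * √(∑ i, u i ^ 2) * √(∑ i, v i ^ 2)) →
        ∀ u v : Fin r → ℝ,
        |∑ i, ∑ j, u i * Y i j * v j| ≤
          (M + 9 / 16 * c) * √(∑ i, u i ^ 2) * √(∑ i, v i ^ 2) := by
      intro c hc0 hc
      have unit : ∀ u v : Fin r → ℝ, ∑ i, u i ^ 2 ≤ 1 → ∑ i, v i ^ 2 ≤ 1 →
          |∑ i, ∑ j, u i * Y i j * v j| ≤ M + 9 / 16 * c := by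
        intro u v hu hv
        obtain ⟨u', hu', hu1, hu2⟩ := near u hu
        obtain ⟨v', hv', hv1, hv2⟩ := near v hv
        rw [split3 Y u u' v v']
        have a1 := hY u' hu' v' hv'
        have a2 := hc (fun i => u i - u' i) v
        have a3 := hc u' (fun i => v i - v' i)
        have b1 : √(∑ i, (u i - u' i) ^ 2) ≤ 1 / 4 := by
          rw [Real.sqrt_le_left (by norm_num)]
          linarith
        have b2 : √(∑ i, (v i - v' i) ^ 2) ≤ 1 / 4 := by
          rw [Real.sqrt_le_left (by norm_num)]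
          linarith
        have b3 : √(∑ i, v i ^ 2) ≤ 1 := by
          rw [Real.sqrt_le_left (by norm_num)]
          linarith
        have b4 : √(∑ i, u' i ^ 2) ≤ 5 / 4 := by
          rw [Real.sqrt_le_left (by norm_num)]
          linarith
        have c2 : c * √(∑ i, (u i - u' i) ^ 2) * √(∑ i, v i ^ 2) ≤ c * (1 / 4) * 1 := by
          gcongr
        have c3 : c * √(∑ i, u' i ^ 2) * √(∑ i, (v i - v' i) ^ 2) ≤ c * (5 / 4) * (1 / 4) := by
          gcongr
        refine (abs_add_three _ _ _).trans ?_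
        linarith
      intro u v
      rcases (Real.sqrt_nonneg (∑ i, u i ^ 2)).eq_or_lt with h | hu
      · have := hc u v
        rw [← h] at this ⊢
        simpa using this
      rcases (Real.sqrt_nonneg (∑ i, v i ^ 2)).eq_or_lt with h | hv
      · have := hc u v
        rw [← h] at this ⊢
        simpa using this
      set a := √(∑ i, u i ^ 2) with ha
      set b := √(∑ i, v i ^ 2) with hb'
      have ha2 : a ^ 2 = ∑ i, u i ^ 2 :=
        Real.sq_sqrt (Finset.sum_nonneg fun i _ => sq_nonneg _)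
      have hb2 : b ^ 2 = ∑ i, v i ^ 2 :=
        Real.sq_sqrt (Finset.sum_nonneg fun i _ => sq_nonneg _)
      have k1 : ∑ i, (a⁻¹ * u i) ^ 2 ≤ 1 := by
        simp only [mul_pow]
        rw [← Finset.mul_sum, ← ha2, ← mul_pow, inv_mul_cancel₀ hu.ne', one_pow]
      have k2 : ∑ i, (b⁻¹ * v i) ^ 2 ≤ 1 := by
        simp only [mul_pow]
        rw [← Finset.mul_sum, ← hb2, ← mul_pow, inv_mul_cancel₀ hv.ne', one_pow]
      have k3 := unit (fun i => a⁻¹ * u i) (fun i => b⁻¹ * v i) k1 k2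
      rw [scale, abs_mul, abs_of_pos (by positivity : 0 < a⁻¹ * b⁻¹)] at k3
      have k4 : a * b * (a⁻¹ * b⁻¹ * |∑ i, ∑ j, u i * Y i j * v j|) ≤
          a * b * (M + 9 / 16 * c) := by gcongr
      have k5 : a * b * (a⁻¹ * b⁻¹ * |∑ i, ∑ j, u i * Y i j * v j|) =
          |∑ i, ∑ j, u i * Y i j * v j| := by
        field_simp
      rw [k5] at k4
      linarith
    -- iteration
    set c0 : ℝ := ∑ i, ∑ j, |Y i j| with hc0
    have hc0n : 0 ≤ c0 := Finset.sum_nonneg fun i _ => Finset.sum_nonneg fun j _ => abs_nonneg _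
    have iter : ∀ n : ℕ, ∀ u v : Fin r → ℝ,
        |∑ i, ∑ j, u i * Y i j * v j| ≤
          (16 / 7 * M + (9 / 16) ^ n * c0) * √(∑ i, u i ^ 2) * √(∑ i, v i ^ 2) := by
      intro n
      induction n with
      | zero =>
        intro u v
        refine (crude Y u v).trans ?_
        have : c0 ≤ 16 / 7 * M + (9 / 16) ^ 0 * c0 := by
          rw [pow_zero]; linarith
        gcongr
      | succ n ih =>
        intro u v
        have := step _ (by positivity) ih u v
        have e : M + 9 / 16 * (16 / 7 * M + (9 / 16) ^ n * c0) =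
            16 / 7 * M + (9 / 16) ^ (n + 1) * c0 := by
          rw [pow_succ]; ring
        rwa [e] at this
    intro u v
    have lim : Filter.Tendsto (fun n : ℕ => (16 / 7 * M + (9 / 16 : ℝ) ^ n * c0) *
        √(∑ i, u i ^ 2) * √(∑ i, v i ^ 2)) Filter.atTop
        (nhds ((16 / 7 * M + 0 * c0) * √(∑ i, u i ^ 2) * √(∑ i, v i ^ 2))) := by
      refine Filter.Tendsto.mul_const _ (Filter.Tendsto.mul_const _
        (Filter.Tendsto.const_add _ (Filter.Tendsto.mul_const _ ?_)))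
      exact tendsto_pow_atTop_nhds_zero_of_lt_one (by norm_num) (by norm_num)
    have h1 := ge_of_tendsto' lim fun n => iter n u v
    refine h1.trans ?_
    have : 16 / 7 * M + 0 * c0 ≤ 3 * M := by linarith
    gcongr

end Pool.H47EA
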