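import Pool.Agent.H47R2.EA.St

/-!
# The Edwards–Anderson model: the finite-volume measure as a finite Ising average
-/

set_option autoImplicit false

namespace Pool.H47EA

theorem mem_nbr_iff {d : ℕ} (x y : Site d) : y ∈ nbr x ↔ dist1 x y = 1 := by
  unfold nbr
  rw [Finset.mem_filter, Finset.mem_Icc]
  refine ⟨fun h => h.2, fun h => ⟨?_, h⟩⟩
  have h1 : ∀ i, (x i - y i).natAbs ≤ 1 := by
    intro i
    rw [← h]
    unfold dist1
    exact Finset.single_le_sum (f := fun i => (x i - y i).natAbs) (fun _ _ => Nat.zero_le _)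
      (Finset.mem_univ i)
  constructor
  · intro i
    have := h1 i
    show x i - 1 ≤ y i
    omega
  · intro i
    have := h1 i
    show y i ≤ x i + 1
    omega

theorem dist1_comm' {d : ℕ} (x y : Site d) : dist1 x y = dist1 y x := by
  unfold dist1
  exact Finset.sum_congr rfl fun i _ => by rw [← Int.natAbs_neg, neg_sub]

theorem Jc_eq_zero {d : ℕ} (J : Coupling d) (x y : Site d) (h : y ∉ nbr x) : Jc J x y = 0 := by
  unfold Jc
  rw [dif_neg]
  intro h'
  exact h ((mem_nbr_iff x y).2 h')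

theorem edgesOf_eq {d : ℕ} (Λ : Finset (Site d)) :
    edgesOf Λ = (Λ.sigma (fun x => nbr x)).image (fun p => s(p.1, p.2)) := by
  ext e
  unfold edgesOf
  simp only [Finset.mem_biUnion, Finset.mem_image, Finset.mem_sigma]
  constructor
  · rintro ⟨x, hx, y, hy, rfl⟩
    exact ⟨⟨x, y⟩, ⟨hx, hy⟩, rfl⟩
  · rintro ⟨⟨x, y⟩, ⟨hx, hy⟩, rfl⟩
    exact ⟨x, hx, y, hy, rfl⟩

theorem ham_eq_sum {d : ℕ} (J : Coupling d) (Λ : Finset (Site d)) (σ : Site d → Bool) :
    ham J Λ σ = ∑ x ∈ Λ, ∑ y ∈ nbr x,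
      (if y ∈ Λ then Jc J x y * sg (σ x) * sg (σ y) / 2 else Jc J x y * sg (σ x) * sg (σ y)) := by
  unfold ham
  rw [edgesOf_eq, ← Finset.sum_sigma (s := Λ) (t := fun x => nbr x)
    (f := fun p : (_ : Site d) × Site d =>
      (if p.2 ∈ Λ then Jc J p.1 p.2 * sg (σ p.1) * sg (σ p.2) / 2
        else Jc J p.1 p.2 * sg (σ p.1) * sg (σ p.2)))]
  refine Finset.sum_image' _ ?_
  rintro ⟨x, y⟩ hp
  rw [Finset.mem_sigma] at hp
  obtain ⟨hx, hy⟩ := hp
  dsimp only at hx hy ⊢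
  have hxy : x ≠ y := by
    rintro rfl
    rw [mem_nbr_iff] at hy
    simp [dist1] at hy
  by_cases hyΛ : y ∈ Λ
  · have hfib : (Finset.filter (fun j : (_ : Site d) × Site d => s(j.1, j.2) = s(x, y))
        (Λ.sigma (fun x => nbr x))) = {⟨x, y⟩, ⟨y, x⟩} := by
      ext ⟨u, v⟩
      simp only [Finset.mem_filter, Finset.mem_sigma, Finset.mem_insert, Finset.mem_singleton,
        Sigma.mk.injEq, heq_eq_eq, Sym2.eq_iff]
      constructor
      · rintro ⟨_, h⟩
        exact h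
      · rintro (⟨rfl, rfl⟩ | ⟨rfl, rfl⟩)
        · exact ⟨⟨hx, hy⟩, Or.inl ⟨rfl, rfl⟩⟩
        · refine ⟨⟨hyΛ, ?_⟩, Or.inr ⟨rfl, rfl⟩⟩
          rw [mem_nbr_iff] at hy ⊢
          rw [dist1_comm']
          exact hy
    rw [hfib, Finset.sum_pair]
    · simp only [hyΛ, hx, if_true]
      show Jc J x y * sg (σ x) * sg (σ y) = _
      rw [Jc_comm J y x]
      ring
    · intro h
      rw [Sigma.mk.injEq] at h
      exact hxy h.1
  · have hfib : (Finset.filter (fun j : (_ : Site d) × Site d => s(j.1, j.2) = s(x, y))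
        (Λ.sigma (fun x => nbr x))) = {⟨x, y⟩} := by
      ext ⟨u, v⟩
      simp only [Finset.mem_filter, Finset.mem_sigma, Finset.mem_singleton,
        Sigma.mk.injEq, heq_eq_eq, Sym2.eq_iff]
      constructor
      · rintro ⟨⟨hu, _⟩, (h | ⟨rfl, rfl⟩)⟩
        · exact h
        · exact absurd hu hyΛ
      · rintro ⟨rfl, rfl⟩
        exact ⟨⟨hx, hy⟩, Or.inl ⟨rfl, rfl⟩⟩
    rw [hfib, Finset.sum_singleton]
    simp only [hyΛ, if_false]
    rfl

theorem ham_glue {d : ℕ} (J : Coupling d) (Λ : Finset (Site d)) (ω : Site d → Bool)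
    (η : {x // x ∈ Λ} → Bool) :
    ham J Λ (glue Λ η ω) =
      (∑ y : {x // x ∈ Λ}, ∑ z : {x // x ∈ Λ}, Jc J y.1 z.1 * sg (η y) * sg (η z)) / 2 +
      ∑ y : {x // x ∈ Λ}, (∑ z ∈ nbr y.1 \ Λ, Jc J y.1 z * sg (ω z)) * sg (η y) := by
  have hin : ∀ y : {x // x ∈ Λ}, η y = glue Λ η ω y.1 := by
    intro y
    unfold glue
    rw [dif_pos y.2]
  have hout : ∀ z, z ∉ Λ → ω z = glue Λ η ω z := by
    intro z hz
    unfold glue
    rw [dif_neg hz]
  set σ := glue Λ η ω with hσ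
  have e1 : (∑ y : {x // x ∈ Λ}, ∑ z : {x // x ∈ Λ}, Jc J y.1 z.1 * sg (η y) * sg (η z)) =
      ∑ y ∈ Λ, ∑ z ∈ Λ, Jc J y z * sg (σ y) * sg (σ z) := by
    rw [← Finset.sum_coe_sort Λ]
    refine Finset.sum_congr rfl fun y _ => ?_
    rw [← Finset.sum_coe_sort Λ]
    refine Finset.sum_congr rfl fun z _ => ?_
    rw [hin y, hin z]
  have e2 : (∑ y : {x // x ∈ Λ}, (∑ z ∈ nbr y.1 \ Λ, Jc J y.1 z * sg (ω z)) * sg (η y)) =
      ∑ y ∈ Λ, ∑ z ∈ nbr y \ Λ, Jc J y z * sg (σ y) * sg (σ z) := by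
    rw [← Finset.sum_coe_sort Λ]
    refine Finset.sum_congr rfl fun y _ => ?_
    rw [Finset.sum_mul]
    refine Finset.sum_congr rfl fun z hz => ?_
    rw [hin y, hout z (Finset.mem_sdiff.1 hz).2]
    ring
  rw [e1, e2, ham_eq_sum, Finset.sum_div, ← Finset.sum_add_distrib]
  refine Finset.sum_congr rfl fun x hx => ?_
  have e3 : (∑ z ∈ Λ, Jc J x z * sg (σ x) * sg (σ z)) / 2 =
      ∑ z ∈ (nbr x).filter (fun z => z ∈ Λ), Jc J x z * sg (σ x) * sg (σ z) / 2 := by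
    rw [Finset.sum_div]
    symm
    refine Finset.sum_subset ?_ ?_
    · intro z hz
      exact (Finset.mem_filter.1 hz).2
    · intro z hz hz'
      rw [Jc_eq_zero J x z (fun h => hz' (Finset.mem_filter.2 ⟨h, hz⟩))]
      ring
  have e4 : nbr x \ Λ = (nbr x).filter (fun z => ¬ z ∈ Λ) := by
    ext z
    rw [Finset.mem_sdiff, Finset.mem_filter]
  rw [e3, e4, ← Finset.sum_filter_add_sum_filter_not (nbr x) (fun z => z ∈ Λ)
    (fun y => if y ∈ Λ then Jc J x y * sg (σ x) * sg (σ y) / 2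
      else Jc J x y * sg (σ x) * sg (σ y))]
  congr 1
  · refine Finset.sum_congr rfl fun z hz => ?_
    rw [if_pos (Finset.mem_filter.1 hz).2]
  · refine Finset.sum_congr rfl fun z hz => ?_
    rw [if_neg (Finset.mem_filter.1 hz).2]

theorem t_REDUCE : St_REDUCE := by
  intro d β J Λ ω f
  have key : ∀ η : {x // x ∈ Λ} → Bool, Real.exp (β * ham J Λ (glue Λ η ω)) =
      Wt (U := {x // x ∈ Λ})
        (fun η => Real.exp ((∑ y, ∑ z, (β * Jc J y.1 z.1) * sg (η y) * sg (η z)) / 2))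
        (fun y => β * ∑ z ∈ nbr y.1 \ Λ, Jc J y.1 z * sg (ω z)) η := by
    intro η
    unfold Wt
    rw [← Real.exp_add, ham_glue]
    congr 1
    rw [mul_add]
    congr 1
    · rw [← mul_div_assoc, Finset.mul_sum]
      congr 1
      refine Finset.sum_congr rfl fun y _ => ?_
      rw [Finset.mul_sum]
      refine Finset.sum_congr rfl fun z _ => ?_
      ring
    · rw [Finset.mul_sum]
      refine Finset.sum_congr rfl fun y _ => ?_
      ring
  unfold gE Zp av Zf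
  congr 1
  · exact Finset.sum_congr rfl fun η _ => by rw [← key η]
  · exact Finset.sum_congr rfl fun η _ => by rw [← key η]

end Pool.H47EA
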