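import Pool.Agent.H47R2.EA.St

/-! Expectation of a product of couplings along a walk. -/

set_option autoImplicit false

open MeasureTheory

namespace Pool.H47EA

namespace SIGN

lemma sg_sq (b : Bool) : sg b ^ 2 = 1 := by cases b <;> norm_num [sg]

lemma sg_not (b : Bool) : sg (!b) = - sg b := by cases b <;> norm_num [sg]

lemma sg_even (b : Bool) {m : ℕ} (h : Even m) : sg b ^ m = 1 := by
  obtain ⟨k, rfl⟩ := h
  rw [← two_mul, pow_mul, sg_sq, one_pow]

/-- the uniform law on signs is invariant under the flip -/
lemma map_not : ((PMF.uniformOfFintype Bool).toMeasure).map (fun b : Bool => !b) =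
    (PMF.uniformOfFintype Bool).toMeasure := by
  ext s hs
  classical
  rw [Measure.map_apply (measurable_of_finite _) hs]
  rw [PMF.toMeasure_uniformOfFintype_apply _ (measurable_of_finite _ hs),
    PMF.toMeasure_uniformOfFintype_apply _ hs]
  congr 2
  rw [← Set.toFinset_card, ← Set.toFinset_card]
  refine Finset.card_bij (fun b _ => !b) ?_ ?_ ?_
  · intro b hb
    simpa using hb
  · intro a _ b _ h
    simpa using h
  · intro b hb
    exact ⟨!b, by simpa using hb, by simp⟩

open Classical in
/-- flip the coupling of the edge `E` -/
noncomputable def flipE {d : ℕ} (E : (lat d).edgeSet) (J : Coupling d) : Coupling d :=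
  fun e => if e = E then !(J e) else J e

lemma flipE_measurable {d : ℕ} (E : (lat d).edgeSet) : Measurable (flipE E : Coupling d → Coupling d) := by
  classical
  refine measurable_pi_lambda _ fun e => ?_
  unfold flipE
  by_cases h : e = E
  · simp only [h, if_true]
    exact (measurable_of_finite (fun b : Bool => !b)).comp (measurable_pi_apply _)
  · simp only [h, if_false]
    exact measurable_pi_apply _

lemma map_flipE {d : ℕ} (E : (lat d).edgeSet) :
    (couplingLaw d).map (flipE E) = couplingLaw d := by
  classical
  unfold couplingLaw
  have h := Measure.infinitePi_map_pi (μ := fun _ : (lat d).edgeSet =>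
    (PMF.uniformOfFintype Bool).toMeasure)
    (f := fun e => if e = E then (fun b : Bool => !b) else id) (fun e => measurable_of_finite _)
  have e1 : (fun (J : Coupling d) (e : (lat d).edgeSet) =>
      (if e = E then (fun b : Bool => !b) else id) (J e)) = flipE E := by
    funext J e
    unfold flipE
    split_ifs <;> rfl
  have e2 : (fun e : (lat d).edgeSet => Measure.map
      (if e = E then (fun b : Bool => !b) else id) (PMF.uniformOfFintype Bool).toMeasure) =
      fun _ => (PMF.uniformOfFintype Bool).toMeasure := by
    funext e
    split_ifs
    · exact map_not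
    · exact Measure.map_id
  rw [e2] at h
  rw [← e1]
  exact h

end SIGN

open Classical in
open SIGN in
theorem t_SIGN : St_SIGN := by
  intro d n p
  by_cases hadj : ∀ i : Fin n, (lat d).Adj (p i.castSucc) (p i.succ)
  · set e : Fin n → (lat d).edgeSet := fun i => ⟨s(p i.castSucc, p i.succ), hadj i⟩ with he
    have hJ : ∀ (J : Coupling d) (i : Fin n), Jc J (p i.castSucc) (p i.succ) = sg (J (e i)) := by
      intro J i
      unfold Jc
      rw [dif_pos (hadj i)]
    simp only [hJ]
    have hcard : ∀ E : (lat d).edgeSet, (Finset.univ.filter (fun i : Fin n => e i = E)).card =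
        (Finset.univ.filter (fun i : Fin n => s(p i.castSucc, p i.succ) = E.1)).card := by
      intro E
      congr 1
      refine Finset.filter_congr fun i _ => ?_
      rw [he, Subtype.ext_iff]
    by_cases heven : EvenP n p
    · rw [if_pos ⟨hadj, heven⟩]
      have h1 : ∀ J : Coupling d, ∏ i : Fin n, sg (J (e i)) = 1 := by
        intro J
        rw [Finset.prod_comp (fun E => sg (J E)) e]
        refine Finset.prod_eq_one fun E _ => ?_
        refine sg_even _ ?_
        rw [hcard]
        exact heven E.1
      simp [h1]
    · rw [if_neg (fun h => heven h.2)]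
      unfold EvenP at heven
      push Not at heven
      obtain ⟨E0, hE0⟩ := heven
      have hne : (Finset.univ.filter (fun i : Fin n => s(p i.castSucc, p i.succ) = E0)).Nonempty := by
        rw [← Finset.card_pos]
        by_contra hcon
        apply hE0
        have : (Finset.univ.filter (fun i : Fin n => s(p i.castSucc, p i.succ) = E0)).card = 0 := by
          omega
        rw [this]
        exact Even.zero
      obtain ⟨i0, hi0⟩ := hne
      have hi0' : (e i0).1 = E0 := (Finset.mem_filter.mp hi0).2
      set E := e i0 with hE
      have hodd : Odd (Finset.univ.filter (fun i : Fin n => e i = E)).card := by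
        rw [hcard, hi0', ← Nat.not_even_iff_odd]
        exact hE0
      have hflip : ∀ J : Coupling d, ∏ i : Fin n, sg (flipE E J (e i)) =
          - ∏ i : Fin n, sg (J (e i)) := by
        intro J
        have h2 : ∀ i, sg (flipE E J (e i)) = (if e i = E then (-1 : ℝ) else 1) * sg (J (e i)) := by
          intro i
          unfold flipE
          split_ifs
          · rw [sg_not]; ring
          · ring
        rw [Finset.prod_congr rfl fun i _ => h2 i, Finset.prod_mul_distrib, Finset.prod_ite,
          Finset.prod_const, Finset.prod_const_one, mul_one, hodd.neg_one_pow]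
        ring
      have hmeas : Measurable (fun J : Coupling d => ∏ i : Fin n, sg (J (e i))) := by
        refine Finset.measurable_prod _ fun i _ => ?_
        exact (measurable_of_finite sg).comp (measurable_pi_apply _)
      have h3 : ∫ J, ∏ i : Fin n, sg (J (e i)) ∂(couplingLaw d) =
          ∫ J, ∏ i : Fin n, sg (flipE E J (e i)) ∂(couplingLaw d) := by
        conv_lhs => rw [← map_flipE E]
        rw [integral_map (flipE_measurable E).aemeasurable hmeas.aestronglyMeasurable]
      simp only [hflip] at h3
      rw [integral_neg] at h3
      linarith
  · rw [if_neg (fun h => hadj h.1)]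
    push Not at hadj
    obtain ⟨i, hi⟩ := hadj
    have h0 : ∀ J : Coupling d, ∏ i : Fin n, Jc J (p i.castSucc) (p i.succ) = 0 := by
      intro J
      refine Finset.prod_eq_zero (Finset.mem_univ i) ?_
      unfold Jc
      rw [dif_neg hi]
    simp [h0]

end Pool.H47EA
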