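import Pool.Agent.H47R2.EA.Defs

/-!
# The Edwards–Anderson model: statements (Props) of the building blocks

Every `St_XXX` below is a closed `Prop`.  A task consists in proving
`theorem t_XXX : St_XXX` (or `theorem t_XXX (h : St_YYY) ... : St_XXX`).
-/

set_option autoImplicit false

open MeasureTheory
open scoped ENNReal

namespace Pool.H47EA

/-! ### Basic facts on finite-volume Gibbs averages -/

/-- indicator of `σ_x = +1` -/
noncomputable def ind {d : ℕ} (x : Site d) (σ : Site d → Bool) : ℝ := if σ x then 1 else 0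

/-- `f` depends only on the spins in `A`. -/
def LocalOn {d : ℕ} (A : Finset (Site d)) (f : (Site d → Bool) → ℝ) : Prop :=
  ∀ σ σ' : Site d → Bool, (∀ x ∈ A, σ x = σ' x) → f σ = f σ'

/-- values in `[0,1]` -/
def Unit01 {α : Type} (f : α → ℝ) : Prop := ∀ x, 0 ≤ f x ∧ f x ≤ 1

def St_BASIC : Prop :=
  ∀ (d : ℕ) (β : ℝ) (J : Coupling d) (Λ : Finset (Site d)) (ω : Site d → Bool),
    (∀ f, Unit01 f → 0 ≤ gE β J Λ ω f ∧ gE β J Λ ω f ≤ 1) ∧
    (∀ c : ℝ, gE β J Λ ω (fun _ => c) = c) ∧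
    (∀ f f' : (Site d → Bool) → ℝ, (∀ η : Λ → Bool, f (glue Λ η ω) ≤ f' (glue Λ η ω)) →
      gE β J Λ ω f ≤ gE β J Λ ω f') ∧
    (∀ (f f' : (Site d → Bool) → ℝ) (c c' : ℝ),
      gE β J Λ ω (fun σ => c * f σ + c' * f' σ) = c * gE β J Λ ω f + c' * gE β J Λ ω f') ∧
    -- conditioning on the spin at `x`
    (∀ x ∈ Λ, ∀ f : (Site d → Bool) → ℝ,
      gE β J Λ ω f = gE β J Λ ω (ind x) * gE β J (Λ.erase x) (Function.update ω x true) f
        + (1 - gE β J Λ ω (ind x)) * gE β J (Λ.erase x) (Function.update ω x false) f) ∧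
    -- consistency
    (∀ Λ' ⊆ Λ, ∀ f : (Site d → Bool) → ℝ,
      gE β J Λ ω f = gE β J Λ ω (fun τ => gE β J Λ' τ f)) ∧
    -- locality
    (∀ (ω' : Site d → Bool) (f : (Site d → Bool) → ℝ),
      (∀ y, y ∉ Λ → (∃ x ∈ Λ, (lat d).Adj x y) → ω y = ω' y) →
      (∀ η : Λ → Bool, f (glue Λ η ω) = f (glue Λ η ω')) →
      gE β J Λ ω f = gE β J Λ ω' f)

/-! ### Finite Ising-type averages -/

section Fin
variable {U : Type} [Fintype U] [DecidableEq U]

/-- unnormalised weight `g(σ) exp(h·σ)` -/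
noncomputable def Wt (g : (U → Bool) → ℝ) (h : U → ℝ) (σ : U → Bool) : ℝ :=
  g σ * Real.exp (∑ y, h y * sg (σ y))

noncomputable def Zf (g : (U → Bool) → ℝ) (h : U → ℝ) : ℝ := ∑ σ, Wt g h σ

/-- average of `f` under the probability proportional to `g(σ) exp(h·σ)` -/
noncomputable def av (g : (U → Bool) → ℝ) (h : U → ℝ) (f : (U → Bool) → ℝ) : ℝ :=
  (∑ σ, Wt g h σ * f σ) / Zf g h

/-- the linear function `a·σ` -/
noncomputable def lin (a : U → ℝ) (σ : U → Bool) : ℝ := ∑ y, a y * sg (σ y)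

/-- covariance of `a·σ` and `b·σ` -/
noncomputable def cv (g : (U → Bool) → ℝ) (h a b : U → ℝ) : ℝ :=
  av g h (fun σ => lin a σ * lin b σ) - av g h (lin a) * av g h (lin b)

/-- weighted Euclidean norms -/
noncomputable def nrmI (w a : U → ℝ) : ℝ := √(∑ y, (a y / w y) ^ 2)
noncomputable def nrmW (w b : U → ℝ) : ℝ := √(∑ y, (b y * w y) ^ 2)

/-- `‖W M_h W⁻¹‖ ≤ q` for all fields `h`, where `M_h` is the covariance matrix. -/
def CovLe (g : (U → Bool) → ℝ) (w : U → ℝ) (q : ℝ) : Prop :=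
  ∀ h a b : U → ℝ, |cv g h a b| ≤ q * nrmI w a * nrmW w b

/-- `‖W A W⁻¹‖ ≤ q`. -/
def FormLe (A : U → U → ℝ) (w : U → ℝ) (q : ℝ) : Prop :=
  ∀ a b : U → ℝ, |∑ y, ∑ z, a y * A y z * b z| ≤ q * nrmI w a * nrmW w b

end Fin

/-- One small step of the discrete Riccati inequality. -/
def St_COV1 : Prop :=
  ∀ (U : Type) [Fintype U] [DecidableEq U] (ι : Type) [Fintype ι] [DecidableEq ι]
    (v : ι → U → ℝ) (w : U → ℝ) (a : ℝ), (∀ y, 0 < w y) → 0 ≤ a →
    FormLe (fun y z => ∑ j, v j y * v j z) w a →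
    ∃ C : ℝ, 0 ≤ C ∧ ∀ g : (U → Bool) → ℝ, (∀ σ, 0 < g σ) → ∀ q : ℝ, 1 ≤ q → CovLe g w q →
      ∀ s : ℝ, 0 < s → s ≤ 1 →
        CovLe (fun σ => g σ * ∏ j, Real.cosh (s * lin (v j) σ)) w (q + s ^ 2 * (a * q ^ 2) + C * s ^ 3)

/-- Weighted covariance bound for a positive semidefinite interaction. -/
def St_COV2 : Prop :=
  ∀ (U : Type) [Fintype U] [DecidableEq U] (ι : Type) [Fintype ι] [DecidableEq ι]
    (v : ι → U → ℝ) (w : U → ℝ) (a : ℝ), (∀ y, 0 < w y) → 0 ≤ a → a < 1 →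
    FormLe (fun y z => ∑ j, v j y * v j z) w a →
    CovLe (fun σ => Real.exp ((∑ j, (lin (v j) σ) ^ 2) / 2)) w (1 / (1 - a))

/-- Weighted covariance bound for an Ising model with small weighted interaction. -/
def St_ISING : Prop :=
  ∀ (U : Type) [Fintype U] [DecidableEq U] (A : U → U → ℝ) (w : U → ℝ) (t : ℝ),
    (∀ y z, A y z = A z y) → (∀ y, 0 < w y) → 0 ≤ t → t ≤ 1 / 4 →
    FormLe A (fun _ => 1) t → FormLe A w t →
    CovLe (fun σ => Real.exp ((∑ y, ∑ z, A y z * sg (σ y) * sg (σ z)) / 2)) w 2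

/-- Lipschitz dependence of the magnetisation on the field. -/
def St_DIFF : Prop :=
  ∀ (U : Type) [Fintype U] [DecidableEq U] (g : (U → Bool) → ℝ) (w : U → ℝ) (q : ℝ),
    (∀ σ, 0 < g σ) → CovLe g w q → ∀ h h' a : U → ℝ,
      |av g h (lin a) - av g h' (lin a)| ≤ q * nrmI w a * nrmW w (fun y => h y - h' y)

/-- The finite-volume Edwards–Anderson measure as a finite Ising average. -/
def St_REDUCE : Prop :=
  ∀ (d : ℕ) (β : ℝ) (J : Coupling d) (Λ : Finset (Site d)) (ω : Site d → Bool)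
    (f : (Site d → Bool) → ℝ),
    gE β J Λ ω f =
      av (U := {x // x ∈ Λ})
        (fun η => Real.exp ((∑ y, ∑ z, (β * Jc J y.1 z.1) * sg (η y) * sg (η z)) / 2))
        (fun y => β * ∑ z ∈ nbr y.1 \ Λ, Jc J y.1 z * sg (ω z))
        (fun η => f (glue Λ η ω))

/-! ### The good event and the influence bound -/

/-- operator norm bounds for the signed adjacency matrix of `ball x R`, and for its conjugate by
the weight `exp(-dist(x,·))`. -/
def Good {d : ℕ} (J : Coupling d) (x : Site d) (R : ℕ) (T : ℝ) : Prop :=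
  (∀ u v : Site d → ℝ, |∑ y ∈ ball x R, ∑ z ∈ ball x R, u y * Jc J y z * v z| ≤
      T * √(∑ y ∈ ball x R, u y ^ 2) * √(∑ y ∈ ball x R, v y ^ 2)) ∧
  (∀ u v : Site d → ℝ, |∑ y ∈ ball x R, ∑ z ∈ ball x R,
        u y * (Real.exp ((dist1 x z : ℝ) - (dist1 x y : ℝ)) * Jc J y z) * v z| ≤
      T * √(∑ y ∈ ball x R, u y ^ 2) * √(∑ y ∈ ball x R, v y ^ 2))

def St_INF : Prop :=
  ∀ (d : ℕ) (J : Coupling d) (x : Site d) (R : ℕ) (T : ℝ), 0 < T → Good J x R T →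
    ∀ β : ℝ, 0 < β → 4 * T * β ≤ 1 →
    ∀ Λ : Finset (Site d), x ∈ Λ → ∀ ω ω' : Site d → Bool,
      (∀ y ∈ ball x R, y ∉ Λ → ω y = ω' y) →
      |gE β J Λ ω (ind x) - gE β J Λ ω' (ind x)| ≤
        Real.exp (-(R : ℝ)) * (4 * β * d) * √((ball x R).card : ℝ)

/-! ### Exploration of disagreements -/

/-- Chains of (potential) disagreements: consecutive sites at distance exactly `R' + 1`, all sites
pairwise at distance at least `R' + 1`, the last site within distance `R'` of `A`. -/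
def IsCh {d : ℕ} (R' : ℕ) (A : Finset (Site d)) : List (Site d) → Prop
  | [] => False
  | [x] => ∃ a ∈ A, dist1 a x ≤ R'
  | (x :: y :: l) =>
      dist1 x y = R' + 1 ∧ (∀ z ∈ y :: l, R' + 1 ≤ dist1 x z) ∧ IsCh R' A (y :: l)

open Classical in
/-- total weight of the chains with at least `n` sites -/
noncomputable def chSum {d : ℕ} (R' : ℕ) (A : Finset (Site d)) (p : Site d → ℝ≥0∞) (n : ℕ) :
    ℝ≥0∞ :=
  ∑' l : List (Site d), if IsCh R' A l ∧ n ≤ l.length then (l.map p).prod else 0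

/-- The exploration inequality. -/
def St_EXPL : Prop :=
  ∀ (d : ℕ) (R R' : ℕ), R ≤ R' → ∀ (β : ℝ) (J : Coupling d) (p : Site d → ℝ),
    (∀ x, 0 ≤ p x) →
    (∀ (x : Site d) (Λ : Finset (Site d)), x ∈ Λ → ∀ ω ω' : Site d → Bool,
      (∀ y ∈ ball x R, y ∉ Λ → ω y = ω' y) →
      |gE β J Λ ω (ind x) - gE β J Λ ω' (ind x)| ≤ p x) →
    ∀ (A : Finset (Site d)) (f : (Site d → Bool) → ℝ), Unit01 f → LocalOn A f →
    ∀ (Λ : Finset (Site d)) (n : ℕ),
      (∀ a ∈ A, ∀ y, y ∉ Λ → (n + 1) * (R' + 1) ≤ dist1 a y) →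
      ∀ ω ω' : Site d → Bool,
        ENNReal.ofReal |gE β J Λ ω f - gE β J Λ ω' f| ≤
          chSum R' A (fun x => ENNReal.ofReal (p x)) n

/-! ### The environment -/

open Classical in
/-- Almost surely the chain sums tend to zero. -/
def St_CHAIN : Prop :=
  ∀ (d R : ℕ) (Bad : Site d → Set (Coupling d)) (b ε : ℝ≥0∞) (N : ℕ),
    (∀ x (J J' : Coupling d), (∀ e : (lat d).edgeSet, (∀ v ∈ e.1, v ∈ ball x R) → J e = J' e) →
      (J ∈ Bad x ↔ J' ∈ Bad x)) →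
    (∀ x, couplingLaw d (Bad x) ≤ b) →
    (∀ x : Site d, (ball x (2 * R + 1)).card ≤ N) →
    (N : ℝ≥0∞) * (ε + b) ≤ 2⁻¹ →
    ∀ᵐ J ∂(couplingLaw d), ∀ A : Finset (Site d),
      Filter.Tendsto (fun n => chSum (2 * R) A (fun x => if J ∈ Bad x then 1 else ε) n)
        Filter.atTop (nhds 0)

/-! ### From finite volume to Gibbs states -/

def Forget {d : ℕ} (β : ℝ) (J : Coupling d) : Prop :=
  ∀ (A : Finset (Site d)) (δ : ℝ), 0 < δ → ∃ Λ₀ : Finset (Site d), ∀ Λ : Finset (Site d),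
    Λ₀ ⊆ Λ → ∀ f, Unit01 f → LocalOn A f → ∀ ω ω' : Site d → Bool,
      |gE β J Λ ω f - gE β J Λ ω' f| ≤ δ

def St_GIBBSU : Prop :=
  ∀ (d : ℕ) (β : ℝ) (J : Coupling d), Forget β J →
    ∀ π π' : Measure (Site d → Bool), IsGibbs β J π → IsGibbs β J π' → π = π'

def St_GIBBSE : Prop :=
  ∀ (d : ℕ) (β : ℝ) (J : Coupling d), Forget β J → ∃ π : Measure (Site d → Bool), IsGibbs β J π

/-! ### Random matrices -/

/-- every unordered pair is traversed an even number of times -/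
def EvenP {V : Type} [DecidableEq V] (n : ℕ) (p : Fin (n + 1) → V) : Prop :=
  ∀ e : Sym2 V, Even (Finset.univ.filter (fun i : Fin n => s(p i.castSucc, p i.succ) = e)).card

/-- closed walks of length `n` from `x` in `G` traversing every edge an even number of times -/
def evenWalks {V : Type} [DecidableEq V] (G : SimpleGraph V) (x : V) (n : ℕ) :
    Set (Fin (n + 1) → V) :=
  {p | p 0 = x ∧ p (Fin.last n) = x ∧ (∀ i : Fin n, G.Adj (p i.castSucc) (p i.succ)) ∧ EvenP n p}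

/-- comparison with the complete graph -/
def St_COMB : Prop :=
  ∀ (V : Type) [DecidableEq V] (G : SimpleGraph V) (Δ k r : ℕ),
    (∀ x, (G.neighborSet x).Finite ∧ (G.neighborSet x).ncard ≤ Δ) → Δ + k + 1 ≤ r →
    ∀ (x : V) (o : Fin r), (evenWalks G x (2 * k)).Finite ∧
      (evenWalks G x (2 * k)).ncard ≤ (evenWalks (⊤ : SimpleGraph (Fin r)) o (2 * k)).ncard

/-- Khintchine's inequality for even moments -/
def St_KHIN : Prop :=
  ∀ (E : Type) [Fintype E] [DecidableEq E] (c : E → ℝ) (k : ℕ), 1 ≤ k →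
    (∑ s : E → Bool, (∑ e, c e * sg (s e)) ^ (2 * k)) / 2 ^ (Fintype.card E) ≤
      (6 * (k : ℝ)) ^ k * (∑ e, c e ^ 2) ^ k

/-- a finite net of the unit ball of `ℝ^r` -/
def St_NET : Prop :=
  ∀ r : ℕ, ∃ N : Finset (Fin r → ℝ), (N.card : ℝ) ≤ 39 ^ r ∧
    (∀ u ∈ N, ∑ i, u i ^ 2 ≤ 2) ∧
    ∀ (Y : Fin r → Fin r → ℝ) (M : ℝ), 0 ≤ M →
      (∀ u ∈ N, ∀ v ∈ N, |∑ i, ∑ j, u i * Y i j * v j| ≤ M) →
      ∀ u v : Fin r → ℝ,
        |∑ i, ∑ j, u i * Y i j * v j| ≤ 3 * M * √(∑ i, u i ^ 2) * √(∑ i, v i ^ 2)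

/-- the complete graph -/
def St_KR : Prop :=
  ∃ C : ℝ, 0 < C ∧ ∀ r k : ℕ, 1 ≤ k → r ≤ 2 * k → ∀ o : Fin r,
    ((evenWalks (⊤ : SimpleGraph (Fin r)) o (2 * k)).ncard : ℝ) ≤ (C * k) ^ k

/-- trace bound for the operator norm -/
def St_TRACE : Prop :=
  ∀ (V : Type) [Fintype V] [DecidableEq V] (X : Matrix V V ℝ) (T : ℝ) (k : ℕ), 0 < T → 1 ≤ k →
    ¬ (∀ u v : V → ℝ, |∑ y, ∑ z, u y * X y z * v z| ≤ T * √(∑ y, u y ^ 2) * √(∑ y, v y ^ 2)) →
    T ^ (2 * k) ≤ Matrix.trace ((X * X.transpose) ^ k)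

open Classical in
/-- expectation of a product of couplings along a walk -/
def St_SIGN : Prop :=
  ∀ (d n : ℕ) (p : Fin (n + 1) → Site d),
    ∫ J, ∏ i : Fin n, Jc J (p i.castSucc) (p i.succ) ∂(couplingLaw d) =
      if (∀ i : Fin n, (lat d).Adj (p i.castSucc) (p i.succ)) ∧ EvenP n p then 1 else 0

/-- the ball is good with overwhelming probability -/
def St_GOOD : Prop :=
  ∃ C : ℝ, 0 < C ∧ ∀ (d : ℕ) (x : Site d) (R k : ℕ), 1 ≤ d → 1 ≤ k → 2 * d + k + 1 ≤ 2 * k →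
    ∀ T : ℝ, 0 < T →
      couplingLaw d {J | ¬ Good J x R T} ≤
        ENNReal.ofReal (2 * ((ball x R).card : ℝ) * (C * k) ^ k * Real.exp (2 * k) / T ^ (2 * k))

/-- number of lattice points in an `ℓ¹`-ball -/
def St_BALL : Prop :=
  ∀ (d m : ℕ) (x : Site d) (q : ℝ), 0 < q → q < 1 →
    ((ball x m).card : ℝ) * q ^ m ≤ ((1 + q) / (1 - q)) ^ d

/-! ### The theorem -/

def Main : Prop :=
  ∃ c : ℝ, 0 < c ∧ ∀ d : ℕ, 1 ≤ d → ∀ᵐ J ∂(couplingLaw d),
    (∀ β : ℝ, 0 < β → β ≤ c / √(d : ℝ) → ∃! π : Measure (Site d → Bool), IsGibbs β J π) ∧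
    ENNReal.ofReal (c / √(d : ℝ)) ≤ betaC J

end Pool.H47EA
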