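import Pool.Agent.H47R2.EA.St

set_option autoImplicit false

open Matrix

namespace Pool.H47EA

theorem t_TRACE : St_TRACE := by
  intro V _ _ X T k hT hk hX
  by_contra hlt
  push Not at hlt
  apply hX
  intro u v
  -- the positive semidefinite matrix `P`
  have hP : (X * X.transpose).PosSemidef := by
    have := Matrix.posSemidef_self_mul_conjTranspose X
    rwa [Matrix.conjTranspose_eq_transpose_of_trivial] at this
  set P := X * X.transpose with hPdef
  have hH := hP.isHermitian
  set lam := hH.eigenvalues with hlam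
  have hnn : ∀ i, 0 ≤ lam i := fun i => hP.eigenvalues_nonneg i
  set U : Matrix V V ℝ := (hH.eigenvectorUnitary : Matrix V V ℝ) with hU
  have hUU : star U * U = 1 := by
    have := hH.eigenvectorUnitary.2
    rw [Matrix.mem_unitaryGroup_iff'] at this
    exact this
  have hspec : P = U * diagonal lam * star U := by
    have := hH.spectral_theorem
    rw [Unitary.conjStarAlgAut_apply] at this
    simpa [hU, hlam, Function.comp_def] using this
  have hpow : ∀ n : ℕ, 1 ≤ n → P ^ n = U * diagonal (fun i => lam i ^ n) * star U := by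
    intro n hn
    induction n, hn using Nat.le_induction with
    | base => simpa using hspec
    | succ n hn ih =>
      rw [pow_succ, ih]
      conv_lhs => rw [hspec]
      calc U * diagonal (fun i => lam i ^ n) * star U * (U * diagonal lam * star U)
          = U * diagonal (fun i => lam i ^ n) * (star U * U) * diagonal lam * star U := by
            simp only [Matrix.mul_assoc]
        _ = U * (diagonal (fun i => lam i ^ n) * diagonal lam) * star U := by
            rw [hUU]; simp only [Matrix.mul_assoc, Matrix.mul_one]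
        _ = U * diagonal (fun i => lam i ^ (n+1)) * star U := by
            rw [Matrix.diagonal_mul_diagonal]
            simp only [pow_succ]
  have htr : Matrix.trace (P ^ k) = ∑ i, lam i ^ k := by
    rw [hpow k hk, Matrix.trace_mul_comm, ← Matrix.mul_assoc, hUU, Matrix.one_mul,
      Matrix.trace_diagonal]
  have hle : ∀ i, lam i ≤ T ^ 2 := by
    intro i
    by_contra hc
    push Not at hc
    have h1 : (T ^ 2) ^ k ≤ lam i ^ k := pow_le_pow_left₀ (by positivity) hc.le k
    have h2 : lam i ^ k ≤ ∑ j, lam j ^ k :=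
      Finset.single_le_sum (f := fun j => lam j ^ k) (fun j _ => pow_nonneg (hnn j) k)
        (Finset.mem_univ i)
    rw [← pow_mul] at h1
    linarith [htr]
  -- the quadratic form
  have hq : u ⬝ᵥ (P *ᵥ u) ≤ T ^ 2 * ∑ y, u y ^ 2 := by
    have e1 : u ⬝ᵥ (P *ᵥ u) = ∑ i, lam i * ((star U *ᵥ u) i) ^ 2 := by
      rw [hspec, ← Matrix.mulVec_mulVec, ← Matrix.mulVec_mulVec, Matrix.dotProduct_mulVec]
      have : u ᵥ* U = star U *ᵥ u := by
        rw [Matrix.star_eq_conjTranspose, Matrix.conjTranspose_eq_transpose_of_trivial,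
          Matrix.mulVec_transpose]
      rw [this]
      simp only [dotProduct, Matrix.mulVec_diagonal]
      exact Finset.sum_congr rfl fun i _ => by ring
    have e2 : ∑ i, ((star U *ᵥ u) i) ^ 2 = ∑ y, u y ^ 2 := by
      have : (star U *ᵥ u) ⬝ᵥ (star U *ᵥ u) = u ⬝ᵥ u := by
        have h3 : (star U *ᵥ u) = u ᵥ* U := by
          rw [Matrix.star_eq_conjTranspose, Matrix.conjTranspose_eq_transpose_of_trivial,
            Matrix.mulVec_transpose]
        have hUU' : U * star U = 1 := mul_eq_one_comm.mp hUU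
        calc (star U *ᵥ u) ⬝ᵥ (star U *ᵥ u) = (u ᵥ* U) ⬝ᵥ (star U *ᵥ u) := by rw [h3]
          _ = u ⬝ᵥ (U *ᵥ (star U *ᵥ u)) := (Matrix.dotProduct_mulVec _ _ _).symm
          _ = u ⬝ᵥ u := by rw [Matrix.mulVec_mulVec, hUU', Matrix.one_mulVec]
      simpa [dotProduct, sq] using this
    rw [e1, ← e2, Finset.mul_sum]
    exact Finset.sum_le_sum fun i _ => mul_le_mul_of_nonneg_right (hle i) (sq_nonneg _)
  have hq2 : ∑ z, ((u ᵥ* X) z) ^ 2 ≤ T ^ 2 * ∑ y, u y ^ 2 := by
    have : u ⬝ᵥ (P *ᵥ u) = ∑ z, ((u ᵥ* X) z) ^ 2 := by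
      rw [hPdef, ← Matrix.mulVec_mulVec, Matrix.dotProduct_mulVec, Matrix.mulVec_transpose]
      simp [dotProduct, sq]
    rw [← this]; exact hq
  have hsum : ∑ y, ∑ z, u y * X y z * v z = ∑ z, (u ᵥ* X) z * v z := by
    rw [Finset.sum_comm]
    refine Finset.sum_congr rfl fun z _ => ?_
    simp [Matrix.vecMul, dotProduct, Finset.sum_mul]
  rw [hsum]
  have hcs := Finset.sum_mul_sq_le_sq_mul_sq Finset.univ (fun z => (u ᵥ* X) z) v
  have habs : |∑ z, (u ᵥ* X) z * v z| ≤ √((∑ z, ((u ᵥ* X) z) ^ 2) * ∑ z, v z ^ 2) := by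
    apply Real.abs_le_sqrt hcs
  refine habs.trans ?_
  have hv : 0 ≤ ∑ z, v z ^ 2 := Finset.sum_nonneg fun _ _ => sq_nonneg _
  calc √((∑ z, ((u ᵥ* X) z) ^ 2) * ∑ z, v z ^ 2)
      ≤ √((T ^ 2 * ∑ y, u y ^ 2) * ∑ z, v z ^ 2) :=
        Real.sqrt_le_sqrt (mul_le_mul_of_nonneg_right hq2 hv)
    _ = T * √(∑ y, u y ^ 2) * √(∑ y, v y ^ 2) := by
        rw [Real.sqrt_mul (by positivity), Real.sqrt_mul (by positivity), Real.sqrt_sq hT.le]

end Pool.H47EA
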